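import Mathlib

/-!
The real Hilbert space `ℓ²` is separable and infinite dimensional.
-/

set_option autoImplicit false

noncomputable section

open Filter Topology Set TopologicalSpace

namespace Run7.h491

/-- the real Hilbert space `ℓ²` -/
abbrev L2 : Type := lp (fun _ : ℕ => ℝ) 2

theorem L2_sep : SeparableSpace L2 := by
  rw [← isSeparable_univ_iff]
  have h1 : IsSeparable ((Submodule.span ℝ (Set.range fun n : ℕ =>
      (lp.single 2 n (1 : ℝ) : L2)) : Submodule ℝ L2) : Set L2) :=
    (Set.countable_range _).isSeparable.span
  refine h1.closure.mono ?_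
  intro f _
  have h2 := lp.hasSum_single (E := fun _ : ℕ => ℝ) (p := 2) (by norm_num) f
  refine mem_closure_of_tendsto h2.tendsto_sum_nat (Eventually.of_forall fun n => ?_)
  refine Submodule.sum_mem _ (fun i _ => ?_)
  have h3 : (lp.single 2 i (f i) : L2) = (f i) • (lp.single 2 i (1 : ℝ) : L2) := by
    rw [← lp.single_smul]
    simp
  rw [h3]
  exact Submodule.smul_mem _ _ (Submodule.subset_span ⟨i, rfl⟩)

theorem L2_inf : ¬ FiniteDimensional ℝ L2 := by
  intro h
  have hli : LinearIndependent ℝ (fun n : ℕ => (lp.single 2 n (1 : ℝ) : L2)) := by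
    rw [linearIndependent_iff']
    intro s g hg i hi
    have h1 := congrArg (fun f : L2 => (f : ℕ → ℝ) i) hg
    simp only at h1
    rw [lp.coeFn_sum, Finset.sum_apply] at h1
    rw [Finset.sum_eq_single i] at h1
    · simpa using h1
    · intro j _ hji
      simp [lp.single_apply, Pi.single_apply, hji.symm]
    · intro hi'
      exact absurd hi hi'
  have := hli.lt_aleph0_of_finiteDimensional
  simp at this

end Run7.h491
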