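import Pool.Agent.Run7.h491.NoExt

/-!
The compact space of pairs (functional, predictor) and the bad embedding of a superreflexive space.
-/

set_option autoImplicit false

noncomputable section

open Filter Topology Set

namespace Run7.h491

section
variable {X : Type*} [NormedAddCommGroup X] [NormedSpace ℝ X]

/-- pairs of a functional and a predictor of its values on the vectors `x` -/
def LSet (x : ℕ → X) (A C : ℝ) : Set (DB X × (List ℕ → ℝ)) :=
  {p | (∀ t, |p.2 t| ≤ A) ∧ ∀ s, err p.2 (fun t => p.1.1 (x (Encodable.encode t))) s ≤ C}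

theorem LSet_compact (x : ℕ → X) (A C : ℝ) : IsCompact (LSet x A C) := by
  have h1 : IsCompact ((univ : Set (DB X)) ×ˢ (Set.pi univ fun _ : List ℕ => Icc (-A) A)) :=
    isCompact_univ.prod (isCompact_univ_pi fun _ => isCompact_Icc)
  have h2 : IsClosed (LSet x A C) := by
    have e : LSet x A C = (⋂ t, {p | |p.2 t| ≤ A}) ∩
        ⋂ s, {p | err p.2 (fun t => p.1.1 (x (Encodable.encode t))) s ≤ C} := by
      ext p
      simp only [LSet, mem_ofPred_eq, mem_inter_iff, mem_iInter]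
    rw [e]
    refine (isClosed_iInter fun t => ?_).inter (isClosed_iInter fun s => ?_)
    · exact isClosed_le ((continuous_apply t).comp continuous_snd).abs continuous_const
    · refine isClosed_le ?_ continuous_const
      exact err_continuous (K := DB X × (List ℕ → ℝ)) (fun t p => p.2 t)
        (fun t p => p.1.1 (x (Encodable.encode t)))
        (fun t => (continuous_apply t).comp continuous_snd)
        (fun t => (DB.eval_continuous _).comp continuous_fst) s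
  refine h1.of_isClosed_subset h2 fun p hp => ?_
  refine ⟨mem_univ _, fun t _ => ?_⟩
  exact abs_le.1 (hp.1 t)

instance (x : ℕ → X) (A C : ℝ) : CompactSpace (LSet x A C) :=
  isCompact_iff_compactSpace.1 (LSet_compact x A C)

/-- the values of a functional, as functions on `LSet` -/
def aL (x : ℕ → X) (A C : ℝ) (s : List ℕ) : C(LSet x A C, ℝ) :=
  ⟨fun p => p.1.1.1 (x (Encodable.encode s)),
    (DB.eval_continuous _).comp (continuous_fst.comp continuous_subtype_val)⟩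

/-- the values of the predictor, as functions on `LSet` -/
def zL (x : ℕ → X) (A C : ℝ) (s : List ℕ) : C(LSet x A C, ℝ) :=
  ⟨fun p => p.1.2 s, (continuous_apply s).comp (continuous_snd.comp continuous_subtype_val)⟩

/-- the embedding of `X` into `C(LSet)` -/
def embL (x : ℕ → X) (A C : ℝ) (h : ∀ k : DB X, ∃ ζ, (k, ζ) ∈ LSet x A C) :
    X →ₗᵢ[ℝ] C(LSet x A C, ℝ) where
  toFun y := ⟨fun p => p.1.1.1 y,
    (DB.eval_continuous _).comp (continuous_fst.comp continuous_subtype_val)⟩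
  map_add' y y' := by ext k; exact map_add k.1.1.1 y y'
  map_smul' c y := by ext k; exact map_smul k.1.1.1 c y
  norm_map' y := by
    refine le_antisymm ?_ ?_
    · refine (ContinuousMap.norm_le _ (norm_nonneg _)).2 fun k => ?_
      rw [Real.norm_eq_abs]
      exact DB.abs_le k.1.1 y
    · rw [← (can X).norm_map y]
      refine (ContinuousMap.norm_le _ (norm_nonneg _)).2 fun k => ?_
      obtain ⟨ζ, hζ⟩ := h k
      exact ContinuousMap.norm_coe_le_norm (⟨fun p => p.1.1.1 y,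
        (DB.eval_continuous _).comp (continuous_fst.comp continuous_subtype_val)⟩ :
        C(LSet x A C, ℝ)) ⟨(k, ζ), hζ⟩

theorem embL_eq (x : ℕ → X) (A C : ℝ) (h : ∀ k : DB X, ∃ ζ, (k, ζ) ∈ LSet x A C) (s : List ℕ) :
    embL x A C h (x (Encodable.encode s)) = aL x A C s := rfl

end

section
variable {X : Type*} [NormedAddCommGroup X] [NormedSpace ℝ X]
variable {Z : Type*} [NormedAddCommGroup Z] [NormedSpace ℝ Z]

theorem Basic.map {K : ℝ} {x : ℕ → X} (hx : Basic K x) (hK : 0 ≤ K) (e : X ≃L[ℝ] Z) (c : ℝ) :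
    Basic (‖(e : X →L[ℝ] Z)‖ * (K * ‖(e.symm : Z →L[ℝ] X)‖) + 1) (fun n => c • e (x n)) := by
  have hspan : ∀ s : Set ℕ, ∀ u ∈ Submodule.span ℝ ((fun n => c • e (x n)) '' s),
      e.symm u ∈ Submodule.span ℝ (x '' s) := by
    intro s u hu
    have hle : Submodule.span ℝ ((fun n => c • e (x n)) '' s) ≤
        (Submodule.span ℝ (x '' s)).comap (e.symm : Z →L[ℝ] X).toLinearMap := by
      refine Submodule.span_le.2 ?_
      rintro _ ⟨i, hi, rfl⟩
      show e.symm (c • e (x i)) ∈ Submodule.span ℝ (x '' s)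
      rw [map_smul, e.symm_apply_apply]
      exact Submodule.smul_mem _ _ (Submodule.subset_span ⟨i, hi, rfl⟩)
    exact hle hu
  intro n u hu w hw
  have h1 := hx n _ (hspan _ u hu) _ (hspan _ w hw)
  rw [← map_add] at h1
  have h2 : ‖u‖ ≤ ‖(e : X →L[ℝ] Z)‖ * ‖e.symm u‖ := by
    have := (e : X →L[ℝ] Z).le_opNorm (e.symm u)
    rwa [ContinuousLinearEquiv.coe_coe, e.apply_symm_apply] at this
  have h3 : ‖e.symm (u + w)‖ ≤ ‖(e.symm : Z →L[ℝ] X)‖ * ‖u + w‖ :=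
    (e.symm : Z →L[ℝ] X).le_opNorm (u + w)
  calc ‖u‖ ≤ ‖(e : X →L[ℝ] Z)‖ * ‖e.symm u‖ := h2
    _ ≤ ‖(e : X →L[ℝ] Z)‖ * (K * ‖e.symm (u + w)‖) :=
      mul_le_mul_of_nonneg_left h1 (norm_nonneg _)
    _ ≤ ‖(e : X →L[ℝ] Z)‖ * (K * (‖(e.symm : Z →L[ℝ] X)‖ * ‖u + w‖)) :=
      mul_le_mul_of_nonneg_left (mul_le_mul_of_nonneg_left h3 hK) (norm_nonneg _)
    _ ≤ (‖(e : X →L[ℝ] Z)‖ * (K * ‖(e.symm : Z →L[ℝ] X)‖) + 1) * ‖u + w‖ := by
      nlinarith [norm_nonneg (u + w)]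

theorem exists_lq' [UniformConvexSpace Z] (e : X ≃L[ℝ] Z) (x : ℕ → X) (hx1 : ∀ n, ‖x n‖ = 1)
    (hx : Basic 2 x) :
    ∃ (q : ℕ) (M : ℝ), q ≠ 0 ∧ ∀ k : StrongDual ℝ X, ‖k‖ ≤ 1 → ∀ F : Finset ℕ,
      ∑ n ∈ F, |k (x n)| ^ q ≤ M := by
  set β := ‖(e : X →L[ℝ] Z)‖ + 1 with hβ
  have hβ0 : 0 < β := by positivity
  set γ := ‖(e.symm : Z →L[ℝ] X)‖ + 1 with hγ
  have hγ0 : 0 < γ := by positivity
  obtain ⟨q, hq, H⟩ := exists_lq (fun n => β⁻¹ • e (x n)) (fun n => by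
    rw [norm_smul, norm_inv, Real.norm_of_nonneg hβ0.le, inv_mul_le_iff₀ hβ0, mul_one]
    have := (e : X →L[ℝ] Z).le_opNorm (x n)
    rw [hx1, mul_one] at this
    refine this.trans ?_
    rw [hβ]; linarith) _ (by positivity) (hx.map (by norm_num) e β⁻¹)
  refine ⟨q, (β * γ) ^ q * 4, hq, fun k hk F => ?_⟩
  let φ : StrongDual ℝ Z := γ⁻¹ • (k.comp (e.symm : Z →L[ℝ] X))
  have hφ : ‖φ‖ ≤ 1 := by
    rw [norm_smul, norm_inv, Real.norm_of_nonneg hγ0.le, inv_mul_le_iff₀ hγ0, mul_one]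
    refine (k.opNorm_comp_le _).trans ?_
    have h1 : ‖k‖ * ‖(e.symm : Z →L[ℝ] X)‖ ≤ 1 * ‖(e.symm : Z →L[ℝ] X)‖ :=
      mul_le_mul_of_nonneg_right hk (norm_nonneg _)
    rw [one_mul] at h1
    refine h1.trans ?_
    rw [hγ]; linarith
  have h1 := H φ hφ F
  have h2 : ∀ n, |k (x n)| ^ q = (β * γ) ^ q * |φ (β⁻¹ • e (x n))| ^ q := by
    intro n
    have e1 : φ (β⁻¹ • e (x n)) = γ⁻¹ * (β⁻¹ * k (x n)) := by
      show γ⁻¹ • k (e.symm (β⁻¹ • e (x n))) = γ⁻¹ * (β⁻¹ * k (x n))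
      rw [map_smul, e.symm_apply_apply, map_smul, smul_eq_mul, smul_eq_mul]
    rw [e1, ← mul_pow, abs_mul, abs_mul, abs_of_pos (inv_pos.2 hγ0), abs_of_pos (inv_pos.2 hβ0)]
    congr 1
    field_simp
  calc ∑ n ∈ F, |k (x n)| ^ q = ∑ n ∈ F, (β * γ) ^ q * |φ (β⁻¹ • e (x n))| ^ q :=
        Finset.sum_congr rfl fun n _ => h2 n
    _ = (β * γ) ^ q * ∑ n ∈ F, |φ (β⁻¹ • e (x n))| ^ q := by rw [Finset.mul_sum]
    _ ≤ (β * γ) ^ q * 4 := mul_le_mul_of_nonneg_left h1 (by positivity)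

end

universe u v

/-- The bad embedding. -/
theorem exists_bad (X : Type u) [NormedAddCommGroup X] [NormedSpace ℝ X]
    [TopologicalSpace.SeparableSpace X] (hX : ¬ FiniteDimensional ℝ X)
    (Z : Type v) [NormedAddCommGroup Z] [NormedSpace ℝ Z] [UniformConvexSpace Z]
    (e : X ≃L[ℝ] Z) :
    ∃ (L : Type u) (_ : TopologicalSpace L) (_ : CompactSpace L)
      (_ : TopologicalSpace.MetrizableSpace L) (_ : Nonempty L) (j : X →ₗᵢ[ℝ] C(L, ℝ)),
      ∀ S : C(L, ℝ) →L[ℝ] C(DB X, ℝ), ¬ ∀ y, S (j y) = can X y := by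
  classical
  obtain ⟨x, f, hx1, hf3, hf1, hf2, hf0, hb⟩ := exists_basic' (X := X) hX
  obtain ⟨q, M, hq, hM⟩ := exists_lq' e x hx1 hb
  have hM0 : 0 ≤ M := by
    have := hM 0 (by simp) ∅
    simpa using this
  set A := M ^ (1 / (q : ℝ)) with hA
  have hA0 : 0 ≤ A := Real.rpow_nonneg hM0 _
  set C := 2 / (1 - (1 / 2 : ℝ) ^ (1 / (q : ℝ))) * M ^ (1 / (q : ℝ)) with hC
  have hq0 : (0 : ℝ) < q := by exact_mod_cast Nat.pos_of_ne_zero hq
  have hC0 : 0 ≤ C := by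
    have : (1 / 2 : ℝ) ^ (1 / (q : ℝ)) < 1 :=
      Real.rpow_lt_one (by norm_num) (by norm_num) (by positivity)
    have h2 : 0 < 1 - (1 / 2 : ℝ) ^ (1 / (q : ℝ)) := by linarith
    positivity
  have hsurj : ∀ k : DB X, ∃ ζ, (k, ζ) ∈ LSet x A C := by
    intro k
    obtain ⟨ζ, h1, h2⟩ := exists_pred_of_sum (fun t => k.1 (x (Encodable.encode t))) q hq M
      (fun F => by
        have := hM (WeakDual.toStrongDual k.1) (DB.norm_le k) (F.image Encodable.encode)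
        rw [Finset.sum_image (fun a _ b _ h => Encodable.encode_injective h)] at this
        exact this)
    exact ⟨ζ, h1, h2⟩
  have hmet : TopologicalSpace.MetrizableSpace (DB X) :=
    WeakDual.metrizable_of_isCompact ℝ X _ (WeakDual.isCompact_closedBall 0 1)
  obtain ⟨ζ₀, hζ₀⟩ := hsurj default
  refine ⟨LSet x A C, inferInstance, inferInstance, inferInstance, ⟨⟨_, hζ₀⟩⟩,
    embL x A C hsurj, fun S hS => ?_⟩
  refine no_operator x f hf1 hf2 hf0
    (fun u => ‖u.comp (e.symm : Z →L[ℝ] X)‖) (‖(e : X →L[ℝ] Z)‖ + 1) (by positivity)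
    (by simp) (fun u => ?_) (fun η hη => ?_) S (zL x A C) (aL x A C)
    (fun s => ?_) C hC0 (fun s p => p.2.2 s)
  · have e1 : u = (u.comp (e.symm : Z →L[ℝ] X)).comp (e : X →L[ℝ] Z) := by
      ext y
      simp
    have h1 : ‖u‖ ≤ ‖u.comp (e.symm : Z →L[ℝ] X)‖ * ‖(e : X →L[ℝ] Z)‖ := by
      conv_lhs => rw [e1]
      exact ContinuousLinearMap.opNorm_comp_le _ _
    nlinarith [norm_nonneg (u.comp (e.symm : Z →L[ℝ] X))]
  · obtain ⟨R, hR, H⟩ := exists_aus (fun n => (f n).comp (e.symm : Z →L[ℝ] X))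
      (3 * ‖(e.symm : Z →L[ℝ] X)‖) (fun n => by
        refine ((f n).opNorm_comp_le _).trans ?_
        exact mul_le_mul_of_nonneg_right (hf3 n) (norm_nonneg _))
      (fun y => hf0 (e.symm y)) η hη
    refine ⟨R, hR, fun u => ?_⟩
    obtain ⟨n₀, hn₀⟩ := H (u.comp (e.symm : Z →L[ℝ] X))
    refine ⟨n₀, fun n hn => ?_⟩
    have e2 : (u + f n).comp (e.symm : Z →L[ℝ] X) =
        u.comp (e.symm : Z →L[ℝ] X) + (f n).comp (e.symm : Z →L[ℝ] X) := by
      ext y; rfl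
    have e3 : (u - f n).comp (e.symm : Z →L[ℝ] X) =
        u.comp (e.symm : Z →L[ℝ] X) - (f n).comp (e.symm : Z →L[ℝ] X) := by
      ext y; rfl
    show ‖(u + f n).comp (e.symm : Z →L[ℝ] X)‖ ≤ _ ∧ ‖(u - f n).comp (e.symm : Z →L[ℝ] X)‖ ≤ _
    rw [e2, e3]
    exact hn₀ n hn
  · rw [← embL_eq x A C hsurj s]
    exact hS _

end Run7.h491
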