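import Pool.Agent.Run7.h491.UC

/-!
Mazur's construction of a basic sequence with bounded biorthogonal functionals which vanish
eventually on a given sequence.
-/

set_option autoImplicit false

namespace Run7.h491

variable {X : Type*} [NormedAddCommGroup X] [NormedSpace ℝ X]

/-- `S` norms `F` up to the factor `2`. -/
def Norms (F : Submodule ℝ X) (S : Finset (StrongDual ℝ X)) : Prop :=
  ∀ u ∈ F, ∀ w : X, (∀ g ∈ S, g w = 0) → ‖u‖ ≤ 2 * ‖u + w‖

theorem exists_norms (F : Submodule ℝ X) [FiniteDimensional ℝ F] :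
    ∃ S : Finset (StrongDual ℝ X), Norms F S := by
  classical
  have hc : IsCompact (Metric.sphere (0 : F) 1) := isCompact_sphere _ _
  have hg : ∀ v : F, ∃ g : StrongDual ℝ X, ‖g‖ ≤ 1 ∧ g v = ‖(v : X)‖ := fun v =>
    exists_dual_vector'' ℝ (v : X)
  choose g hg1 hg2 using hg
  obtain ⟨t, ht1, ht2⟩ := hc.elim_nhds_subcover (fun v => Metric.ball v (1 / 2))
    (fun v _ => Metric.ball_mem_nhds v (by norm_num))
  refine ⟨t.image g, fun u hu w hw => ?_⟩
  rcases eq_or_ne u 0 with rfl | hu0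
  · rw [norm_zero]
    positivity
  have hun : 0 < ‖u‖ := norm_pos_iff.2 hu0
  set u₀ : F := ‖u‖⁻¹ • ⟨u, hu⟩ with hu₀
  have hu₀n : ‖u₀‖ = 1 := by
    rw [hu₀, norm_smul, norm_inv, norm_norm, Submodule.coe_norm]
    exact inv_mul_cancel₀ hun.ne'
  obtain ⟨v, hv, hv2⟩ := Set.mem_iUnion₂.1 (ht2 (show u₀ ∈ Metric.sphere (0 : F) 1 by
    rw [mem_sphere_zero_iff_norm]; exact hu₀n))
  rw [Metric.mem_ball, dist_eq_norm] at hv2
  have hvs : ‖(v : X)‖ = 1 := by
    have := ht1 v hv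
    rwa [mem_sphere_zero_iff_norm] at this
  have h1 : g v (u₀ : X) ≥ 1 / 2 := by
    have e : g v (u₀ : X) = g v (v : X) + g v ((u₀ : X) - v) := by
      rw [← map_add]; congr 1; abel
    have h2 : |g v ((u₀ : X) - v)| ≤ 1 / 2 := by
      rw [← Real.norm_eq_abs]
      refine ((g v).le_opNorm _).trans ?_
      calc ‖g v‖ * ‖(u₀ : X) - v‖ ≤ 1 * ‖(u₀ : X) - v‖ :=
            mul_le_mul_of_nonneg_right (hg1 v) (norm_nonneg _)
        _ = ‖u₀ - v‖ := by rw [one_mul]; rfl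
        _ ≤ 1 / 2 := hv2.le
    rw [e, hg2, hvs]
    have := (abs_le.1 h2).1
    linarith
  have h3 : (u₀ : X) = ‖u‖⁻¹ • u := rfl
  rw [h3, map_smul, smul_eq_mul] at h1
  have h4 : ‖u‖ / 2 ≤ g v u := by
    have : ‖u‖ * (1 / 2) ≤ ‖u‖ * (‖u‖⁻¹ * g v u) := mul_le_mul_of_nonneg_left h1 hun.le
    rw [← mul_assoc, mul_inv_cancel₀ hun.ne', one_mul] at this
    linarith
  have h5 : g v (u + w) ≤ ‖u + w‖ := by
    refine (le_abs_self _).trans ?_
    rw [← Real.norm_eq_abs]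
    refine ((g v).le_opNorm _).trans ?_
    calc ‖g v‖ * ‖u + w‖ ≤ 1 * ‖u + w‖ := mul_le_mul_of_nonneg_right (hg1 v) (norm_nonneg _)
      _ = ‖u + w‖ := one_mul _
  rw [map_add, hw (g v) (Finset.mem_image_of_mem g hv), add_zero] at h5
  linarith

theorem exists_unit_ker (hX : ¬ FiniteDimensional ℝ X) (S : Finset (StrongDual ℝ X)) :
    ∃ x : X, ‖x‖ = 1 ∧ ∀ g ∈ S, g x = 0 := by
  by_contra hcon
  push Not at hcon
  apply hX
  let φ : X →ₗ[ℝ] (S → ℝ) := LinearMap.pi fun g => (g : StrongDual ℝ X).toLinearMap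
  have hφ : Function.Injective φ := by
    rw [injective_iff_map_eq_zero]
    intro x hx
    by_contra hx0
    have hn : 0 < ‖x‖ := norm_pos_iff.2 hx0
    obtain ⟨g, hg, hgx⟩ := hcon (‖x‖⁻¹ • x) (by
      rw [norm_smul, norm_inv, norm_norm]
      exact inv_mul_cancel₀ hn.ne')
    apply hgx
    rw [map_smul]
    have : φ x ⟨g, hg⟩ = 0 := by rw [hx]; rfl
    have h2 : g x = 0 := this
    rw [h2, smul_zero]
  exact Module.Finite.of_injective φ hφ

theorem exists_fun (F : Submodule ℝ X) (x : X) (hx : ‖x‖ = 1)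
    (h : ∀ u ∈ F, ‖u‖ ≤ 2 * ‖u + x‖) :
    ∃ f : StrongDual ℝ X, ‖f‖ ≤ 3 ∧ (∀ u ∈ F, f u = 0) ∧ f x = 1 := by
  have hq : 1 / 3 ≤ ‖(Submodule.Quotient.mk x : X ⧸ F)‖ := by
    by_contra hcon
    push Not at hcon
    obtain ⟨m, hm1, hm2⟩ := Submodule.Quotient.norm_mk_lt (S := F)
      (Submodule.Quotient.mk x) (sub_pos.2 hcon)
    have hm3 : ‖m‖ < 1 / 3 := by linarith
    rw [Submodule.Quotient.eq] at hm1
    have h1 := h _ hm1
    have e : m - x + x = m := by abel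
    rw [e] at h1
    have h2 : ‖x‖ ≤ ‖m - x‖ + ‖m‖ := by
      have := norm_sub_le m (m - x)
      rw [sub_sub_cancel] at this
      linarith
    linarith
  have hq0 : ‖(Submodule.Quotient.mk x : X ⧸ F)‖ ≠ 0 := by
    intro h0
    rw [h0] at hq
    norm_num at hq
  obtain ⟨g, hg1, hg2⟩ := exists_dual_vector ℝ (Submodule.Quotient.mk x : X ⧸ F) hq0
  let π : X →L[ℝ] (X ⧸ F) := F.mkQ.mkContinuous 1 (fun y => by
    rw [one_mul]; exact Submodule.Quotient.norm_mk_le F y)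
  have hπ : ∀ y, π y = Submodule.Quotient.mk y := fun _ => rfl
  have hπn : ‖π‖ ≤ 1 := LinearMap.mkContinuous_norm_le _ zero_le_one _
  refine ⟨‖(Submodule.Quotient.mk x : X ⧸ F)‖⁻¹ • (g.comp π), ?_, ?_, ?_⟩
  · rw [norm_smul, norm_inv, norm_norm]
    have h1 : ‖g.comp π‖ ≤ 1 := by
      refine (g.opNorm_comp_le π).trans ?_
      rw [hg1, one_mul]
      exact hπn
    have h2 : ‖(Submodule.Quotient.mk x : X ⧸ F)‖⁻¹ ≤ 3 := by
      rw [inv_le_comm₀ (by linarith) (by norm_num)]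
      linarith
    calc ‖(Submodule.Quotient.mk x : X ⧸ F)‖⁻¹ * ‖g.comp π‖ ≤ 3 * 1 :=
          mul_le_mul h2 h1 (norm_nonneg _) (by norm_num)
      _ = 3 := mul_one _
  · intro u hu
    show ‖(Submodule.Quotient.mk x : X ⧸ F)‖⁻¹ • g (π u) = 0
    rw [hπ, (Submodule.Quotient.mk_eq_zero F).2 hu, map_zero, smul_zero]
  · show ‖(Submodule.Quotient.mk x : X ⧸ F)‖⁻¹ • g (π x) = 1
    rw [hπ, hg2, smul_eq_mul]
    exact inv_mul_cancel₀ hq0

/-- the states of the construction -/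
structure St (X : Type*) [NormedAddCommGroup X] [NormedSpace ℝ X] where
  F : Submodule ℝ X
  S : Finset (StrongDual ℝ X)
  fin : FiniteDimensional ℝ F
  nor : Norms F S

theorem St.step (hX : ¬ FiniteDimensional ℝ X) (p : St X) (d : X) :
    ∃ (x : X) (f : StrongDual ℝ X) (p' : St X), ‖x‖ = 1 ∧ (∀ g ∈ p.S, g x = 0) ∧ ‖f‖ ≤ 3 ∧
      (∀ u ∈ p.F, f u = 0) ∧ f x = 1 ∧ p.F ≤ p'.F ∧ x ∈ p'.F ∧ d ∈ p'.F ∧ p.S ⊆ p'.S ∧
      f ∈ p'.S := by
  classical
  obtain ⟨x, hx1, hx2⟩ := exists_unit_ker hX p.S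
  obtain ⟨f, hf1, hf2, hf3⟩ := exists_fun p.F x hx1 (fun u hu => p.nor u hu x hx2)
  have := p.fin
  let F' : Submodule ℝ X := p.F ⊔ Submodule.span ℝ {x, d}
  have hF' : FiniteDimensional ℝ F' := by
    have : FiniteDimensional ℝ (Submodule.span ℝ {x, d}) :=
      FiniteDimensional.span_of_finite ℝ (by simp)
    infer_instance
  obtain ⟨S', hS'⟩ := exists_norms F'
  refine ⟨x, f, ⟨F', S' ∪ insert f p.S, hF', fun u hu w hw => hS' u hu w fun g hg =>
    hw g (Finset.mem_union_left _ hg)⟩, hx1, hx2, hf1, hf2, hf3, le_sup_left, ?_, ?_, ?_, ?_⟩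
  · exact Submodule.mem_sup_right (Submodule.subset_span (by simp))
  · exact Submodule.mem_sup_right (Submodule.subset_span (by simp))
  · intro g hg
    exact Finset.mem_union_right _ (Finset.mem_insert_of_mem hg)
  · exact Finset.mem_union_right _ (Finset.mem_insert_self _ _)

theorem exists_basic (hX : ¬ FiniteDimensional ℝ X) (d : ℕ → X) :
    ∃ (x : ℕ → X) (f : ℕ → StrongDual ℝ X), (∀ n, ‖x n‖ = 1) ∧ (∀ n, ‖f n‖ ≤ 3) ∧
      (∀ n, f n (x n) = 1) ∧ (∀ n m, n ≠ m → f n (x m) = 0) ∧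
      (∀ m n, m < n → f n (d m) = 0) ∧ Basic 2 x := by
  classical
  choose xx ff pp H using fun (p : St X) (y : X) => St.step hX p y
  let p0 : St X := ⟨⊥, ∅, inferInstance, fun u hu w _ => by
    rw [Submodule.mem_bot] at hu
    rw [hu, norm_zero]
    positivity⟩
  let st : ℕ → St X := fun n => Nat.rec p0 (fun k p => pp p (d k)) n
  have hst : ∀ n, st (n + 1) = pp (st n) (d n) := fun n => rfl
  let x : ℕ → X := fun n => xx (st n) (d n)
  let f : ℕ → StrongDual ℝ X := fun n => ff (st n) (d n)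
  have hF : Monotone fun n => (st n).F :=
    monotone_nat_of_le_succ fun n => by rw [hst]; exact (H (st n) (d n)).2.2.2.2.2.1
  have hS : Monotone fun n => (st n).S :=
    monotone_nat_of_le_succ fun n => by rw [hst]; exact (H (st n) (d n)).2.2.2.2.2.2.2.2.1
  have hx : ∀ n, x n ∈ (st (n + 1)).F := fun n => by
    rw [hst]; exact (H (st n) (d n)).2.2.2.2.2.2.1
  have hd : ∀ n, d n ∈ (st (n + 1)).F := fun n => by
    rw [hst]; exact (H (st n) (d n)).2.2.2.2.2.2.2.1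
  have hf : ∀ n, f n ∈ (st (n + 1)).S := fun n => by
    rw [hst]; exact (H (st n) (d n)).2.2.2.2.2.2.2.2.2
  have hker : ∀ n, ∀ g ∈ (st n).S, g (x n) = 0 := fun n => (H (st n) (d n)).2.1
  have hfF : ∀ n, ∀ u ∈ (st n).F, f n u = 0 := fun n => (H (st n) (d n)).2.2.2.1
  refine ⟨x, f, fun n => (H (st n) (d n)).1, fun n => (H (st n) (d n)).2.2.1,
    fun n => (H (st n) (d n)).2.2.2.2.1, ?_, ?_, ?_⟩
  · intro n m hnm
    rcases lt_or_gt_of_ne hnm with h | h
    · exact hker m (f n) (hS (Nat.succ_le_of_lt h) (hf n))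
    · exact hfF n (x m) (hF (Nat.succ_le_of_lt h) (hx m))
  · intro m n hmn
    exact hfF n (d m) (hF (Nat.succ_le_of_lt hmn) (hd m))
  · intro n u hu w hw
    refine (st n).nor u ?_ w ?_
    · refine (Submodule.span_le.2 ?_) hu
      rintro _ ⟨i, hi, rfl⟩
      exact hF (Nat.succ_le_of_lt hi) (hx i)
    · intro g hg
      have : w ∈ LinearMap.ker g.toLinearMap := by
        refine (Submodule.span_le.2 ?_) hw
        rintro _ ⟨i, hi, rfl⟩
        exact hker i g (hS hi hg)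
      exact this

/-- the functionals tend to zero pointwise when `d` is dense -/
theorem exists_basic' [TopologicalSpace.SeparableSpace X] (hX : ¬ FiniteDimensional ℝ X) :
    ∃ (x : ℕ → X) (f : ℕ → StrongDual ℝ X), (∀ n, ‖x n‖ = 1) ∧ (∀ n, ‖f n‖ ≤ 3) ∧
      (∀ n, f n (x n) = 1) ∧ (∀ n m, n ≠ m → f n (x m) = 0) ∧
      (∀ y, Filter.Tendsto (fun n => f n y) Filter.atTop (nhds 0)) ∧ Basic 2 x := by
  obtain ⟨x, f, h1, h2, h3, h4, h5, h6⟩ := exists_basic hX (TopologicalSpace.denseSeq X)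
  refine ⟨x, f, h1, h2, h3, h4, fun y => ?_, h6⟩
  rw [Metric.tendsto_atTop]
  intro ε hε
  obtain ⟨_, ⟨m, rfl⟩, hm⟩ := Metric.mem_closure_iff.1
    (TopologicalSpace.denseRange_denseSeq X y) (ε / 3) (by positivity)
  refine ⟨m + 1, fun n hn => ?_⟩
  rw [Real.dist_eq, sub_zero]
  have e : f n y = f n (y - TopologicalSpace.denseSeq X m) := by
    rw [map_sub, h5 m n (by omega), sub_zero]
  rw [e, ← Real.norm_eq_abs]
  refine ((f n).le_opNorm _).trans_lt ?_
  rw [dist_eq_norm] at hm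
  have := norm_nonneg (f n)
  have := h2 n
  nlinarith [norm_nonneg (y - TopologicalSpace.denseSeq X m)]

end Run7.h491
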