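import Pool.Agent.H342R3.PosIso

/-!
Milutin's lemma for a general compact metrizable space, by independent random roundings:
`C(K)` is a one-complemented subspace of `C(ℕ → Bool)` and of `C([0,1])`.
-/

set_option autoImplicit false

noncomputable section

open Set Function Topology Filter
open Pool.Agent.H342R3.PosIso

namespace Run7.h491.Mil

/-- averages of a function on sequences over the first `n` digits -/
def bt : ℕ → (ℕ → ℝ) → C(ℕ → Bool, ℝ) → ℝ
  | 0, _, h => h (fun _ => false)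
  | n + 1, p, h => (1 - p 0) * bt n (fun i => p (i + 1)) (pre false h) +
      p 0 * bt n (fun i => p (i + 1)) (pre true h)

theorem bt_add (n : ℕ) : ∀ (p : ℕ → ℝ) (h h' : C(ℕ → Bool, ℝ)),
    bt n p (h + h') = bt n p h + bt n p h' := by
  induction n with
  | zero => intro p h h'; rfl
  | succ n ih =>
    intro p h h'
    simp only [bt, map_add, ih]
    ring

theorem bt_smul (n : ℕ) : ∀ (p : ℕ → ℝ) (r : ℝ) (h : C(ℕ → Bool, ℝ)),
    bt n p (r • h) = r * bt n p h := by
  induction n with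
  | zero => intro p r h; rfl
  | succ n ih =>
    intro p r h
    simp only [bt, map_smul, ih]
    ring

theorem bt_cont {K : Type*} [TopologicalSpace K] (n : ℕ) : ∀ (φ : ℕ → C(K, ℝ))
    (h : C(ℕ → Bool, ℝ)), Continuous fun t => bt n (fun i => φ i t) h := by
  induction n with
  | zero => intro φ h; exact continuous_const
  | succ n ih =>
    intro φ h
    have h0 := ih (fun i => φ (i + 1)) (pre false h)
    have h1 := ih (fun i => φ (i + 1)) (pre true h)
    have h2 := (φ 0).continuous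
    simp only [bt]
    exact ((continuous_const.sub h2).mul h0).add (h2.mul h1)

theorem convex_near {p a b c ε : ℝ} (h0 : 0 ≤ p) (h1 : p ≤ 1) (ha : p < 1 → |a - c| ≤ ε)
    (hb : 0 < p → |b - c| ≤ ε) : |(1 - p) * a + p * b - c| ≤ ε := by
  rcases eq_or_lt_of_le h0 with h | h
  · subst h
    have := ha (by norm_num)
    simpa using this
  rcases eq_or_lt_of_le h1 with h' | h'
  · subst h'
    have := hb (by norm_num)
    simpa using this
  have e : (1 - p) * a + p * b - c = (1 - p) * (a - c) + p * (b - c) := by ring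
  rw [e]
  have h3 := ha h'
  have h4 := hb h
  rw [abs_le] at h3 h4 ⊢
  constructor <;> nlinarith [h3.1, h3.2, h4.1, h4.2]

/-- `y` is compatible with the probabilities `p` -/
def Comp (p : ℕ → ℝ) (y : ℕ → Bool) : Prop :=
  ∀ i, (y i = false ∧ p i < 1) ∨ (y i = true ∧ 0 < p i)

theorem exists_comp (p : ℕ → ℝ) : ∃ y, Comp p y := by
  classical
  refine ⟨fun i => if p i < 1 then false else true, fun i => ?_⟩
  by_cases hp : p i < 1
  · left; simp [hp]
  · right; simp [hp]; linarith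

theorem bt_near (n : ℕ) : ∀ (p : ℕ → ℝ) (h : C(ℕ → Bool, ℝ)) (c ε : ℝ), (∀ i, 0 ≤ p i) →
    (∀ i, p i ≤ 1) → Osc n h ε → (∀ y, Comp p y → h y = c) → |bt n p h - c| ≤ ε := by
  induction n with
  | zero =>
    intro p h c ε h0 h1 hosc hc
    obtain ⟨y, hy⟩ := exists_comp p
    have := hosc (fun _ => false) y (fun i hi => by omega)
    rw [hc y hy] at this
    exact this
  | succ n ih =>
    intro p h c ε h0 h1 hosc hc
    simp only [bt]
    refine convex_near (h0 0) (h1 0) (fun hp => ?_) (fun hp => ?_)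
    · refine ih _ _ c ε (fun i => h0 _) (fun i => h1 _) (hosc.pre false) ?_
      intro y hy
      refine hc (cons false y) fun i => ?_
      cases i with
      | zero => exact Or.inl ⟨rfl, hp⟩
      | succ i => exact hy i
    · refine ih _ _ c ε (fun i => h0 _) (fun i => h1 _) (hosc.pre true) ?_
      intro y hy
      refine hc (cons true y) fun i => ?_
      cases i with
      | zero => exact Or.inr ⟨rfl, hp⟩
      | succ i => exact hy i

theorem bt_avg (n : ℕ) : ∀ (p : ℕ → ℝ) (h : C(ℕ → Bool, ℝ)) (c ε : ℝ), (∀ i, 0 ≤ p i) →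
    (∀ i, p i ≤ 1) → (∀ y, |h y - c| ≤ ε) → |bt n p h - c| ≤ ε := by
  induction n with
  | zero => intro p h c ε _ _ H; exact H _
  | succ n ih =>
    intro p h c ε h0 h1 H
    simp only [bt]
    exact convex_near (h0 0) (h1 0)
      (fun _ => ih _ _ c ε (fun i => h0 _) (fun i => h1 _) (fun y => H _))
      (fun _ => ih _ _ c ε (fun i => h0 _) (fun i => h1 _) (fun y => H _))

theorem bt_cauchy (n : ℕ) : ∀ (m : ℕ) (p : ℕ → ℝ) (h : C(ℕ → Bool, ℝ)) (ε : ℝ),
    (∀ i, 0 ≤ p i) → (∀ i, p i ≤ 1) → n ≤ m → Osc n h ε → |bt m p h - bt n p h| ≤ ε := by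
  induction n with
  | zero =>
    intro m p h ε h0 h1 _ H
    exact bt_avg m p h _ ε h0 h1 (fun y => H y _ (fun i hi => by omega))
  | succ n ih =>
    intro m p h ε h0 h1 hm H
    obtain ⟨m, rfl⟩ : ∃ m', m = m' + 1 := ⟨m - 1, by omega⟩
    simp only [bt]
    have i0 := ih m (fun i => p (i + 1)) (pre false h) ε (fun i => h0 _) (fun i => h1 _) (by omega)
      (H.pre false)
    have i1 := ih m (fun i => p (i + 1)) (pre true h) ε (fun i => h0 _) (fun i => h1 _) (by omega)
      (H.pre true)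
    have h2 := h0 0
    have h3 := h1 0
    rw [abs_le] at i0 i1 ⊢
    constructor <;> nlinarith [i0.1, i0.2, i1.1, i1.2]

theorem Osc.mono {n m : ℕ} {y : C(ℕ → Bool, ℝ)} {ε : ℝ} (h : Osc n y ε) (hnm : n ≤ m) :
    Osc m y ε := fun ω ω' hω => h ω ω' fun i hi => hω i (by omega)

theorem exists_beta {K : Type*} [TopologicalSpace K] [CompactSpace K] (φ : ℕ → C(K, ℝ))
    (h0 : ∀ i t, 0 ≤ φ i t) (h1 : ∀ i t, φ i t ≤ 1) :
    ∃ β : C(ℕ → Bool, ℝ) →L[ℝ] C(K, ℝ), (∀ h, ‖β h‖ ≤ ‖h‖) ∧
      ∀ (h : C(ℕ → Bool, ℝ)) (t : K) (c : ℝ),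
        (∀ y, Comp (fun i => φ i t) y → h y = c) → β h t = c := by
  let b : ℕ → C(ℕ → Bool, ℝ) → C(K, ℝ) := fun n h =>
    ⟨fun t => bt n (fun i => φ i t) h, bt_cont n φ h⟩
  have hb : ∀ n h t, b n h t = bt n (fun i => φ i t) h := fun _ _ _ => rfl
  have hC : ∀ h, CauchySeq fun n => b n h := by
    intro h
    rw [Metric.cauchySeq_iff']
    intro ε hε
    obtain ⟨N, hN⟩ := exists_osc h (half_pos hε)
    refine ⟨N, fun m hm => ?_⟩
    rw [dist_eq_norm]
    refine lt_of_le_of_lt ?_ (half_lt_self hε)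
    refine (ContinuousMap.norm_le _ (half_pos hε).le).2 fun t => ?_
    rw [ContinuousMap.sub_apply, Real.norm_eq_abs, hb, hb]
    exact bt_cauchy N m _ h _ (fun i => h0 i t) (fun i => h1 i t) hm hN
  choose β hβ using fun h => cauchySeq_tendsto_of_complete (hC h)
  let βl : C(ℕ → Bool, ℝ) →ₗ[ℝ] C(K, ℝ) :=
    { toFun := β
      map_add' := fun h h' => by
        refine tendsto_nhds_unique (hβ (h + h')) ?_
        refine ((hβ h).add (hβ h')).congr fun n => ?_
        ext t
        rw [ContinuousMap.add_apply, hb, hb, hb, bt_add]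
      map_smul' := fun r h => by
        refine tendsto_nhds_unique (hβ (r • h)) ?_
        refine ((hβ h).const_smul r).congr fun n => ?_
        ext t
        rw [ContinuousMap.smul_apply, hb, hb, bt_smul, smul_eq_mul] }
  have hpt : ∀ h t, Tendsto (fun n => bt n (fun i => φ i t) h) atTop (𝓝 (β h t)) := by
    intro h t
    exact ((ContinuousEvalConst.continuous_eval_const t).tendsto _).comp (hβ h)
  have hbound : ∀ h, ‖β h‖ ≤ ‖h‖ := by
    intro h
    refine (ContinuousMap.norm_le _ (norm_nonneg _)).2 fun t => ?_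
    have h2 : ∀ n, |bt n (fun i => φ i t) h| ≤ ‖h‖ := by
      intro n
      have := bt_avg n (fun i => φ i t) h 0 ‖h‖ (fun i => h0 i t) (fun i => h1 i t)
        (fun y => by rw [sub_zero]; exact h.norm_coe_le_norm y)
      rwa [sub_zero] at this
    exact le_of_tendsto' (hpt h t).abs h2
  refine ⟨βl.mkContinuous 1 (fun h => by rw [one_mul]; exact hbound h), hbound,
    fun h t c hc => ?_⟩
  show β h t = c
  refine tendsto_nhds_unique (hpt h t) ?_
  rw [Metric.tendsto_atTop]
  intro ε hε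
  obtain ⟨N, hN⟩ := exists_osc h (half_pos hε)
  refine ⟨N, fun m hm => ?_⟩
  rw [Real.dist_eq]
  refine lt_of_le_of_lt ?_ (half_lt_self hε)
  exact bt_near m _ h c _ (fun i => h0 i t) (fun i => h1 i t) (Osc.mono hN hm) hc

/-- **Milutin's lemma**: for a nonempty compact metrizable `K`, the space `C(K)` is isometric to a
one-complemented subspace of `C(ℕ → Bool)`. -/
theorem milutin (K : Type*) [TopologicalSpace K] [CompactSpace K]
    [TopologicalSpace.MetrizableSpace K] [hK : Nonempty K] :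
    ∃ (α : C(K, ℝ) →L[ℝ] C(ℕ → Bool, ℝ)) (β : C(ℕ → Bool, ℝ) →L[ℝ] C(K, ℝ)),
      (∀ f, ‖α f‖ ≤ ‖f‖) ∧ (∀ h, ‖β h‖ ≤ ‖h‖) ∧ ∀ f, β (α f) = f := by
  classical
  let : MetricSpace K := TopologicalSpace.metrizableSpaceMetric K
  have : TopologicalSpace.SeparableSpace K :=
    TopologicalSpace.SecondCountableTopology.to_separableSpace
  obtain ⟨F, hF⟩ := Metric.PiNatEmbed.exists_embedding_to_hilbert_cube (X := K)
  have hFc : ∀ m, Continuous fun t => ((F t m : unitInterval) : ℝ) := fun m =>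
    continuous_subtype_val.comp ((continuous_apply m).comp hF.continuous)
  let f : ℕ → C(K, ℝ) := fun m => ⟨fun t => (F t m : ℝ), hFc m⟩
  have hfsep : ∀ t t', (∀ m, f m t = f m t') → t = t' := by
    intro t t' h
    apply hF.injective
    funext m
    exact Subtype.ext (h m)
  have : Nonempty (ℕ × {p : ℚ × ℚ // p.1 < p.2}) := ⟨(0, ⟨(0, 1), by norm_num⟩)⟩
  obtain ⟨en, hen⟩ := exists_surjective_nat (ℕ × {p : ℚ × ℚ // p.1 < p.2})
  let a : ℕ → ℝ := fun i => ((en i).2.1.1 : ℝ)
  let b : ℕ → ℝ := fun i => ((en i).2.1.2 : ℝ)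
  let g : ℕ → C(K, ℝ) := fun i => f (en i).1
  have hab : ∀ i, a i < b i := fun i => by
    have := (en i).2.2
    show (((en i).2.1.1 : ℚ) : ℝ) < (((en i).2.1.2 : ℚ) : ℝ)
    exact_mod_cast this
  let φ : ℕ → C(K, ℝ) := fun i =>
    ⟨fun t => max 0 (min 1 ((g i t - a i) / (b i - a i))), by fun_prop⟩
  have hφ : ∀ i t, φ i t = max 0 (min 1 ((g i t - a i) / (b i - a i))) := fun _ _ => rfl
  have hφ0 : ∀ i t, 0 ≤ φ i t := fun i t => le_max_left _ _
  have hφ1 : ∀ i t, φ i t ≤ 1 := fun i t => max_le zero_le_one (min_le_left _ _)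
  have hφa : ∀ i t, 0 < φ i t → a i ≤ g i t := by
    intro i t h
    by_contra hlt
    push Not at hlt
    have h2 : (g i t - a i) / (b i - a i) ≤ 0 :=
      div_nonpos_of_nonpos_of_nonneg (by linarith) (by linarith [hab i])
    rw [hφ, lt_max_iff, lt_min_iff] at h
    rcases h with h | h
    · exact lt_irrefl _ h
    · linarith [h.2]
  have hφb : ∀ i t, φ i t < 1 → g i t ≤ b i := by
    intro i t h
    by_contra hlt
    push Not at hlt
    have h2 : 1 ≤ (g i t - a i) / (b i - a i) := by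
      rw [le_div_iff₀ (by linarith [hab i])]
      linarith
    rw [hφ, max_lt_iff, min_lt_iff] at h
    rcases h.2 with h | h
    · exact lt_irrefl _ h
    · linarith
  obtain ⟨β, hβn, hβ⟩ := exists_beta φ hφ0 hφ1
  let G : Set ((ℕ → Bool) × K) :=
    {p | ∀ i, (p.1 i = false ∧ g i p.2 ≤ b i) ∨ (p.1 i = true ∧ a i ≤ g i p.2)}
  have hG : IsClosed G := by
    have : G = ⋂ i, ({p : (ℕ → Bool) × K | p.1 i = false} ∩
        {p : (ℕ → Bool) × K | g i p.2 ≤ b i}) ∪
        ({p : (ℕ → Bool) × K | p.1 i = true} ∩ {p : (ℕ → Bool) × K | a i ≤ g i p.2}) := by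
      ext p
      simp only [mem_iInter, mem_union, mem_inter_iff]
      rfl
    rw [this]
    refine isClosed_iInter fun i => ?_
    have hc1 : Continuous fun p : (ℕ → Bool) × K => p.1 i :=
      (continuous_apply i).comp continuous_fst
    have hc2 : Continuous fun p : (ℕ → Bool) × K => g i p.2 :=
      (g i).continuous.comp continuous_snd
    exact ((isClosed_eq hc1 continuous_const).inter (isClosed_le hc2 continuous_const)).union
      ((isClosed_eq hc1 continuous_const).inter (isClosed_le continuous_const hc2))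
  have hφG : ∀ t (y : ℕ → Bool), Comp (fun i => φ i t) y → (y, t) ∈ G := by
    intro t y hy i
    rcases hy i with h | h
    · exact Or.inl ⟨h.1, hφb i t h.2⟩
    · exact Or.inr ⟨h.1, hφa i t h.2⟩
  have hG1' : ∀ y t t', (y, t) ∈ G → (y, t') ∈ G → ∀ m, ¬ f m t < f m t' := by
    intro y t t' h h' m hlt
    obtain ⟨p, hp1, hp2⟩ := exists_rat_btwn hlt
    obtain ⟨q, hq1, hq2⟩ := exists_rat_btwn hp2
    have hpq : p < q := by exact_mod_cast hq1
    obtain ⟨i, hi⟩ := hen (m, ⟨(p, q), hpq⟩)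
    have ea : a i = p := by simp only [a, hi]
    have eb : b i = q := by simp only [b, hi]
    have eg : g i = f m := by simp only [g, hi]
    rcases h' i with h1 | h1
    · have := h1.2
      rw [eb, eg] at this
      simp only at this
      linarith
    · rcases h i with h2 | h2
      · have e1 := h1.1
        have e2 := h2.1
        simp only at e1 e2
        rw [e1] at e2
        exact absurd e2 (by decide)
      · have := h2.2
        rw [ea, eg] at this
        simp only at this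
        linarith
  have hG1 : ∀ y t t', (y, t) ∈ G → (y, t') ∈ G → t = t' := by
    intro y t t' h h'
    refine hfsep t t' fun m => ?_
    exact le_antisymm (not_lt.1 (hG1' y t' t h' h m)) (not_lt.1 (hG1' y t t' h h' m))
  have hGt : ∀ t, ∃ y, (y, t) ∈ G := by
    intro t
    obtain ⟨y, hy⟩ := exists_comp (fun i => φ i t)
    exact ⟨y, hφG t y hy⟩
  let Z : Set (ℕ → Bool) := Prod.fst '' G
  have hZc : IsClosed Z := (hG.isCompact.image continuous_fst).isClosed
  have hZne : Z.Nonempty := by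
    obtain ⟨t⟩ := hK
    obtain ⟨y, hy⟩ := hGt t
    exact ⟨y, ⟨(y, t), hy, rfl⟩⟩
  obtain ⟨r, hr1, hr2, hr3⟩ := PiNat.exists_retraction_of_isClosed hZc hZne
  have hpt : ∀ z : Z, ∃ t, ((z : ℕ → Bool), t) ∈ G := by
    rintro ⟨z, ⟨⟨z', t⟩, h, rfl⟩⟩
    exact ⟨t, h⟩
  choose pt hpt using hpt
  have hrZ : ∀ y, r y ∈ Z := fun y => hr2 ▸ mem_range_self y
  have hcont : Continuous pt := by
    let π : G → Z := fun p => ⟨p.1.1, ⟨p.1, p.2, rfl⟩⟩
    have hπc : Continuous π := by
      refine Continuous.subtype_mk ?_ _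
      exact continuous_fst.comp continuous_subtype_val
    have hπs : Surjective π := by
      rintro ⟨z, ⟨p, h, rfl⟩⟩
      exact ⟨⟨p, h⟩, rfl⟩
    have : CompactSpace G := isCompact_iff_compactSpace.1 hG.isCompact
    have hq := Topology.IsQuotientMap.of_surjective_continuous hπs hπc
    rw [hq.continuous_iff]
    have : (pt ∘ π) = fun p : G => p.1.2 := by
      funext p
      exact hG1 p.1.1 _ _ (hpt (π p)) p.2
    rw [this]
    exact continuous_snd.comp continuous_subtype_val
  let ρ : C(ℕ → Bool, K) := ⟨fun y => pt ⟨r y, hrZ y⟩, hcont.comp (hr3.subtype_mk hrZ)⟩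
  have hρ : ∀ y t, (y, t) ∈ G → ρ y = t := by
    intro y t hyt
    have hyZ : y ∈ Z := ⟨(y, t), hyt, rfl⟩
    have e : (⟨r y, hrZ y⟩ : Z) = ⟨y, hyZ⟩ := Subtype.ext (hr1 y hyZ)
    show pt ⟨r y, hrZ y⟩ = t
    rw [e]
    exact hG1 y _ _ (hpt ⟨y, hyZ⟩) hyt
  refine ⟨ContinuousMap.compCLM ℝ ℝ ρ, β, fun h => (PU_comp ρ).norm_le h, hβn, fun h => ?_⟩
  ext t
  refine hβ _ t _ fun y hy => ?_
  show h (ρ y) = h t
  rw [hρ y t (hφG t y hy)]

/-- `C(K)` is isometric to a one-complemented subspace of `C([0,1])`. -/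
theorem exists_compl (K : Type*) [TopologicalSpace K] [CompactSpace K]
    [TopologicalSpace.MetrizableSpace K] [Nonempty K] :
    ∃ (i : C(K, ℝ) →ₗᵢ[ℝ] C(unitInterval, ℝ)) (r : C(unitInterval, ℝ) →L[ℝ] C(K, ℝ)),
      (∀ h, ‖r h‖ ≤ ‖h‖) ∧ ∀ f, r (i f) = f := by
  obtain ⟨α, β, hα, hβ, hβα⟩ := milutin K
  obtain ⟨R, E, hR, hE, hRE⟩ := exists_RE
  have h1 : ∀ f, β (R (E (α f))) = f := fun f => by rw [hRE, hβα]
  refine ⟨⟨((E.comp α : C(K, ℝ) →L[ℝ] C(unitInterval, ℝ)) : C(K, ℝ) →ₗ[ℝ] C(unitInterval, ℝ)),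
    fun f => ?_⟩, β.comp R, fun h => (hβ _).trans (hR.norm_le h), h1⟩
  refine le_antisymm ((hE.norm_le _).trans (hα f)) ?_
  have : ‖β (R (E (α f)))‖ ≤ ‖E (α f)‖ := (hβ _).trans (hR.norm_le _)
  rw [h1] at this
  exact this

end Run7.h491.Mil
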