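import Pool.Agent.Run7.h491.Bad
import Pool.Agent.Run7.h491.Mil

/-!
The good and the bad isometric copies in `C([0,1])`.
-/

set_option autoImplicit false

noncomputable section

open Filter Topology Set

namespace Run7.h491

universe u v w

section
variable {V W U : Type*} [NormedAddCommGroup V] [NormedSpace ℝ V] [NormedAddCommGroup W]
  [NormedSpace ℝ W] [NormedAddCommGroup U] [NormedSpace ℝ U]

theorem clm_zero_or (T : V →L[ℝ] W) : (∀ y, T y = 0) ∨ 0 < ‖T‖ := by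
  rcases eq_or_ne T 0 with rfl | hT
  · exact Or.inl fun y => rfl
  · exact Or.inr (norm_pos_iff.2 hT)

theorem clm_zero_norm_le (T : V →L[ℝ] W) : ‖(0 : U →L[ℝ] W)‖ ≤ ‖T‖ := by
  rw [norm_zero]
  exact norm_nonneg _

theorem clm_smul_norm (c : ℝ) (hc : 0 ≤ c) (T : V →L[ℝ] W) (hT : ‖T‖ ≤ 1) : ‖c • T‖ ≤ c := by
  rw [norm_smul, Real.norm_of_nonneg hc]
  exact mul_le_of_le_one_right hc hT

theorem clm_comp_norm (S : W →L[ℝ] U) (T : V →L[ℝ] W) (hT : ‖T‖ ≤ 1) : ‖S.comp T‖ ≤ ‖S‖ :=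
  (S.opNorm_comp_le T).trans (mul_le_of_le_one_right (norm_nonneg _) hT)

theorem clm_norm_le_one (T : V →L[ℝ] W) (h : ∀ y, ‖T y‖ ≤ ‖y‖) : ‖T‖ ≤ 1 :=
  ContinuousLinearMap.opNorm_le_bound _ zero_le_one fun y => by rw [one_mul]; exact h y

end

/-- Every operator into a `C(K)` factors through the canonical embedding, with the same norm. -/
theorem exists_can_ext (X : Type u) [NormedAddCommGroup X] [NormedSpace ℝ X] (K : Type v)
    [TopologicalSpace K] [CompactSpace K] (T : X →L[ℝ] C(K, ℝ)) :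
    ∃ T' : C(DB X, ℝ) →L[ℝ] C(K, ℝ), (∀ y, T' (can X y) = T y) ∧ ‖T'‖ ≤ ‖T‖ := by
  classical
  rcases clm_zero_or T with hT | hn
  · refine ⟨(0 : C(DB X, ℝ) →L[ℝ] C(K, ℝ)), fun y => ?_, ?_⟩
    · rw [hT]; rfl
    · exact clm_zero_norm_le T
  -- the point of the dual ball which corresponds to a point of `K`
  let u : K → StrongDual ℝ X := fun k => ‖T‖⁻¹ • ((ContinuousMap.evalCLM ℝ k).comp T)
  have hu : ∀ k y, u k y = ‖T‖⁻¹ * T y k := fun k y => rfl
  have hu1 : ∀ k, ‖u k‖ ≤ 1 := by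
    intro k
    refine ContinuousLinearMap.opNorm_le_bound _ zero_le_one fun y => ?_
    rw [hu, norm_mul, norm_inv, Real.norm_of_nonneg hn.le, inv_mul_le_iff₀ hn, one_mul]
    exact ((T y).norm_coe_le_norm k).trans (T.le_opNorm y)
  have hc : Continuous fun k => DB.mk (u k) (hu1 k) := by
    refine Continuous.subtype_mk ?_ _
    refine WeakDual.continuous_of_continuous_eval fun y => ?_
    show Continuous fun k => ‖T‖⁻¹ * T y k
    exact continuous_const.mul (T y).continuous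
  let φ : C(K, DB X) := ⟨fun k => DB.mk (u k) (hu1 k), hc⟩
  let P : C(DB X, ℝ) →L[ℝ] C(K, ℝ) := ContinuousMap.compCLM ℝ ℝ φ
  have hP : ‖P‖ ≤ 1 := clm_norm_le_one P fun h =>
    (ContinuousMap.norm_le _ (norm_nonneg _)).2 fun k => h.norm_coe_le_norm (φ k)
  refine ⟨‖T‖ • P, fun y => ?_, clm_smul_norm _ hn.le P hP⟩
  ext k
  show ‖T‖ * (‖T‖⁻¹ * T y k) = T y k
  rw [← mul_assoc, mul_inv_cancel₀ hn.ne', one_mul]

theorem DB_metrizable (X : Type u) [NormedAddCommGroup X] [NormedSpace ℝ X]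
    [TopologicalSpace.SeparableSpace X] : TopologicalSpace.MetrizableSpace (DB X) :=
  WeakDual.metrizable_of_isCompact ℝ X _ (WeakDual.isCompact_closedBall 0 1)

/-- The good copy: every separable normed space has an isometric embedding `J` into `C([0,1])` such
that the canonical embedding is `r ∘ J` with a contraction `r`. -/
theorem exists_good (X : Type u) [NormedAddCommGroup X] [NormedSpace ℝ X]
    [TopologicalSpace.SeparableSpace X] :
    ∃ (J : X →ₗᵢ[ℝ] C(unitInterval, ℝ)) (r : C(unitInterval, ℝ) →L[ℝ] C(DB X, ℝ)),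
      (∀ h, ‖r h‖ ≤ ‖h‖) ∧ ∀ y, r (J y) = can X y := by
  have := DB_metrizable X
  obtain ⟨i, r, hr, hri⟩ := Mil.exists_compl (DB X)
  exact ⟨i.comp (can X), r, hr, fun y => hri (can X y)⟩

/-- The extension property of the range of an embedding. -/
theorem ext_of_good (X : Type u) [NormedAddCommGroup X] [NormedSpace ℝ X]
    {Y : Type w} [NormedAddCommGroup Y] [NormedSpace ℝ Y]
    (J : X →ₗᵢ[ℝ] Y) (r : Y →L[ℝ] C(DB X, ℝ))
    (hr : ∀ h, ‖r h‖ ≤ ‖h‖) (hJ : ∀ y, r (J y) = can X y)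
    (K : Type v) [TopologicalSpace K] [CompactSpace K]
    (T : LinearMap.range J.toLinearMap →L[ℝ] C(K, ℝ)) :
    ∃ T' : Y →L[ℝ] C(K, ℝ),
      (∀ e : LinearMap.range J.toLinearMap, T' e = T e) ∧ ‖T'‖ ≤ ‖T‖ := by
  let J' : X →L[ℝ] LinearMap.range J.toLinearMap :=
    (LinearMap.rangeRestrict J.toLinearMap).mkContinuous 1 (fun y => by
      rw [one_mul]
      exact (J.norm_map y).le)
  have hJ' : ‖J'‖ ≤ 1 := LinearMap.mkContinuous_norm_le _ zero_le_one _
  obtain ⟨S, hS1, hS2⟩ := exists_can_ext X K (T.comp J')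
  refine ⟨S.comp r, ?_, ?_⟩
  · rintro ⟨_, ⟨y, rfl⟩⟩
    show S (r (J y)) = _
    rw [hJ, hS1]
    rfl
  · exact (clm_comp_norm S r (clm_norm_le_one r hr)).trans (hS2.trans (clm_comp_norm T J' hJ'))

/-- The bad copy: an isometric embedding `J₂` into `C([0,1])` through which a given good one does
not factor. -/
theorem exists_bad' (X : Type u) [NormedAddCommGroup X] [NormedSpace ℝ X]
    [TopologicalSpace.SeparableSpace X] (hX : ¬ FiniteDimensional ℝ X)
    (Z : Type v) [NormedAddCommGroup Z] [NormedSpace ℝ Z] [UniformConvexSpace Z]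
    (e : X ≃L[ℝ] Z) (J : X →ₗᵢ[ℝ] C(unitInterval, ℝ))
    (r : C(unitInterval, ℝ) →L[ℝ] C(DB X, ℝ)) (hJ : ∀ y, r (J y) = can X y) :
    ∃ J₂ : X →ₗᵢ[ℝ] C(unitInterval, ℝ),
      ∀ S : C(unitInterval, ℝ) →L[ℝ] C(unitInterval, ℝ), ¬ ∀ y, S (J₂ y) = J y := by
  obtain ⟨L, _, _, _, _, j, hj⟩ := exists_bad X hX Z e
  obtain ⟨i, _, _, _⟩ := Mil.exists_compl L
  refine ⟨i.comp j, fun S hS => ?_⟩
  refine hj ((r.comp S).comp i.toContinuousLinearMap) fun y => ?_
  show r (S (i (j y))) = can X y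
  rw [← hJ y, ← hS y]
  rfl

end Run7.h491
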