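import Mathlib

/-!
Prediction along the branches of the tree of finite sequences.  A node is a list of natural
numbers, the most recent choice first.
-/

set_option autoImplicit false

namespace Run7.h491

/-- total error of the predictor `ζ` for `a` along the path `s` (most recent choice first) -/
def err (ζ a : List ℕ → ℝ) : List ℕ → ℝ
  | [] => 0
  | n :: t => err ζ a t + |ζ t - a (n :: t)|

theorem err_nonneg (ζ a : List ℕ → ℝ) : ∀ s, 0 ≤ err ζ a s
  | [] => le_refl _
  | n :: t => add_nonneg (err_nonneg ζ a t) (abs_nonneg _)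

/-- The predictor follows the heavy child. -/
theorem exists_pred (a g : List ℕ → ℝ) (κ : ℝ) (hκ1 : κ < 1)
    (h1 : ∀ t, |a t| ≤ g t) (h2 : ∀ n t, g (n :: t) ≤ g t)
    (h3 : ∀ t n m, κ * g t < g (n :: t) → κ * g t < g (m :: t) → n = m) :
    ∃ ζ : List ℕ → ℝ, (∀ t, |ζ t| ≤ g t) ∧
      ∀ s, err ζ a s + 2 / (1 - κ) * g s ≤ 2 / (1 - κ) * g [] := by
  classical
  have hg : ∀ t, 0 ≤ g t := fun t => (abs_nonneg _).trans (h1 t)
  let ζ : List ℕ → ℝ := fun t =>
    if h : ∃ n, κ * g t < g (n :: t) then a (h.choose :: t) else 0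
  have hζ : ∀ t, |ζ t| ≤ g t := by
    intro t
    by_cases h : ∃ n, κ * g t < g (n :: t)
    · simp only [ζ, dif_pos h]
      exact (h1 _).trans (h2 _ _)
    · simp only [ζ, dif_neg h, abs_zero]
      exact hg t
  have hD : 0 < 1 - κ := by linarith
  refine ⟨ζ, hζ, fun s => ?_⟩
  induction s with
  | nil => simp [err]
  | cons n t ih =>
    have key : |ζ t - a (n :: t)| + 2 / (1 - κ) * g (n :: t) ≤ 2 / (1 - κ) * g t := by
      by_cases hn : κ * g t < g (n :: t)
      · have hex : ∃ n, κ * g t < g (n :: t) := ⟨n, hn⟩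
        have e : hex.choose = n := h3 t _ _ hex.choose_spec hn
        have e2 : ζ t = a (n :: t) := by
          simp only [ζ, dif_pos hex, e]
        rw [e2, sub_self, abs_zero, zero_add]
        exact mul_le_mul_of_nonneg_left (h2 n t) (by positivity)
      · push Not at hn
        have b1 : |ζ t - a (n :: t)| ≤ 2 * g t := by
          refine (abs_sub _ _).trans ?_
          have := hζ t
          have := (h1 (n :: t)).trans (h2 n t)
          linarith
        have b2 : 2 / (1 - κ) * g (n :: t) ≤ 2 / (1 - κ) * (κ * g t) :=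
          mul_le_mul_of_nonneg_left hn (by positivity)
        have e : 2 * g t + 2 / (1 - κ) * (κ * g t) = 2 / (1 - κ) * g t := by
          field_simp
          ring
        linarith
    simp only [err]
    linarith

end Run7.h491

namespace Run7.h491

theorem suffix_cons_eq {n m : ℕ} {t s : List ℕ} (h : (n :: t) <:+ s) (h' : (m :: t) <:+ s) :
    n = m := by
  have := List.suffix_of_suffix_length_le h h' (by simp)
  have := this.eq_of_length (by simp)
  exact (List.cons.inj this).1

theorem suffix_of_cons {n : ℕ} {t s : List ℕ} (h : (n :: t) <:+ s) : t <:+ s :=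
  (List.suffix_cons n t).trans h

open Classical in
/-- If `∑ |a s| ^ q ≤ M` then there is a predictor with total error at most `C` on every path,
with `C` depending on `q` and `M` only. -/
theorem exists_pred_of_sum (a : List ℕ → ℝ) (q : ℕ) (hq : q ≠ 0) (M : ℝ)
    (hM : ∀ F : Finset (List ℕ), ∑ s ∈ F, |a s| ^ q ≤ M) :
    ∃ ζ : List ℕ → ℝ, (∀ t, |ζ t| ≤ M ^ (1 / (q : ℝ))) ∧
      ∀ s, err ζ a s ≤ 2 / (1 - (1 / 2 : ℝ) ^ (1 / (q : ℝ))) * M ^ (1 / (q : ℝ)) := by
  have hq0 : (0 : ℝ) < q := by exact_mod_cast Nat.pos_of_ne_zero hq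
  have hM0 : 0 ≤ M := by simpa using hM ∅
  have hsum : Summable fun s => |a s| ^ q :=
    summable_of_sum_le (fun s => by positivity) hM
  set w : List ℕ → ℝ := fun s => |a s| ^ q with hw
  have hw0 : ∀ s, 0 ≤ w s := fun s => by positivity
  let m : List ℕ → ℝ := fun t => ∑' s, ({s | t <:+ s} : Set (List ℕ)).indicator w s
  have hsI : ∀ t, Summable (({s | t <:+ s} : Set (List ℕ)).indicator w) := fun t =>
    hsum.indicator _
  have hI0 : ∀ t s, 0 ≤ ({s | t <:+ s} : Set (List ℕ)).indicator w s := fun t s =>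
    Set.indicator_nonneg (fun s _ => hw0 s) s
  have hm0 : ∀ t, 0 ≤ m t := fun t => tsum_nonneg (hI0 t)
  have hmM : m [] ≤ M := by
    refine (hsI []).tsum_le_of_sum_le fun F => ?_
    refine (Finset.sum_le_sum fun s _ => ?_).trans (hM F)
    exact Set.indicator_le_self' (fun s _ => hw0 s) s
  have hmw : ∀ t, w t ≤ m t := by
    intro t
    have := (hsI t).le_tsum t (fun s _ => hI0 t s)
    rwa [Set.indicator_of_mem (by exact List.suffix_refl t)] at this
  have hmm : ∀ n t, m (n :: t) ≤ m t := by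
    intro n t
    refine (hsI _).tsum_le_tsum (fun s => ?_) (hsI _)
    exact Set.indicator_le_indicator_of_subset (fun s hs => suffix_of_cons hs) (fun s => hw0 s) s
  have hdis : ∀ t n k, n ≠ k → m (n :: t) + m (k :: t) ≤ m t := by
    intro t n k hnk
    rw [← (hsI _).tsum_add (hsI _)]
    refine ((hsI _).add (hsI _)).tsum_le_tsum (fun s => ?_) (hsI _)
    by_cases h1 : (n :: t) <:+ s
    · have h2 : ¬ (k :: t) <:+ s := fun h2 => hnk (suffix_cons_eq h1 h2)
      rw [Set.indicator_of_mem (by exact h1), Set.indicator_of_notMem (by exact h2),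
        Set.indicator_of_mem (by exact suffix_of_cons h1), add_zero]
    · rw [Set.indicator_of_notMem (by exact h1), zero_add]
      exact Set.indicator_le_indicator_of_subset (fun s hs => suffix_of_cons hs)
        (fun s => hw0 s) s
  have hinv : (0 : ℝ) < 1 / q := by positivity
  let g : List ℕ → ℝ := fun t => m t ^ (1 / (q : ℝ))
  have hκ1 : (1 / 2 : ℝ) ^ (1 / (q : ℝ)) < 1 :=
    Real.rpow_lt_one (by norm_num) (by norm_num) hinv
  obtain ⟨ζ, hζ, hz⟩ := exists_pred a g ((1 / 2 : ℝ) ^ (1 / (q : ℝ))) hκ1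
    (fun t => by
      have e : |a t| = (w t) ^ (1 / (q : ℝ)) := by
        rw [hw, one_div, Real.pow_rpow_inv_natCast (abs_nonneg _) hq]
      rw [e]
      exact Real.rpow_le_rpow (hw0 t) (hmw t) hinv.le)
    (fun n t => Real.rpow_le_rpow (hm0 _) (hmm n t) hinv.le)
    (fun t n k hn hk => by
      by_contra hnk
      have e : (1 / 2 : ℝ) ^ (1 / (q : ℝ)) * g t = (1 / 2 * m t) ^ (1 / (q : ℝ)) := by
        rw [Real.mul_rpow (by norm_num) (hm0 t)]
      rw [e] at hn hk
      have hn' := (Real.rpow_lt_rpow_iff (by have := hm0 t; positivity) (hm0 _) hinv).1 hn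
      have hk' := (Real.rpow_lt_rpow_iff (by have := hm0 t; positivity) (hm0 _) hinv).1 hk
      have := hdis t n k hnk
      linarith)
  have hgt : ∀ t, g t ≤ M ^ (1 / (q : ℝ)) := by
    have h0 : ∀ t, m t ≤ m [] := by
      intro t
      induction t with
      | nil => exact le_refl _
      | cons n t ih => exact (hmm n t).trans ih
    exact fun t => Real.rpow_le_rpow (hm0 _) ((h0 t).trans hmM) hinv.le
  refine ⟨ζ, fun t => (hζ t).trans (hgt t), fun s => ?_⟩
  have h1 := hz s
  have hD : 0 ≤ 2 / (1 - (1 / 2 : ℝ) ^ (1 / (q : ℝ))) := by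
    have : 0 < 1 - (1 / 2 : ℝ) ^ (1 / (q : ℝ)) := by linarith
    positivity
  have h2 : 0 ≤ 2 / (1 - (1 / 2 : ℝ) ^ (1 / (q : ℝ))) * g s :=
    mul_nonneg hD (Real.rpow_nonneg (hm0 _) _)
  have h3 := mul_le_mul_of_nonneg_left (hgt []) hD
  linarith

end Run7.h491
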