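import Pool.Agent.Run7.h491.Bas
import Pool.Agent.Run7.h491.Pred

/-!
The dual ball, the canonical embedding, and the argument which excludes an extension.
-/

set_option autoImplicit false

noncomputable section

open Filter Topology Set

namespace Run7.h491

/-- the closed unit ball of the dual of `X`, with the weak-star topology -/
abbrev DB (X : Type*) [NormedAddCommGroup X] [NormedSpace ℝ X] : Type _ :=
  ↥(WeakDual.toStrongDual ⁻¹' Metric.closedBall (0 : StrongDual ℝ X) 1 : Set (WeakDual ℝ X))

section
variable {X : Type*} [NormedAddCommGroup X] [NormedSpace ℝ X]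

instance : CompactSpace (DB X) := isCompact_iff_compactSpace.1 (WeakDual.isCompact_closedBall 0 1)

instance : Inhabited (DB X) := ⟨⟨0, by simp⟩⟩

theorem DB.norm_le (k : DB X) : ‖WeakDual.toStrongDual k.1‖ ≤ 1 := by
  have := k.2
  rw [mem_preimage, mem_closedBall_zero_iff] at this
  exact this

/-- a functional of norm at most one as a point of the dual ball -/
def DB.mk (u : StrongDual ℝ X) (hu : ‖u‖ ≤ 1) : DB X :=
  ⟨StrongDual.toWeakDual u, by rw [mem_preimage, mem_closedBall_zero_iff]; exact hu⟩

theorem DB.mk_apply (u : StrongDual ℝ X) (hu : ‖u‖ ≤ 1) (y : X) : (DB.mk u hu).1 y = u y := rfl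

theorem DB.eval_continuous (y : X) : Continuous fun k : DB X => k.1 y :=
  (WeakDual.eval_continuous y).comp continuous_subtype_val

theorem DB.tendsto {f : ℕ → DB X} {k : DB X}
    (h : ∀ y : X, Tendsto (fun n => (f n).1 y) atTop (𝓝 (k.1 y))) : Tendsto f atTop (𝓝 k) := by
  rw [tendsto_subtype_rng, tendsto_iff_forall_eval_tendsto_topDualPairing]
  exact h

theorem DB.abs_le (k : DB X) (y : X) : |k.1 y| ≤ ‖y‖ := by
  rw [← Real.norm_eq_abs]
  have := (WeakDual.toStrongDual k.1).le_opNorm y
  have h2 := mul_le_mul_of_nonneg_right (DB.norm_le k) (norm_nonneg y)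
  rw [one_mul] at h2
  exact this.trans h2

/-- the canonical isometric embedding -/
def can (X : Type*) [NormedAddCommGroup X] [NormedSpace ℝ X] : X →ₗᵢ[ℝ] C(DB X, ℝ) where
  toFun y := ⟨fun k => k.1 y, DB.eval_continuous y⟩
  map_add' y y' := by ext k; exact map_add k.1 y y'
  map_smul' c y := by ext k; exact map_smul k.1 c y
  norm_map' y := by
    refine le_antisymm ?_ ?_
    · refine (ContinuousMap.norm_le _ (norm_nonneg _)).2 fun k => ?_
      rw [Real.norm_eq_abs]
      exact DB.abs_le k y
    · obtain ⟨g, hg1, hg2⟩ := exists_dual_vector'' ℝ y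
      have h := ContinuousMap.norm_coe_le_norm
        (⟨fun k : DB X => k.1 y, DB.eval_continuous y⟩ : C(DB X, ℝ)) (DB.mk g hg1)
      have e : (⟨fun k : DB X => k.1 y, DB.eval_continuous y⟩ : C(DB X, ℝ)) (DB.mk g hg1) = ‖y‖ :=
        hg2
      rw [e, norm_norm] at h
      exact h

@[simp] theorem can_apply (y : X) (k : DB X) : can X y k = k.1 y := rfl

end

/-- continuity of the error -/
theorem err_continuous {K : Type*} [TopologicalSpace K] (ζ a : List ℕ → K → ℝ)
    (hζ : ∀ t, Continuous (ζ t)) (ha : ∀ t, Continuous (a t)) :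
    ∀ s, Continuous fun k => err (fun t => ζ t k) (fun t => a t k) s
  | [] => continuous_const
  | n :: t => (err_continuous ζ a hζ ha t).add ((hζ t).sub (ha (n :: t))).abs

/-- an operator maps a family of small error to a family of small error -/
theorem exists_comb {L K : Type*} [TopologicalSpace L] [CompactSpace L] [TopologicalSpace K]
    [CompactSpace K] (S : C(L, ℝ) →L[ℝ] C(K, ℝ)) (z a : List ℕ → C(L, ℝ)) (k : K) :
    ∀ s, ∃ G : C(L, ℝ), (∀ p, |G p| ≤ err (fun t => z t p) (fun t => a t p) s) ∧
      S G k = err (fun t => S (z t) k) (fun t => S (a t) k) s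
  | [] => ⟨0, fun p => by simp [err], by simp [err]⟩
  | n :: t => by
    obtain ⟨G, h1, h2⟩ := exists_comb S z a k t
    rcases abs_cases (S (z t) k - S (a (n :: t)) k) with ⟨h, _⟩ | ⟨h, _⟩
    · refine ⟨G + (z t - a (n :: t)), fun p => ?_, ?_⟩
      · simp only [err, ContinuousMap.add_apply, ContinuousMap.sub_apply]
        exact (abs_add_le _ _).trans (add_le_add (h1 p) le_rfl)
      · simp only [err, map_add, map_sub, ContinuousMap.add_apply, ContinuousMap.sub_apply, h2, h]
    · refine ⟨G - (z t - a (n :: t)), fun p => ?_, ?_⟩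
      · simp only [err, ContinuousMap.sub_apply]
        exact (abs_sub _ _).trans (add_le_add (h1 p) le_rfl)
      · simp only [err, map_sub, ContinuousMap.sub_apply, h2, h]
        ring

theorem err_image_le {L K : Type*} [TopologicalSpace L] [CompactSpace L] [TopologicalSpace K]
    [CompactSpace K] (S : C(L, ℝ) →L[ℝ] C(K, ℝ)) (z a : List ℕ → C(L, ℝ)) (C : ℝ) (hC : 0 ≤ C)
    (s : List ℕ) (h : ∀ p, err (fun t => z t p) (fun t => a t p) s ≤ C) (k : K) :
    err (fun t => S (z t) k) (fun t => S (a t) k) s ≤ ‖S‖ * C := by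
  obtain ⟨G, h1, h2⟩ := exists_comb S z a k s
  rw [← h2]
  refine (le_abs_self _).trans ?_
  rw [← Real.norm_eq_abs]
  refine ((S G).norm_coe_le_norm k).trans ((S.le_opNorm G).trans ?_)
  refine mul_le_mul_of_nonneg_left ?_ (norm_nonneg _)
  exact (ContinuousMap.norm_le _ hC).2 fun p => (h1 p).trans (h p)

theorem tendsto_encode (s : List ℕ) :
    Tendsto (fun n => Encodable.encode (n :: s)) atTop atTop := by
  have hinj : Function.Injective fun n => Encodable.encode (n :: s) := by
    intro n m h
    have := Encodable.encode_injective h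
    exact (List.cons.inj this).1
  have := hinj.tendsto_cofinite
  rwa [Nat.cofinite_eq_atTop] at this

/-- The main argument: there is no operator `S` with `S ∘ a = can` on the tree of the vectors
`x`, if the functions `a (x s)` are predictable in `C(L)`. -/
theorem no_operator {X : Type*} [NormedAddCommGroup X] [NormedSpace ℝ X]
    (x : ℕ → X) (f : ℕ → StrongDual ℝ X) (hf1 : ∀ n, f n (x n) = 1)
    (hf2 : ∀ n m, n ≠ m → f n (x m) = 0)
    (hf0 : ∀ y, Tendsto (fun n => f n y) atTop (𝓝 0))
    (N : StrongDual ℝ X → ℝ) (B : ℝ) (hB : 0 < B) (hN0 : N 0 = 0) (hN : ∀ u, ‖u‖ ≤ B * N u)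
    (hN2 : ∀ η : ℝ, 0 < η → ∃ R : ℝ, 0 < R ∧ ∀ u : StrongDual ℝ X, ∃ n₀, ∀ n ≥ n₀,
      N (u + f n) ≤ max (N u) R + η ∧ N (u - f n) ≤ max (N u) R + η)
    {L : Type*} [TopologicalSpace L] [CompactSpace L] (S : C(L, ℝ) →L[ℝ] C(DB X, ℝ))
    (z a : List ℕ → C(L, ℝ)) (hS : ∀ s, S (a s) = can X (x (Encodable.encode s)))
    (C : ℝ) (hC : 0 ≤ C)
    (h : ∀ s, ∀ p, err (fun t => z t p) (fun t => a t p) s ≤ C) : False := by
  classical
  set M := ‖S‖ * C with hM
  have hM0 : 0 ≤ M := by positivity
  have hb0 : ∀ s k, err (fun t => S (z t) k) (fun t => k.1 (x (Encodable.encode t))) s ≤ M := by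
    intro s k
    have := err_image_le S z a C hC s (h s) k
    simp only [hS, can_apply] at this
    exact this
  -- choice of the parameters
  set η : ℝ := 1 / (4 * B * (M + 1)) with hη
  have hη0 : 0 < η := by positivity
  obtain ⟨R, hR0, hR⟩ := hN2 η hη0
  obtain ⟨n₁, hn₁⟩ := exists_nat_ge (R / η)
  have hn₁' : R ≤ n₁ * η := by rwa [div_le_iff₀ hη0] at hn₁
  have hn₁0 : (0 : ℝ) < n₁ := by
    by_contra hcon
    push Not at hcon
    nlinarith
  set b : ℝ := 1 / (B * (R + n₁ * η)) with hb
  have hbpos : 0 < b := by positivity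
  have hbB : ∀ t : ℝ, t ≤ R + n₁ * η → b * (B * t) ≤ 1 := by
    intro t ht
    rw [hb, one_div, inv_mul_le_iff₀ (by positivity), mul_one]
    exact mul_le_mul_of_nonneg_left ht hB.le
  -- the induction
  have key : ∀ j : ℕ, j ≤ n₁ → ∃ (s : List ℕ) (u : StrongDual ℝ X) (k : DB X),
      (∀ y, k.1 y = b * u y) ∧ N u ≤ R + j * η ∧ (∃ m₀, ∀ m ≥ m₀, u (x m) = 0) ∧
      j * (b / 2) ≤ err (fun t => S (z t) k) (fun t => k.1 (x (Encodable.encode t))) s := by
    intro j
    induction j with
    | zero =>
      intro _
      refine ⟨[], 0, DB.mk 0 (by simp), fun y => ?_, ?_, ⟨0, fun m _ => ?_⟩, ?_⟩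
      · rw [DB.mk_apply]; simp
      · rw [hN0]
        simp only [Nat.cast_zero, zero_mul, add_zero]
        exact hR0.le
      · simp
      · simp [err]
    | succ j ih =>
      intro hj
      obtain ⟨s, u, k, hk, hNu, ⟨m₀, hm₀⟩, herr⟩ := ih (by omega)
      -- the sign
      obtain ⟨ε, hε, hεb⟩ : ∃ ε : ℝ, (ε = 1 ∨ ε = -1) ∧ b ≤ |S (z s) k - b * ε| := by
        by_cases hc : 0 ≤ S (z s) k
        · refine ⟨-1, Or.inr rfl, ?_⟩
          rw [le_abs]
          left
          linarith
        · refine ⟨1, Or.inl rfl, ?_⟩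
          push Not at hc
          rw [le_abs]
          right
          linarith
      obtain ⟨n₂, hn₂⟩ := hR u
      let e : ℕ → ℕ := fun n => Encodable.encode (n :: s)
      have he : Tendsto e atTop atTop := tendsto_encode s
      let un : ℕ → StrongDual ℝ X := fun n => u + ε • f (e n)
      have hNun : ∀ᶠ n in atTop, N (un n) ≤ R + (j + 1 : ℕ) * η := by
        filter_upwards [he.eventually_ge_atTop n₂] with n hn
        have h1 := hn₂ (e n) hn
        have h2 : max (N u) R ≤ R + j * η := max_le hNu (by
          have : (0 : ℝ) ≤ j * η := by positivity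
          linarith)
        push_cast
        rcases hε with rfl | rfl
        · simp only [un, one_smul]
          linarith [h1.1]
        · have e1 : un n = u - f (e n) := by
            ext y
            show u y + (-1) * f (e n) y = u y - f (e n) y
            ring
          rw [e1]
          linarith [h1.2]
      have hnorm : ∀ n, N (un n) ≤ R + (j + 1 : ℕ) * η → ‖b • un n‖ ≤ 1 := by
        intro n hn
        rw [norm_smul, Real.norm_of_nonneg hbpos.le]
        refine (mul_le_mul_of_nonneg_left (hN _) hbpos.le).trans (hbB _ (hn.trans ?_))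
        have : ((j + 1 : ℕ) : ℝ) ≤ n₁ := by exact_mod_cast hj
        nlinarith
      let kn : ℕ → DB X := fun n => if hn : ‖b • un n‖ ≤ 1 then DB.mk (b • un n) hn else k
      have hkn : ∀ᶠ n in atTop, ∀ y, (kn n).1 y = b * un n y := by
        filter_upwards [hNun] with n hn y
        simp only [kn, dif_pos (hnorm n hn)]
        rfl
      have hkt : Tendsto kn atTop (𝓝 k) := by
        refine DB.tendsto fun y => ?_
        have h1 : Tendsto (fun n => b * un n y) atTop (𝓝 (k.1 y)) := by
          rw [hk y]
          have h2 : Tendsto (fun n => f (e n) y) atTop (𝓝 0) := (hf0 y).comp he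
          have h3 : Tendsto (fun n => b * (u y + ε * f (e n) y)) atTop (𝓝 (b * (u y + ε * 0))) :=
            (tendsto_const_nhds.add (h2.const_mul ε)).const_mul b
          rw [mul_zero, add_zero] at h3
          exact h3
        refine h1.congr' ?_
        filter_upwards [hkn] with n hn
        exact (hn y).symm
      -- continuity
      have hc1 : Continuous fun k : DB X =>
          err (fun t => S (z t) k) (fun t => k.1 (x (Encodable.encode t))) s :=
        err_continuous (fun t k => S (z t) k) (fun t k => k.1 (x (Encodable.encode t)))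
          (fun t => (S (z t)).continuous) (fun t => DB.eval_continuous _) s
      have hc2 : Continuous fun k : DB X => S (z s) k := (S (z s)).continuous
      have ht1 := (hc1.tendsto k).comp hkt
      have ht2 := (hc2.tendsto k).comp hkt
      have hev1 := ht1.eventually (lt_mem_nhds (show
        err (fun t => S (z t) k) (fun t => k.1 (x (Encodable.encode t))) s - b / 4 <
        err (fun t => S (z t) k) (fun t => k.1 (x (Encodable.encode t))) s by linarith))
      have hev2 := ht2.eventually (Metric.ball_mem_nhds (S (z s) k) (show 0 < b / 4 by positivity))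
      obtain ⟨n, hn1, hn2, hn3, hn4, hn5⟩ := (hNun.and (hkn.and (hev1.and (hev2.and
        (he.eventually_ge_atTop m₀))))).exists
      refine ⟨n :: s, un n, kn n, hn2, hn1, ?_, ?_⟩
      · refine ⟨max m₀ (e n + 1), fun m hm => ?_⟩
        show u (x m) + ε * f (e n) (x m) = 0
        rw [hm₀ m ((le_max_left _ _).trans hm), hf2 (e n) m (by
          have := (le_max_right m₀ (e n + 1)).trans hm
          omega), mul_zero, add_zero]
      · simp only [Function.comp_apply] at hn3 hn4
        simp only [err]
        have hval : (kn n).1 (x (Encodable.encode (n :: s))) = b * ε := by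
          rw [hn2]
          show b * (u (x (e n)) + ε * f (e n) (x (e n))) = b * ε
          rw [hm₀ _ hn5, hf1, mul_one, zero_add]
        rw [hval]
        have h4 : |S (z s) (kn n) - S (z s) k| < b / 4 := by
          rw [← Real.dist_eq]
          exact hn4
        have h5 : |S (z s) k - b * ε| ≤ |S (z s) (kn n) - b * ε| + |S (z s) (kn n) - S (z s) k| := by
          have e1 : S (z s) k - b * ε = (S (z s) (kn n) - b * ε) - (S (z s) (kn n) - S (z s) k) := by
            ring
          rw [e1]
          exact abs_sub _ _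
        push_cast
        linarith
  obtain ⟨s, u, k, _, _, _, herr⟩ := key n₁ le_rfl
  have h1 := herr.trans (hb0 s k)
  -- contradiction
  have h2 : b ≥ 1 / (B * (2 * (n₁ * η))) := by
    rw [hb]
    refine one_div_le_one_div_of_le (by positivity) ?_
    refine mul_le_mul_of_nonneg_left ?_ hB.le
    linarith
  have h3 : (n₁ : ℝ) * (1 / (B * (2 * (n₁ * η))) / 2) ≤ M := by
    refine le_trans ?_ h1
    refine mul_le_mul_of_nonneg_left ?_ hn₁0.le
    linarith
  have h4 : (n₁ : ℝ) * (1 / (B * (2 * (n₁ * η))) / 2) = M + 1 := by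
    rw [hη]
    field_simp
    ring
  linarith

end Run7.h491
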