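import Mathlib

/-!
# Every nontrivial mixing system has a bounded over-recurrent function

`f = sum_j (7/8)^j 1_{E_j}` where `E_j` is the set of points whose hitting time of a tiny set is at
most its median.  `E_j` is almost invariant, so that its autocorrelation is nearly `1/4` up to a
time `M_j` after which the correlations of the earlier terms are negligible, and its
cross-correlations with the earlier terms are uniformly small.  The negative part of the
autocorrelation of `E_{k-1}` is compensated by the terms `j ≥ k`.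
-/

set_option autoImplicit false
set_option linter.unusedSectionVars false

open MeasureTheory Filter Topology

namespace Run7.h491.OverRec

variable {X : Type} [MeasurableSpace X]

/-- mixing, real valued -/
def Mix (μ : Measure X) (T : X → X) : Prop := ∀ A B : Set X, MeasurableSet A → MeasurableSet B →
  Tendsto (fun n : ℕ => μ.real (A ∩ T^[n] ⁻¹' B)) atTop (𝓝 (μ.real A * μ.real B))

lemma mix_of {μ : Measure X} [IsProbabilityMeasure μ] {T : X → X}
    (h : ∀ A B : Set X, MeasurableSet A → MeasurableSet B →
        Tendsto (fun n : ℕ => μ (A ∩ T^[n] ⁻¹' B)) atTop (𝓝 (μ A * μ B))) : Mix μ T := by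
  intro A B hA hB
  have h1 := (ENNReal.tendsto_toReal (ENNReal.mul_ne_top (measure_ne_top μ A)
    (measure_ne_top μ B))).comp (h A B hA hB)
  rw [ENNReal.toReal_mul] at h1
  exact h1

variable {μ : Measure X} [IsProbabilityMeasure μ] {T : X → X}

lemma small_set (hmix : Mix μ T) (hT : Measurable T) {A : Set X} (hA : MeasurableSet A)
    (h0 : 0 < μ.real A) (h1 : μ.real A < 1) {δ : ℝ} (hδ : 0 < δ) :
    ∃ B : Set X, MeasurableSet B ∧ 0 < μ.real B ∧ μ.real B ≤ δ := by
  set q := μ.real A with hq
  set θ := (1 + q) / 2 with hθ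
  have hqθ : q < θ := by rw [hθ]; linarith
  have hθ1 : θ < 1 := by rw [hθ]; linarith
  have hθ0 : 0 < θ := by rw [hθ]; linarith
  have key : ∀ k : ℕ, ∃ B : Set X, MeasurableSet B ∧ 0 < μ.real B ∧ μ.real B ≤ θ ^ k := by
    intro k
    induction k with
    | zero => exact ⟨A, hA, h0, by rw [pow_zero]; exact h1.le⟩
    | succ k ih =>
      obtain ⟨B, hB, hB0, hBk⟩ := ih
      have h2 := hmix B A hB hA
      have h3 : 0 < μ.real B * μ.real A := mul_pos hB0 h0
      have h4 : μ.real B * μ.real A < θ * μ.real B := by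
        rw [mul_comm]
        exact mul_lt_mul_of_pos_right hqθ hB0
      obtain ⟨n, hn1, hn2⟩ := ((h2.eventually_const_lt h3).and (h2.eventually_lt_const h4)).exists
      refine ⟨B ∩ T^[n] ⁻¹' A, hB.inter ((hT.iterate n) hA), hn1, hn2.le.trans ?_⟩
      rw [pow_succ, mul_comm]
      exact mul_le_mul_of_nonneg_right hBk hθ0.le
  obtain ⟨k, hk⟩ := exists_pow_lt_of_lt_one hδ hθ1
  obtain ⟨B, hB, hB0, hBk⟩ := key k
  exact ⟨B, hB, hB0, hBk.trans hk.le⟩

/-- hitting before time `m` -/
def hit (T : X → X) (B : Set X) (m : ℕ) : Set X := ⋃ i ∈ Finset.range (m + 1), T^[i] ⁻¹' B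

lemma mem_hit {B : Set X} {m : ℕ} {x : X} : x ∈ hit T B m ↔ ∃ i ≤ m, T^[i] x ∈ B := by
  simp only [hit, Set.mem_iUnion, Finset.mem_range, Set.mem_preimage, exists_prop]
  constructor
  · rintro ⟨i, hi, h⟩; exact ⟨i, Nat.lt_succ_iff.1 hi, h⟩
  · rintro ⟨i, hi, h⟩; exact ⟨i, Nat.lt_succ_iff.2 hi, h⟩

lemma measurable_hit (hT : Measurable T) {B : Set X} (hB : MeasurableSet B) (m : ℕ) :
    MeasurableSet (hit T B m) :=
  Finset.measurableSet_biUnion _ fun i _ => (hT.iterate i) hB

lemma real_preimage (hT : MeasurePreserving T μ μ) {B : Set X} (hB : MeasurableSet B) (i : ℕ) :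
    μ.real (T^[i] ⁻¹' B) = μ.real B := by
  rw [measureReal_def, measureReal_def, (hT.iterate i).measure_preimage hB.nullMeasurableSet]

lemma hit_median (hT : MeasurePreserving T μ μ) (hmix : Mix μ T) {B : Set X}
    (hB : MeasurableSet B) {δ : ℝ} (hδ : δ < 1 / 2) (h0 : 0 < μ.real B) (h1 : μ.real B ≤ δ) :
    ∃ m : ℕ, 1 / 2 ≤ μ.real (hit T B m) ∧ μ.real (hit T B m) ≤ 1 / 2 + δ := by
  classical
  have hTm := hT.measurable
  have hmono : Monotone (hit T B) := by
    intro m m' hm x hx
    rw [mem_hit] at hx ⊢
    obtain ⟨i, hi, h⟩ := hx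
    exact ⟨i, hi.trans hm, h⟩
  -- the union has full measure
  set C : Set X := ⋃ m, hit T B m with hC
  have hCm : MeasurableSet C := MeasurableSet.iUnion fun m => measurable_hit hTm hB m
  have hC1 : μ.real C = 1 := by
    have h2 := hmix Cᶜ B hCm.compl hB
    have h3 : ∀ n : ℕ, μ.real (Cᶜ ∩ T^[n] ⁻¹' B) = 0 := by
      intro n
      have : Cᶜ ∩ T^[n] ⁻¹' B = ∅ := by
        ext x
        simp only [Set.mem_inter_iff, Set.mem_compl_iff, Set.mem_preimage, Set.mem_empty_iff_false,
          iff_false, not_and]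
        intro hx hxn
        apply hx
        rw [hC, Set.mem_iUnion]
        exact ⟨n, mem_hit.2 ⟨n, le_rfl, hxn⟩⟩
      rw [this]; simp
    simp only [h3] at h2
    have h4 := tendsto_nhds_unique h2 tendsto_const_nhds
    have h5 : μ.real Cᶜ = 0 := by
      rcases mul_eq_zero.1 h4 with h | h
      · exact h
      · exact absurd h h0.ne'
    have h6 := prob_compl_eq_one_sub hCm (μ := μ)
    have h7 : μ.real Cᶜ = 1 - μ.real C := probReal_compl_eq_one_sub hCm
    linarith
  have hlim : Tendsto (fun m => μ.real (hit T B m)) atTop (𝓝 1) := by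
    have h2 := tendsto_measure_iUnion_atTop hmono (μ := μ)
    have h3 := (ENNReal.tendsto_toReal (measure_ne_top μ C)).comp h2
    rw [← measureReal_def, hC1] at h3
    exact h3
  have hex : ∃ m : ℕ, 1 / 2 ≤ μ.real (hit T B m) :=
    (hlim.eventually_const_le (show (1 / 2 : ℝ) < 1 by norm_num)).exists
  refine ⟨Nat.find hex, Nat.find_spec hex, ?_⟩
  set m := Nat.find hex with hm
  rcases Nat.eq_zero_or_pos m with h2 | h2
  · have h3 := Nat.find_spec hex
    rw [← hm, h2] at h3
    have h4 : hit T B 0 = B := by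
      ext x; rw [mem_hit]
      constructor
      · rintro ⟨i, hi, h⟩
        rw [Nat.le_zero.1 hi] at h
        exact h
      · intro h; exact ⟨0, le_rfl, h⟩
    rw [h4] at h3
    linarith
  · have h3 : ¬ (1 / 2 ≤ μ.real (hit T B (m - 1))) := Nat.find_min hex (Nat.sub_lt h2 Nat.one_pos)
    have h4 : hit T B m ⊆ hit T B (m - 1) ∪ T^[m] ⁻¹' B := by
      intro x hx
      rw [mem_hit] at hx
      obtain ⟨i, hi, h⟩ := hx
      rcases Nat.lt_or_ge i m with h5 | h5
      · left; exact mem_hit.2 ⟨i, Nat.le_sub_one_of_lt h5, h⟩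
      · right
        have : i = m := le_antisymm hi h5
        subst this
        exact h
    have h5 : μ.real (hit T B m) ≤ μ.real (hit T B (m - 1)) + μ.real (T^[m] ⁻¹' B) :=
      (measureReal_mono h4).trans (measureReal_union_le _ _)
    rw [real_preimage hT hB] at h5
    push Not at h3
    linarith

/-- the indicator function with real values -/
noncomputable def ind (E : Set X) : X → ℝ := E.indicator (fun _ => 1)

lemma ind_nonneg (E : Set X) (x : X) : 0 ≤ ind E x := Set.indicator_nonneg (fun _ _ => zero_le_one) x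

lemma ind_le (E : Set X) (x : X) : ind E x ≤ 1 := by
  by_cases h : x ∈ E <;> simp [ind, h]

lemma abs_ind_le (E : Set X) (x : X) : |ind E x| ≤ 1 := by
  rw [abs_of_nonneg (ind_nonneg E x)]; exact ind_le E x

lemma measurable_ind {E : Set X} (hE : MeasurableSet E) : Measurable (ind E) :=
  measurable_const.indicator hE

lemma integrable_bdd {h : X → ℝ} (hm : Measurable h) {C : ℝ} (hC : ∀ x, |h x| ≤ C) :
    Integrable h μ :=
  Integrable.of_bound hm.aestronglyMeasurable C (Eventually.of_forall hC)

lemma integral_ind {E : Set X} (hE : MeasurableSet E) : ∫ x, ind E x ∂μ = μ.real E := by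
  have h := integral_indicator_one (μ := μ) hE
  exact h

/-- integrals are invariant -/
lemma integral_iter (hT : MeasurePreserving T μ μ) {h : X → ℝ} (hm : Measurable h) (i : ℕ) :
    ∫ x, h (T^[i] x) ∂μ = ∫ x, h x ∂μ := by
  have h1 := (hT.iterate i).map_eq
  conv_rhs => rw [← h1]
  rw [integral_map (hT.iterate i).measurable.aemeasurable hm.aestronglyMeasurable]

lemma almost_inv (hT : MeasurePreserving T μ μ) {B : Set X} (hB : MeasurableSet B) (m i : ℕ) :
    ∫ x, |ind (hit T B m) (T^[i] x) - ind (hit T B m) x| ∂μ ≤ 2 * i * μ.real B := by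
  classical
  have hTm := hT.measurable
  set F : X → ℝ := fun x => ∑ l ∈ Finset.range i, ind B (T^[l] x) +
    ∑ l ∈ Finset.range i, ind B (T^[m + 1 + l] x) with hF
  have hle : ∀ x, |ind (hit T B m) (T^[i] x) - ind (hit T B m) x| ≤ F x := by
    intro x
    have hF0 : 0 ≤ F x := add_nonneg (Finset.sum_nonneg fun l _ => ind_nonneg _ _)
      (Finset.sum_nonneg fun l _ => ind_nonneg _ _)
    by_cases h1 : x ∈ hit T B m <;> by_cases h2 : T^[i] x ∈ hit T B m
    · simp [ind, h1, h2]; exact hF0
    · -- a hit in `[0, i)`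
      obtain ⟨l, hl, hlB⟩ := mem_hit.1 h1
      have hli : l < i := by
        by_contra hc
        push Not at hc
        apply h2
        refine mem_hit.2 ⟨l - i, by omega, ?_⟩
        rw [← Function.iterate_add_apply, Nat.sub_add_cancel hc]
        exact hlB
      have h3 : (1 : ℝ) ≤ ∑ l ∈ Finset.range i, ind B (T^[l] x) := by
        have h4 : ind B (T^[l] x) = 1 := by simp [ind, hlB]
        rw [← h4]
        exact Finset.single_le_sum (f := fun l => ind B (T^[l] x))
          (fun l _ => ind_nonneg _ _) (Finset.mem_range.2 hli)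
      have h5 : 0 ≤ ∑ l ∈ Finset.range i, ind B (T^[m + 1 + l] x) :=
        Finset.sum_nonneg fun l _ => ind_nonneg _ _
      simp only [ind, h1, h2, Set.indicator_of_mem, Set.indicator_of_notMem, not_false_eq_true]
      rw [hF]
      simp only [ind] at h3 h5 ⊢
      norm_num
      linarith
    · obtain ⟨l, hl, hlB⟩ := mem_hit.1 h2
      rw [← Function.iterate_add_apply] at hlB
      have hli : m < l + i := by
        by_contra hc
        push Not at hc
        exact h1 (mem_hit.2 ⟨l + i, hc, hlB⟩)
      obtain ⟨l', hl'⟩ := Nat.exists_eq_add_of_lt hli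
      have hl'i : l' < i := by omega
      have h3 : (1 : ℝ) ≤ ∑ l ∈ Finset.range i, ind B (T^[m + 1 + l] x) := by
        have h4 : ind B (T^[m + 1 + l'] x) = 1 := by
          have : m + 1 + l' = l + i := by omega
          simp [ind, this, hlB]
        rw [← h4]
        exact Finset.single_le_sum (f := fun l => ind B (T^[m + 1 + l] x))
          (fun l _ => ind_nonneg _ _) (Finset.mem_range.2 hl'i)
      have h5 : 0 ≤ ∑ l ∈ Finset.range i, ind B (T^[l] x) :=
        Finset.sum_nonneg fun l _ => ind_nonneg _ _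
      simp only [ind, h1, h2, Set.indicator_of_mem, Set.indicator_of_notMem, not_false_eq_true]
      rw [hF]
      simp only [ind] at h3 h5 ⊢
      norm_num
      linarith
    · simp [ind, h1, h2]; exact hF0
  have hmB : ∀ l, Measurable fun x => ind B (T^[l] x) := fun l =>
    (measurable_ind hB).comp (hTm.iterate l)
  have hiB : ∀ l, Integrable (fun x => ind B (T^[l] x)) μ := fun l =>
    integrable_bdd (hmB l) (C := 1) fun x => abs_ind_le _ _
  have hFi : Integrable F μ :=
    (integrable_finsetSum _ fun l _ => hiB l).add (integrable_finsetSum _ fun l _ => hiB _)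
  have hFint : ∫ x, F x ∂μ = 2 * i * μ.real B := by
    rw [hF, integral_add (integrable_finsetSum _ fun l _ => hiB l)
      (integrable_finsetSum _ fun l _ => hiB _), integral_finsetSum _ fun l _ => hiB l,
      integral_finsetSum _ fun l _ => hiB _]
    simp only [integral_iter hT (measurable_ind hB), integral_ind hB, Finset.sum_const,
      Finset.card_range, nsmul_eq_mul]
    ring
  rw [← hFint]
  refine integral_mono_of_nonneg (Eventually.of_forall fun x => abs_nonneg _) hFi
    (Eventually.of_forall hle)

/-- mixing for simple functions -/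
lemma mix_simple (hT : MeasurePreserving T μ μ) (hmix : Mix μ T) (f g : SimpleFunc X ℝ) :
    Tendsto (fun n : ℕ => ∫ x, f x * g (T^[n] x) ∂μ) atTop (𝓝 ((∫ x, f x ∂μ) * ∫ x, g x ∂μ)) := by
  classical
  have hTm := hT.measurable
  have hint : ∀ (f g : SimpleFunc X ℝ) (n : ℕ), Integrable (fun x => f x * g (T^[n] x)) μ := by
    intro f g n
    obtain ⟨C, hC⟩ := f.exists_forall_norm_le
    obtain ⟨D, hD⟩ := g.exists_forall_norm_le
    refine integrable_bdd (f.measurable.mul (g.measurable.comp (hTm.iterate n))) (C := C * D)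
      fun x => ?_
    rw [abs_mul]
    exact mul_le_mul (hC x) (hD _) (abs_nonneg _) ((norm_nonneg _).trans (hC x))
  have hint1 : ∀ f : SimpleFunc X ℝ, Integrable (fun x => f x) μ := by
    intro f
    obtain ⟨C, hC⟩ := f.exists_forall_norm_le
    exact integrable_bdd f.measurable (C := C) hC
  induction f using SimpleFunc.induction with
  | const c hs =>
    rename_i A
    induction g using SimpleFunc.induction with
    | const d hs' =>
      rename_i B
      have h1 : ∀ n : ℕ, ∫ x, (SimpleFunc.piecewise A hs (SimpleFunc.const X c)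
          (SimpleFunc.const X 0)) x * (SimpleFunc.piecewise B hs' (SimpleFunc.const X d)
          (SimpleFunc.const X 0)) (T^[n] x) ∂μ = c * d * μ.real (A ∩ T^[n] ⁻¹' B) := by
        intro n
        rw [← integral_ind (μ := μ) (hs.inter ((hTm.iterate n) hs')), ← integral_const_mul]
        refine integral_congr_ae (Eventually.of_forall fun x => ?_)
        by_cases h1 : x ∈ A <;> by_cases h2 : T^[n] x ∈ B <;>
          simp [ind, h1, h2, SimpleFunc.piecewise_apply]
      have h2 : ∀ (E : Set X) (hE : MeasurableSet E) (c : ℝ),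
          ∫ x, (SimpleFunc.piecewise E hE (SimpleFunc.const X c)
          (SimpleFunc.const X 0)) x ∂μ = c * μ.real E := by
        intro E hE c
        rw [← integral_ind (μ := μ) hE, ← integral_const_mul]
        refine integral_congr_ae (Eventually.of_forall fun x => ?_)
        by_cases h1 : x ∈ E <;> simp [ind, h1, SimpleFunc.piecewise_apply]
      simp only [h1]
      rw [h2 A hs c, h2 B hs' d]
      have h3 := (hmix A B hs hs').const_mul (c * d)
      convert h3 using 2
      ring
    | add hd ih1 ih2 =>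
      rename_i g1 g2
      have h1 : ∀ (f : SimpleFunc X ℝ) (n : ℕ), ∫ x, f x * (g1 + g2) (T^[n] x) ∂μ =
          (∫ x, f x * g1 (T^[n] x) ∂μ) + ∫ x, f x * g2 (T^[n] x) ∂μ := by
        intro f n
        rw [← integral_add (hint f g1 n) (hint f g2 n)]
        refine integral_congr_ae (Eventually.of_forall fun x => ?_)
        simp only [SimpleFunc.coe_add, Pi.add_apply]
        ring
      have h2 : ∫ x, (g1 + g2) x ∂μ = (∫ x, g1 x ∂μ) + ∫ x, g2 x ∂μ := by
        rw [← integral_add (hint1 g1) (hint1 g2)]
        rfl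
      simp only [h1]
      rw [h2, mul_add]
      exact ih1.add ih2
  | add hd ih1 ih2 =>
    rename_i f1 f2
    have h1 : ∀ n : ℕ, ∫ x, (f1 + f2) x * g (T^[n] x) ∂μ =
        (∫ x, f1 x * g (T^[n] x) ∂μ) + ∫ x, f2 x * g (T^[n] x) ∂μ := by
      intro n
      rw [← integral_add (hint f1 g n) (hint f2 g n)]
      refine integral_congr_ae (Eventually.of_forall fun x => ?_)
      simp only [SimpleFunc.coe_add, Pi.add_apply]
      ring
    have h2 : ∫ x, (f1 + f2) x ∂μ = (∫ x, f1 x ∂μ) + ∫ x, f2 x ∂μ := by
      rw [← integral_add (hint1 f1) (hint1 f2)]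
      rfl
    simp only [h1]
    rw [h2, add_mul]
    exact ih1.add ih2

/-- sparse averages of a bounded function with decaying correlations are small -/
lemma exists_avg (hT : MeasurePreserving T μ μ) {g : X → ℝ} (hg : Measurable g) {C : ℝ}
    (hC : ∀ x, |g x| ≤ C)
    (hdec : Tendsto (fun n : ℕ => ∫ x, g x * g (T^[n] x) ∂μ) atTop (𝓝 0)) {η : ℝ} (hη : 0 < η) :
    ∃ (K s : ℕ), 0 < s ∧ ∫ x, |(∑ t ∈ Finset.range s, g (T^[t * K] x)) / s| ∂μ ≤ 2 * η := by
  have hTm := hT.measurable
  have hC0 : 0 ≤ C := by
    have : Nonempty X := by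
      by_contra h
      rw [not_nonempty_iff] at h
      have h1 : μ Set.univ = 0 := by
        rw [Set.univ_eq_empty_iff.2 h]; simp
      rw [measure_univ] at h1
      exact one_ne_zero h1
    exact (abs_nonneg _).trans (hC this.some)
  -- the spacing
  have h1 : ∀ᶠ n : ℕ in atTop, |∫ x, g x * g (T^[n] x) ∂μ| ≤ η ^ 2 := by
    have h2 := hdec.abs
    rw [abs_zero] at h2
    exact h2.eventually_le_const (by positivity)
  obtain ⟨K, hK⟩ := eventually_atTop.1 h1
  obtain ⟨s, hs⟩ := exists_nat_gt (C ^ 2 / η ^ 2)
  have hs0 : 0 < s := by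
    have h3 : (0 : ℝ) ≤ C ^ 2 / η ^ 2 := by positivity
    have : (0 : ℝ) < s := h3.trans_lt hs
    exact_mod_cast this
  refine ⟨K + 1, s, hs0, ?_⟩
  have hs' : (0 : ℝ) < s := by exact_mod_cast hs0
  set G : ℕ → X → ℝ := fun t x => g (T^[t * (K + 1)] x) with hG
  have hGm : ∀ t, Measurable (G t) := fun t => hg.comp (hTm.iterate _)
  have hGC : ∀ t x, |G t x| ≤ C := fun t x => hC _
  have hcor : ∀ t u : ℕ, ∫ x, G t x * G u x ∂μ ≤ if t = u then C ^ 2 else η ^ 2 := by
    have hlt : ∀ t u : ℕ, t < u → ∫ x, G t x * G u x ∂μ ≤ η ^ 2 := by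
      intro t u htu
      have h3 : ∫ x, G t x * G u x ∂μ = ∫ x, g x * g (T^[(u - t) * (K + 1)] x) ∂μ := by
        rw [← integral_iter hT (h := fun x => g x * g (T^[(u - t) * (K + 1)] x))
          (hg.mul (hg.comp (hTm.iterate _))) (t * (K + 1))]
        refine integral_congr_ae (Eventually.of_forall fun x => ?_)
        simp only [hG]
        rw [← Function.iterate_add_apply, ← add_mul, Nat.sub_add_cancel htu.le]
      rw [h3]
      refine (le_abs_self _).trans (hK _ ?_)
      have h4 : 1 ≤ u - t := by omega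
      calc K ≤ 1 * (K + 1) := by omega
        _ ≤ (u - t) * (K + 1) := Nat.mul_le_mul_right _ h4
    intro t u
    rcases lt_trichotomy t u with h | h | h
    · rw [if_neg h.ne]; exact hlt t u h
    · rw [if_pos h, ← h]
      have h5 : ∫ x, G t x * G t x ∂μ ≤ ∫ _x, C ^ 2 ∂μ := by
        refine integral_mono (integrable_bdd ((hGm t).mul (hGm t)) (C := C * C) fun x => ?_)
          (integrable_const _) fun x => ?_
        · rw [abs_mul]; exact mul_le_mul (hGC t x) (hGC t x) (abs_nonneg _) hC0
        · have := hGC t x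
          show G t x * G t x ≤ C ^ 2
          rw [← sq]
          exact sq_le_sq' (by linarith [(abs_le.1 this).1]) (abs_le.1 this).2
      simpa using h5
    · rw [if_neg h.ne']
      have h5 : ∫ x, G t x * G u x ∂μ = ∫ x, G u x * G t x ∂μ :=
        integral_congr_ae (Eventually.of_forall fun x => mul_comm _ _)
      rw [h5]
      exact hlt u t h
  set A : X → ℝ := fun x => (∑ t ∈ Finset.range s, G t x) / s with hA
  have hAm : Measurable A := (Finset.measurable_sum _ fun t _ => hGm t).div_const _
  have hAC : ∀ x, |A x| ≤ C := by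
    intro x
    rw [hA]
    simp only
    rw [abs_div, abs_of_pos hs', div_le_iff₀ hs']
    refine (Finset.abs_sum_le_sum_abs _ _).trans ?_
    refine (Finset.sum_le_sum fun t _ => hGC t x).trans (le_of_eq ?_)
    rw [Finset.sum_const, Finset.card_range, nsmul_eq_mul]
    ring
  have hsq : ∫ x, A x * A x ∂μ ≤ 2 * η ^ 2 := by
    have h3 : ∀ x, A x * A x = (∑ t ∈ Finset.range s, ∑ u ∈ Finset.range s, G t x * G u x) / s ^ 2 := by
      intro x
      rw [hA]
      simp only
      rw [div_mul_div_comm, Finset.sum_mul_sum, sq]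
    have hi : ∀ t u, Integrable (fun x => G t x * G u x) μ := fun t u =>
      integrable_bdd ((hGm t).mul (hGm u)) (C := C * C) fun x => by
        rw [abs_mul]; exact mul_le_mul (hGC t x) (hGC u x) (abs_nonneg _) hC0
    simp only [h3]
    rw [integral_div, integral_finsetSum _ fun t _ => integrable_finsetSum _ fun u _ => hi t u]
    simp only [integral_finsetSum _ fun u _ => hi _ u]
    rw [div_le_iff₀ (by positivity)]
    calc ∑ t ∈ Finset.range s, ∑ u ∈ Finset.range s, ∫ x, G t x * G u x ∂μ
        ≤ ∑ t ∈ Finset.range s, ∑ u ∈ Finset.range s, ((if t = u then C ^ 2 else 0) + η ^ 2) := by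
          refine Finset.sum_le_sum fun t _ => Finset.sum_le_sum fun u _ => (hcor t u).trans ?_
          by_cases h : t = u
          · simp only [h, if_true]; nlinarith [sq_nonneg η]
          · simp only [h, if_false]; linarith
      _ = s * C ^ 2 + s ^ 2 * η ^ 2 := by
          simp only [Finset.sum_add_distrib, Finset.sum_const, Finset.card_range, nsmul_eq_mul]
          have h4 : ∀ t ∈ Finset.range s, ∑ u ∈ Finset.range s, (if t = u then C ^ 2 else 0)
              = C ^ 2 := by
            intro t ht
            rw [Finset.sum_ite_eq]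
            simp [ht]
          rw [Finset.sum_congr rfl h4, Finset.sum_const, Finset.card_range, nsmul_eq_mul]
          ring
      _ ≤ 2 * η ^ 2 * s ^ 2 := by
          have h5 : C ^ 2 ≤ s * η ^ 2 := by
            have := hs.le
            rwa [div_le_iff₀ (by positivity)] at this
          nlinarith
  have hiA : Integrable (fun x => |A x|) μ :=
    integrable_bdd hAm.abs (C := C) fun x => by rw [abs_abs]; exact hAC x
  have hiA2 : Integrable (fun x => A x * A x) μ :=
    integrable_bdd (hAm.mul hAm) (C := C * C) fun x => by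
      rw [abs_mul]; exact mul_le_mul (hAC x) (hAC x) (abs_nonneg _) hC0
  have hpt : ∀ x, |A x| ≤ (A x * A x) / (2 * η) + η / 2 := by
    intro x
    have h6 : A x * A x = |A x| * |A x| := (abs_mul_abs_self _).symm
    rw [h6, div_add_div _ _ (by positivity) (by norm_num), le_div_iff₀ (by positivity)]
    nlinarith [sq_nonneg (|A x| - η)]
  calc ∫ x, |A x| ∂μ ≤ ∫ x, ((A x * A x) / (2 * η) + η / 2) ∂μ :=
        integral_mono hiA ((hiA2.div_const _).add (integrable_const _)) hpt
    _ = (∫ x, A x * A x ∂μ) / (2 * η) + η / 2 := by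
        rw [integral_add (hiA2.div_const _) (integrable_const _), integral_div]
        simp
    _ ≤ (2 * η ^ 2) / (2 * η) + η / 2 := by
        gcongr
    _ ≤ 2 * η := by
        have : (2 * η ^ 2) / (2 * η) = η := by field_simp
        rw [this]
        linarith

/-- cross correlations with an almost invariant function are uniformly small -/
lemma cross (hT : MeasurePreserving T μ μ) {g e : X → ℝ} (hg : Measurable g) (he : Measurable e)
    {C : ℝ} (hC : ∀ x, |g x| ≤ C) (he1 : ∀ x, |e x| ≤ 1) {K s : ℕ} (hs : 0 < s) {η D : ℝ}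
    (hA : ∫ x, |(∑ t ∈ Finset.range s, g (T^[t * K] x)) / s| ∂μ ≤ η)
    (hD : ∀ t < s, ∫ x, |e (T^[t * K] x) - e x| ∂μ ≤ D) (n : ℕ) :
    |∫ x, g x * e (T^[n] x) ∂μ| ≤ C * D + η ∧ |∫ x, e x * g (T^[n] x) ∂μ| ≤ C * D + η := by
  have hTm := hT.measurable
  have hs' : (0 : ℝ) < s := by exact_mod_cast hs
  have hC0 : 0 ≤ C := by
    have : Nonempty X := by
      by_contra h
      rw [not_nonempty_iff] at h
      have h1 : μ Set.univ = 0 := by
        rw [Set.univ_eq_empty_iff.2 h]; simp
      rw [measure_univ] at h1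
      exact one_ne_zero h1
    exact (abs_nonneg _).trans (hC this.some)
  set A : X → ℝ := fun x => (∑ t ∈ Finset.range s, g (T^[t * K] x)) / s with hAdef
  have hAm : Measurable A :=
    (Finset.measurable_sum _ fun t _ => hg.comp (hTm.iterate _)).div_const _
  have hAC : ∀ x, |A x| ≤ C := by
    intro x
    rw [hAdef]
    simp only
    rw [abs_div, abs_of_pos hs', div_le_iff₀ hs']
    refine (Finset.abs_sum_le_sum_abs _ _).trans ?_
    refine (Finset.sum_le_sum fun t _ => hC _).trans (le_of_eq ?_)
    rw [Finset.sum_const, Finset.card_range, nsmul_eq_mul]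
    ring
  have hde : ∀ t, Measurable fun x => e (T^[t * K] x) - e x := fun t =>
    (he.comp (hTm.iterate _)).sub he
  have hide : ∀ t, Integrable (fun x => |e (T^[t * K] x) - e x|) μ := fun t =>
    integrable_bdd (hde t).abs (C := 2) fun x => by
      rw [abs_abs]
      refine (abs_sub _ _).trans ?_
      linarith [he1 (T^[t * K] x), he1 x]
  -- a general estimate
  have hgen : ∀ (u v : X → ℝ), Measurable u → Measurable v → (∀ x, |u x| ≤ C) → (∀ x, |v x| ≤ 2) →
      |∫ x, u x * v x ∂μ| ≤ C * ∫ x, |v x| ∂μ := by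
    intro u v hu hv huC hv2
    refine (abs_integral_le_integral_abs).trans ?_
    rw [← integral_const_mul]
    refine integral_mono_of_nonneg (Eventually.of_forall fun x => abs_nonneg _) ?_
      (Eventually.of_forall fun x => ?_)
    · exact (integrable_bdd hv.abs (C := 2) fun x => by rw [abs_abs]; exact hv2 x).const_mul _
    · show |u x * v x| ≤ C * |v x|
      rw [abs_mul]
      exact mul_le_mul_of_nonneg_right (huC x) (abs_nonneg _)
  have hde2 : ∀ t x, |e (T^[t * K] x) - e x| ≤ 2 := fun t x => by
    refine (abs_sub _ _).trans ?_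
    linarith [he1 (T^[t * K] x), he1 x]
  have havg : ∀ (I J : ℝ) (c : ℕ → ℝ), (∀ t < s, |I - c t| ≤ C * D) →
      J = (∑ t ∈ Finset.range s, c t) / s → |J| ≤ η → |I| ≤ C * D + η := by
    intro I J c hc hJ hJη
    have h1 : I - J = (∑ t ∈ Finset.range s, (I - c t)) / s := by
      rw [Finset.sum_sub_distrib, Finset.sum_const, Finset.card_range, nsmul_eq_mul, sub_div, ← hJ]
      field_simp
    have h2 : |I - J| ≤ C * D := by
      rw [h1, abs_div, abs_of_pos hs', div_le_iff₀ hs']
      refine (Finset.abs_sum_le_sum_abs _ _).trans ?_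
      refine (Finset.sum_le_sum fun t ht => hc t (Finset.mem_range.1 ht)).trans (le_of_eq ?_)
      rw [Finset.sum_const, Finset.card_range, nsmul_eq_mul]
      ring
    have h3 : I = (I - J) + J := by ring
    rw [h3]
    exact (abs_add_le _ _).trans (add_le_add h2 hJη)
  constructor
  · refine havg _ (∫ x, A x * e (T^[n] x) ∂μ) (fun t => ∫ x, g (T^[t * K] x) * e (T^[n] x) ∂μ)
      ?_ ?_ ?_
    · intro t ht
      have hi1 : Integrable (fun x => g (T^[t * K] x) * e (T^[n] (T^[t * K] x))) μ :=
        integrable_bdd ((hg.comp (hTm.iterate _)).mul (he.comp ((hTm.iterate _).comp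
          (hTm.iterate _)))) (C := C * 1) fun x => by
            rw [abs_mul]; exact mul_le_mul (hC _) (he1 _) (abs_nonneg _) hC0
      have hi2 : Integrable (fun x => g (T^[t * K] x) * e (T^[n] x)) μ :=
        integrable_bdd ((hg.comp (hTm.iterate _)).mul (he.comp (hTm.iterate _))) (C := C * 1)
          fun x => by rw [abs_mul]; exact mul_le_mul (hC _) (he1 _) (abs_nonneg _) hC0
      have h1 : ∫ x, g x * e (T^[n] x) ∂μ = ∫ x, g (T^[t * K] x) * e (T^[n] (T^[t * K] x)) ∂μ :=
        (integral_iter hT (h := fun x => g x * e (T^[n] x)) (hg.mul (he.comp (hTm.iterate _)))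
          (t * K)).symm
      rw [h1, ← integral_sub hi1 hi2]
      have h2 : ∫ x, (g (T^[t * K] x) * e (T^[n] (T^[t * K] x)) - g (T^[t * K] x) * e (T^[n] x)) ∂μ
          = ∫ x, g (T^[t * K] x) * (e (T^[t * K] (T^[n] x)) - e (T^[n] x)) ∂μ := by
        refine integral_congr_ae (Eventually.of_forall fun x => ?_)
        simp only
        rw [← Function.iterate_add_apply T n (t * K), ← Function.iterate_add_apply T (t * K) n,
          add_comm n (t * K)]
        ring
      rw [h2]
      refine (hgen _ _ (hg.comp (hTm.iterate _)) ((hde t).comp (hTm.iterate n)) (fun x => hC _)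
        (fun x => hde2 t _)).trans ?_
      have h3 : ∫ x, |e (T^[t * K] (T^[n] x)) - e (T^[n] x)| ∂μ =
          ∫ x, |e (T^[t * K] x) - e x| ∂μ :=
        integral_iter hT (h := fun x => |e (T^[t * K] x) - e x|) (hde t).abs n
      show C * ∫ x, |e (T^[t * K] (T^[n] x)) - e (T^[n] x)| ∂μ ≤ _
      rw [h3]
      exact mul_le_mul_of_nonneg_left (hD t ht) hC0
    · have h1 : ∀ x, A x * e (T^[n] x) = (∑ t ∈ Finset.range s, g (T^[t * K] x) * e (T^[n] x)) / s := by
        intro x
        rw [hAdef]
        simp only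
        rw [div_mul_eq_mul_div, Finset.sum_mul]
      simp only [h1]
      rw [integral_div, integral_finsetSum]
      intro t _
      exact integrable_bdd ((hg.comp (hTm.iterate _)).mul (he.comp (hTm.iterate _))) (C := C * 1)
          fun x => by rw [abs_mul]; exact mul_le_mul (hC _) (he1 _) (abs_nonneg _) hC0
    · refine (abs_integral_le_integral_abs).trans (le_trans ?_ hA)
      refine integral_mono_of_nonneg (Eventually.of_forall fun x => abs_nonneg _)
        (integrable_bdd hAm.abs (C := C) fun x => by rw [abs_abs]; exact hAC x)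
        (Eventually.of_forall fun x => ?_)
      show |A x * e (T^[n] x)| ≤ |A x|
      rw [abs_mul]
      exact mul_le_of_le_one_right (abs_nonneg _) (he1 _)
  · refine havg _ (∫ x, e x * A (T^[n] x) ∂μ) (fun t => ∫ x, e x * g (T^[t * K] (T^[n] x)) ∂μ)
      ?_ ?_ ?_
    · intro t ht
      have hi1 : Integrable (fun x => e (T^[t * K] x) * g (T^[n] (T^[t * K] x))) μ :=
        integrable_bdd ((he.comp (hTm.iterate _)).mul (hg.comp ((hTm.iterate _).comp
          (hTm.iterate _)))) (C := 1 * C) fun x => by
            rw [abs_mul]; exact mul_le_mul (he1 _) (hC _) (abs_nonneg _) zero_le_one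
      have hi2 : Integrable (fun x => e x * g (T^[t * K] (T^[n] x))) μ :=
        integrable_bdd (he.mul (hg.comp ((hTm.iterate _).comp (hTm.iterate _)))) (C := 1 * C)
          fun x => by rw [abs_mul]; exact mul_le_mul (he1 _) (hC _) (abs_nonneg _) zero_le_one
      have h1 : ∫ x, e x * g (T^[n] x) ∂μ = ∫ x, e (T^[t * K] x) * g (T^[n] (T^[t * K] x)) ∂μ :=
        (integral_iter hT (h := fun x => e x * g (T^[n] x)) (he.mul (hg.comp (hTm.iterate _)))
          (t * K)).symm
      rw [h1, ← integral_sub hi1 hi2]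
      have h2 : ∫ x, (e (T^[t * K] x) * g (T^[n] (T^[t * K] x)) - e x * g (T^[t * K] (T^[n] x))) ∂μ
          = ∫ x, g (T^[t * K] (T^[n] x)) * (e (T^[t * K] x) - e x) ∂μ := by
        refine integral_congr_ae (Eventually.of_forall fun x => ?_)
        simp only
        rw [← Function.iterate_add_apply T n (t * K), ← Function.iterate_add_apply T (t * K) n,
          add_comm n (t * K)]
        ring
      rw [h2]
      refine (hgen _ _ (hg.comp ((hTm.iterate _).comp (hTm.iterate _))) (hde t) (fun x => hC _)
        (fun x => hde2 t _)).trans ?_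
      exact mul_le_mul_of_nonneg_left (hD t ht) hC0
    · have h1 : ∀ x, e x * A (T^[n] x) =
          (∑ t ∈ Finset.range s, e x * g (T^[t * K] (T^[n] x))) / s := by
        intro x
        rw [hAdef]
        simp only
        rw [← Finset.mul_sum, mul_div_assoc]
      simp only [h1]
      rw [integral_div, integral_finsetSum]
      intro t _
      exact integrable_bdd (he.mul (hg.comp ((hTm.iterate _).comp (hTm.iterate _)))) (C := 1 * C)
          fun x => by rw [abs_mul]; exact mul_le_mul (he1 _) (hC _) (abs_nonneg _) zero_le_one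
    · refine (abs_integral_le_integral_abs).trans (le_trans ?_ hA)
      rw [← integral_iter hT (h := fun x => |A x|) hAm.abs n]
      refine integral_mono_of_nonneg (Eventually.of_forall fun x => abs_nonneg _)
        (integrable_bdd ((hAm.comp (hTm.iterate n)).abs) (C := C)
          fun x => by rw [abs_abs]; exact hAC _)
        (Eventually.of_forall fun x => ?_)
      show |e x * A (T^[n] x)| ≤ |A (T^[n] x)|
      rw [abs_mul]
      exact mul_le_of_le_one_left (abs_nonneg _) (he1 _)

end Run7.h491.OverRec
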