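import Pool.Agent.Run7.h491.OverRec

/-!
# Every nontrivial mixing system has a bounded over-recurrent function, part 2
-/

set_option autoImplicit false
set_option linter.unusedSectionVars false

open MeasureTheory Filter Topology

namespace Run7.h491.OverRec

variable {X : Type} [MeasurableSpace X] {μ : Measure X} [IsProbabilityMeasure μ] {T : X → X}

/-- the covariance at lag `n` -/
noncomputable def S (μ : Measure X) (T : X → X) (g : X → ℝ) (n : ℕ) : ℝ :=
  ∫ x, g x * g (T^[n] x) ∂μ - (∫ x, g x ∂μ) ^ 2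

lemma ind_mul_ind (E : Set X) (n : ℕ) (x : X) :
    ind E x * ind E (T^[n] x) = ind (E ∩ T^[n] ⁻¹' E) x := by
  by_cases h1 : x ∈ E <;> by_cases h2 : T^[n] x ∈ E <;> simp [ind, h1, h2]

lemma S_add (hT : MeasurePreserving T μ μ) {g : X → ℝ} (hg : Measurable g) {C : ℝ}
    (hC : ∀ x, |g x| ≤ C) {E : Set X} (hE : MeasurableSet E) (a : ℝ) (n : ℕ) :
    S μ T (fun x => g x + a * ind E x) n = S μ T g n
      + a * ((∫ x, (g x - ∫ y, g y ∂μ) * ind E (T^[n] x) ∂μ)
        + ∫ x, ind E x * (g (T^[n] x) - ∫ y, g y ∂μ) ∂μ)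
      + a ^ 2 * (μ.real (E ∩ T^[n] ⁻¹' E) - μ.real E ^ 2) := by
  have hTm := hT.measurable
  have hTn := hTm.iterate n
  have hC0 : ∀ x : X, 0 ≤ C := fun x => (abs_nonneg _).trans (hC x)
  have hI := measurable_ind hE
  set c := ∫ y, g y ∂μ with hc
  have i1 : Integrable (fun x => g x * g (T^[n] x)) μ :=
    integrable_bdd (hg.mul (hg.comp hTn)) (C := C * C) fun x => by
      rw [abs_mul]; exact mul_le_mul (hC _) (hC _) (abs_nonneg _) (hC0 x)
  have i2 : Integrable (fun x => g x * ind E (T^[n] x)) μ :=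
    integrable_bdd (hg.mul (hI.comp hTn)) (C := C * 1) fun x => by
      rw [abs_mul]; exact mul_le_mul (hC _) (abs_ind_le _ _) (abs_nonneg _) (hC0 x)
  have i3 : Integrable (fun x => ind E x * g (T^[n] x)) μ :=
    integrable_bdd (hI.mul (hg.comp hTn)) (C := 1 * C) fun x => by
      rw [abs_mul]; exact mul_le_mul (abs_ind_le _ _) (hC _) (abs_nonneg _) zero_le_one
  have i4 : Integrable (fun x => ind (E ∩ T^[n] ⁻¹' E) x) μ :=
    integrable_bdd (measurable_ind (hE.inter (hTn hE))) (C := 1) fun x => abs_ind_le _ _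
  have i5 : Integrable (fun x => ind E x) μ := integrable_bdd hI (C := 1) fun x => abs_ind_le _ _
  have i6 : Integrable (fun x => ind E (T^[n] x)) μ :=
    integrable_bdd (hI.comp hTn) (C := 1) fun x => abs_ind_le _ _
  have i7 : Integrable g μ := integrable_bdd hg (C := C) hC
  have e1 : ∫ x, (g x + a * ind E x) * (g (T^[n] x) + a * ind E (T^[n] x)) ∂μ =
      (∫ x, g x * g (T^[n] x) ∂μ) + a * (∫ x, g x * ind E (T^[n] x) ∂μ)
        + a * (∫ x, ind E x * g (T^[n] x) ∂μ) + a ^ 2 * μ.real (E ∩ T^[n] ⁻¹' E) := by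
    have j1 : Integrable (fun x => a * (g x * ind E (T^[n] x))) μ := i2.const_mul a
    have j2 : Integrable (fun x => a * (ind E x * g (T^[n] x))) μ := i3.const_mul a
    have j3 : Integrable (fun x => a ^ 2 * ind (E ∩ T^[n] ⁻¹' E) x) μ := i4.const_mul (a ^ 2)
    have k1 : Integrable (fun x => g x * g (T^[n] x) + a * (g x * ind E (T^[n] x))) μ := i1.add j1
    have k2 : Integrable (fun x => g x * g (T^[n] x) + a * (g x * ind E (T^[n] x))
        + a * (ind E x * g (T^[n] x))) μ := k1.add j2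
    have hx : ∀ x, (g x + a * ind E x) * (g (T^[n] x) + a * ind E (T^[n] x)) =
        (g x * g (T^[n] x) + a * (g x * ind E (T^[n] x)) + a * (ind E x * g (T^[n] x)))
          + a ^ 2 * ind (E ∩ T^[n] ⁻¹' E) x := by
      intro x
      rw [← ind_mul_ind]
      ring
    rw [integral_congr_ae (Eventually.of_forall hx), integral_add k2 j3, integral_add k1 j2,
      integral_add i1 j1, integral_const_mul, integral_const_mul, integral_const_mul,
      integral_ind (hE.inter (hTn hE))]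
  have e2 : ∫ x, (g x + a * ind E x) ∂μ = c + a * μ.real E := by
    rw [integral_add i7 (i5.const_mul a), integral_const_mul, integral_ind hE]
  have e3 : ∫ x, (g x - c) * ind E (T^[n] x) ∂μ =
      (∫ x, g x * ind E (T^[n] x) ∂μ) - c * μ.real E := by
    rw [← integral_ind (μ := μ) hE, ← integral_iter hT hI n, ← integral_const_mul,
      ← integral_sub i2 (i6.const_mul c)]
    refine integral_congr_ae (Eventually.of_forall fun x => ?_)
    simp only
    ring
  have e4 : ∫ x, ind E x * (g (T^[n] x) - c) ∂μ =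
      (∫ x, ind E x * g (T^[n] x) ∂μ) - c * μ.real E := by
    rw [← integral_ind (μ := μ) hE, ← integral_const_mul, ← integral_sub i3 (i5.const_mul c)]
    refine integral_congr_ae (Eventually.of_forall fun x => ?_)
    simp only
    ring
  rw [S, e1, e2, e3, e4, S]
  ring

lemma corr_lower (hT : MeasurePreserving T μ μ) {E : Set X} (hE : MeasurableSet E) (n : ℕ) :
    -(1 / 4 : ℝ) ≤ μ.real (E ∩ T^[n] ⁻¹' E) - μ.real E ^ 2 := by
  have h1 : μ.real (E ∪ T^[n] ⁻¹' E) + μ.real (E ∩ T^[n] ⁻¹' E) =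
      μ.real E + μ.real (T^[n] ⁻¹' E) :=
    measureReal_union_add_inter ((hT.measurable.iterate n) hE)
  rw [real_preimage hT hE] at h1
  have h2 : μ.real (E ∪ T^[n] ⁻¹' E) ≤ 1 := measureReal_le_one
  have h3 : 0 ≤ μ.real (E ∩ T^[n] ⁻¹' E) := measureReal_nonneg
  have h4 : 0 ≤ μ.real E := measureReal_nonneg
  have h5 : μ.real E ≤ 1 := measureReal_le_one
  rcases le_total (μ.real E) (1 / 2) with h | h
  · nlinarith
  · nlinarith

/-- the almost invariant sets -/
lemma exists_E (hT : MeasurePreserving T μ μ) (hmix : Mix μ T) {A : Set X}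
    (hA : MeasurableSet A) (h0 : 0 < μ.real A) (h1 : μ.real A < 1) (g : SimpleFunc X ℝ) {η : ℝ}
    (hη : 0 < η) (M : ℕ) :
    ∃ E : Set X, MeasurableSet E ∧
      (∀ n ≤ M, 1 / 4 - η ≤ μ.real (E ∩ T^[n] ⁻¹' E) - μ.real E ^ 2) ∧
      (∀ n, |∫ x, (g x - ∫ y, g y ∂μ) * ind E (T^[n] x) ∂μ| ≤ η) ∧
      (∀ n, |∫ x, ind E x * (g (T^[n] x) - ∫ y, g y ∂μ) ∂μ| ≤ η) := by
  classical
  have hTm := hT.measurable
  set c := ∫ y, g y ∂μ with hc
  set g0 : SimpleFunc X ℝ := g - SimpleFunc.const X c with hg0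
  have hg0x : ∀ x, g0 x = g x - c := fun x => rfl
  obtain ⟨C, hC⟩ := g0.exists_forall_norm_le
  have hC' : ∀ x, |g0 x| ≤ |C| := fun x => (hC x).trans (le_abs_self C)
  have hgi : Integrable (fun x => g x) μ := by
    obtain ⟨C', hC'⟩ := g.exists_forall_norm_le
    exact integrable_bdd g.measurable (C := C') hC'
  have hint0 : ∫ x, g0 x ∂μ = 0 := by
    simp only [hg0x]
    rw [integral_sub hgi (integrable_const _)]
    simp [hc]
  have hdec : Tendsto (fun n : ℕ => ∫ x, g0 x * g0 (T^[n] x) ∂μ) atTop (𝓝 0) := by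
    have := mix_simple hT hmix g0 g0
    rwa [hint0, mul_zero] at this
  obtain ⟨K, s, hs, hKs⟩ := exists_avg hT g0.measurable hC' hdec (η := η / 4) (by positivity)
  -- the small parameter
  obtain ⟨δ, hδ0, hδ1, hδ2, hδ3⟩ : ∃ δ : ℝ, 0 < δ ∧ δ < 1 / 2 ∧ (1 + 2 * M) * δ ≤ η ∧
      |C| * (2 * (s * K) * δ) ≤ η / 2 := by
    refine ⟨min (1 / 4) (min (η / (1 + 2 * M)) (η / (4 * (|C| + 1) * (s * K + 1)))), ?_, ?_, ?_, ?_⟩
    · refine lt_min (by norm_num) (lt_min (by positivity) (by positivity))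
    · exact (min_le_left _ _).trans_lt (by norm_num)
    · have h2 : min (1 / 4) (min (η / (1 + 2 * (M : ℝ))) (η / (4 * (|C| + 1) * (s * K + 1)))) ≤
          η / (1 + 2 * M) := (min_le_right _ _).trans (min_le_left _ _)
      calc (1 + 2 * (M : ℝ)) * _ ≤ (1 + 2 * M) * (η / (1 + 2 * M)) :=
            mul_le_mul_of_nonneg_left h2 (by positivity)
        _ = η := by field_simp
    · have h2 : min (1 / 4) (min (η / (1 + 2 * (M : ℝ))) (η / (4 * (|C| + 1) * (s * K + 1)))) ≤
          η / (4 * (|C| + 1) * (s * K + 1)) := (min_le_right _ _).trans (min_le_right _ _)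
      have h3 : (0 : ℝ) ≤ |C| * (2 * (s * K)) := by positivity
      calc |C| * (2 * (s * K) * min (1 / 4) (min (η / (1 + 2 * (M : ℝ)))
            (η / (4 * (|C| + 1) * (s * K + 1)))))
          = (|C| * (2 * (s * K))) * min (1 / 4) (min (η / (1 + 2 * (M : ℝ)))
            (η / (4 * (|C| + 1) * (s * K + 1)))) := by ring
        _ ≤ (|C| * (2 * (s * K))) * (η / (4 * (|C| + 1) * (s * K + 1))) :=
            mul_le_mul_of_nonneg_left h2 h3
        _ = (|C| * (s * K)) / ((|C| + 1) * (s * K + 1)) * (η / 2) := by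
            field_simp
            ring
        _ ≤ 1 * (η / 2) := by
            refine mul_le_mul_of_nonneg_right ?_ (by positivity)
            rw [div_le_one (by positivity)]
            have h4 : (0 : ℝ) ≤ s * K := by positivity
            nlinarith [abs_nonneg C]
        _ = η / 2 := one_mul _
  obtain ⟨B, hB, hB0, hB1⟩ := small_set hmix hTm hA h0 h1 hδ0
  obtain ⟨m, hm1, hm2⟩ := hit_median hT hmix hB hδ1 hB0 hB1
  set E := hit T B m with hE
  have hEm : MeasurableSet E := measurable_hit hTm hB m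
  have hEi := measurable_ind hEm
  have hinv : ∀ i : ℕ, ∫ x, |ind E (T^[i] x) - ind E x| ∂μ ≤ 2 * i * δ := fun i =>
    (almost_inv hT hB m i).trans (mul_le_mul_of_nonneg_left hB1 (by positivity))
  have hcross := fun n => cross hT g0.measurable hEi hC' (fun x => abs_ind_le E x) hs hKs
    (D := 2 * (s * K) * δ) (fun t ht => (hinv (t * K)).trans (by
      push_cast
      have : (t : ℝ) * K ≤ s * K :=
        mul_le_mul_of_nonneg_right (by exact_mod_cast ht.le) (Nat.cast_nonneg _)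
      nlinarith)) n
  refine ⟨E, hEm, ?_, ?_, ?_⟩
  · intro n hn
    have h2 : μ.real E - 2 * n * δ ≤ μ.real (E ∩ T^[n] ⁻¹' E) := by
      rw [← integral_ind (μ := μ) (hEm.inter ((hTm.iterate n) hEm))]
      have i1 : Integrable (fun x => ind E x) μ := integrable_bdd hEi (C := 1)
        fun x => abs_ind_le _ _
      have i2 : Integrable (fun x => |ind E (T^[n] x) - ind E x|) μ :=
        integrable_bdd (((hEi.comp (hTm.iterate n)).sub hEi).abs) (C := 2) fun x => by
          rw [abs_abs]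
          refine (abs_sub _ _).trans ?_
          linarith [abs_ind_le E (T^[n] x), abs_ind_le E x]
      have i3 : Integrable (fun x => ind (E ∩ T^[n] ⁻¹' E) x) μ :=
        integrable_bdd (measurable_ind (hEm.inter ((hTm.iterate n) hEm))) (C := 1)
          fun x => abs_ind_le _ _
      have h3 : ∫ x, ind E x ∂μ ≤ ∫ x, (ind (E ∩ T^[n] ⁻¹' E) x + |ind E (T^[n] x) - ind E x|) ∂μ := by
        refine integral_mono i1 (i3.add i2) fun x => ?_
        show ind E x ≤ ind (E ∩ T^[n] ⁻¹' E) x + |ind E (T^[n] x) - ind E x|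
        by_cases h1 : x ∈ E <;> by_cases h2 : T^[n] x ∈ E <;> simp [ind, h1, h2]
      rw [integral_add i3 i2, integral_ind hEm] at h3
      linarith [hinv n]
    have h3 : (n : ℝ) ≤ M := by exact_mod_cast hn
    have h4 : (n : ℝ) * δ ≤ M * δ := mul_le_mul_of_nonneg_right h3 hδ0.le
    nlinarith
  · intro n
    have := (hcross n).1
    simp only [hg0x] at this
    refine this.trans ?_
    linarith
  · intro n
    have := (hcross n).2
    simp only [hg0x] at this
    refine this.trans ?_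
    linarith

/-- one stage of the construction -/
lemma stage (hT : MeasurePreserving T μ μ) (hmix : Mix μ T) {A : Set X}
    (hA : MeasurableSet A) (h0 : 0 < μ.real A) (h1 : μ.real A < 1) {a : ℝ} (ha : 0 < a)
    (g : SimpleFunc X ℝ) (m : ℕ) :
    ∃ (E : Set X) (M : ℕ), MeasurableSet E ∧ m ≤ M ∧
      (∀ n, M < n → |S μ T g n| ≤ 1 / 10 * (a ^ 2 / 4)) ∧
      (∀ n ≤ M, 9 / 10 * (a ^ 2 / 4) ≤ S μ T (fun x => g x + a * ind E x) n - S μ T g n) ∧
      (∀ n, -(11 / 10) * (a ^ 2 / 4) ≤ S μ T (fun x => g x + a * ind E x) n - S μ T g n) := by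
  have h2 : Tendsto (fun n => S μ T g n) atTop (𝓝 0) := by
    have h3 := (mix_simple hT hmix g g).sub_const ((∫ x, g x ∂μ) ^ 2)
    have h4 : (∫ x, g x ∂μ) * (∫ x, g x ∂μ) - (∫ x, g x ∂μ) ^ 2 = 0 := by ring
    rw [h4] at h3
    exact h3
  have h3 := h2.abs
  rw [abs_zero] at h3
  obtain ⟨M₀, hM₀⟩ := eventually_atTop.1 (h3.eventually_le_const
    (show (0 : ℝ) < 1 / 10 * (a ^ 2 / 4) by positivity))
  set η : ℝ := 1 / 10 * (a ^ 2 / 4) / (2 * a + a ^ 2) with hη
  have hη0 : 0 < η := by positivity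
  have hη1 : 2 * a * η + a ^ 2 * η = 1 / 10 * (a ^ 2 / 4) := by
    rw [hη]; field_simp
  obtain ⟨E, hE, hE1, hE2, hE3⟩ := exists_E hT hmix hA h0 h1 g hη0 (max m M₀)
  obtain ⟨C, hC⟩ := g.exists_forall_norm_le
  refine ⟨E, max m M₀, hE, le_max_left _ _, fun n hn => hM₀ n ((le_max_right _ _).trans hn.le),
    ?_, ?_⟩
  · intro n hn
    rw [S_add hT g.measurable hC hE a n]
    have h4 := (abs_le.1 (hE2 n)).1
    have h5 := (abs_le.1 (hE3 n)).1
    have h6 := hE1 n hn
    have h7 : a * (-η + -η) ≤ a * ((∫ x, (g x - ∫ y, g y ∂μ) * ind E (T^[n] x) ∂μ)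
        + ∫ x, ind E x * (g (T^[n] x) - ∫ y, g y ∂μ) ∂μ) :=
      mul_le_mul_of_nonneg_left (add_le_add h4 h5) ha.le
    have h8 : a ^ 2 * (1 / 4 - η) ≤ a ^ 2 * (μ.real (E ∩ T^[n] ⁻¹' E) - μ.real E ^ 2) :=
      mul_le_mul_of_nonneg_left h6 (by positivity)
    linarith
  · intro n
    rw [S_add hT g.measurable hC hE a n]
    have h4 := (abs_le.1 (hE2 n)).1
    have h5 := (abs_le.1 (hE3 n)).1
    have h6 := corr_lower hT hE n
    have h7 : a * (-η + -η) ≤ a * ((∫ x, (g x - ∫ y, g y ∂μ) * ind E (T^[n] x) ∂μ)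
        + ∫ x, ind E x * (g (T^[n] x) - ∫ y, g y ∂μ) ∂μ) :=
      mul_le_mul_of_nonneg_left (add_le_add h4 h5) ha.le
    have h8 : a ^ 2 * (-(1 / 4)) ≤ a ^ 2 * (μ.real (E ∩ T^[n] ⁻¹' E) - μ.real E ^ 2) :=
      mul_le_mul_of_nonneg_left h6 (by positivity)
    have h9 : 0 ≤ a ^ 2 * η := by positivity
    linarith

/-- simple indicator -/
noncomputable def indS (E : Set X) (hE : MeasurableSet E) : SimpleFunc X ℝ :=
  SimpleFunc.piecewise E hE (SimpleFunc.const X 1) (SimpleFunc.const X 0)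

lemma indS_apply (E : Set X) (hE : MeasurableSet E) (x : X) : indS E hE x = ind E x := by
  classical
  by_cases h : x ∈ E <;> simp [indS, ind, h, SimpleFunc.piecewise_apply]

/-- the main construction -/
lemma construction (hT : MeasurePreserving T μ μ) (hmix : Mix μ T) {A : Set X}
    (hA : MeasurableSet A) (h0 : 0 < μ.real A) (h1 : μ.real A < 1) :
    ∃ E : ℕ → Set X, (∀ j, MeasurableSet (E j)) ∧ ∀ n : ℕ, ∃ δ : ℝ, 0 < δ ∧ ∃ J₀ : ℕ, ∀ J ≥ J₀,
      δ ≤ S μ T (fun x => ∑ j ∈ Finset.range J, (7 / 8 : ℝ) ^ j * ind (E j) x) n := by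
  classical
  have st := fun (j : ℕ) (g : SimpleFunc X ℝ) (m : ℕ) =>
    stage hT hmix hA h0 h1 (a := (7 / 8 : ℝ) ^ j) (by positivity) g (max m j)
  choose E M hE hM p1 p2 p3 using st
  set seq : ℕ → SimpleFunc X ℝ × ℕ := fun k => Nat.rec ((0 : SimpleFunc X ℝ), 0)
    (fun j p => (p.1 + SimpleFunc.const X ((7 / 8 : ℝ) ^ j) * indS (E j p.1 p.2) (hE j p.1 p.2),
      M j p.1 p.2)) k with hseq
  set F : ℕ → SimpleFunc X ℝ := fun j => (seq j).1 with hF
  set N : ℕ → ℕ := fun j => (seq (j + 1)).2 with hN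
  set E' : ℕ → Set X := fun j => E j (seq j).1 (seq j).2 with hE'
  have hF0 : F 0 = 0 := rfl
  have hFs : ∀ j, (fun x => F (j + 1) x) = fun x => F j x + (7 / 8 : ℝ) ^ j * ind (E' j) x := by
    intro j
    funext x
    have : F (j + 1) = F j + SimpleFunc.const X ((7 / 8 : ℝ) ^ j) *
        indS (E' j) (hE j (seq j).1 (seq j).2) := rfl
    rw [this, SimpleFunc.coe_add, Pi.add_apply, SimpleFunc.coe_mul, Pi.mul_apply,
      SimpleFunc.const_apply, indS_apply]
  have hFsum : ∀ J, (fun x => F J x) = fun x => ∑ j ∈ Finset.range J, (7 / 8 : ℝ) ^ j * ind (E' j) x := by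
    intro J
    induction J with
    | zero => funext x; simp [hF0]
    | succ J ih =>
      rw [hFs J]
      funext x
      rw [Finset.sum_range_succ, ← congrFun ih x]
  have hNj : ∀ j, max (seq j).2 j ≤ N j := fun j => hM j (seq j).1 (seq j).2
  have hNmono : Monotone N := by
    refine monotone_nat_of_le_succ fun j => ?_
    exact (le_max_left _ _).trans (hNj (j + 1))
  have hNge : ∀ j, j ≤ N j := fun j => (le_max_right _ _).trans (hNj j)
  have q1 : ∀ j n, N j < n → |S μ T (F j) n| ≤ 1 / 10 * (((7 / 8 : ℝ) ^ j) ^ 2 / 4) :=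
    fun j n hn => p1 j (seq j).1 (seq j).2 n hn
  have q2 : ∀ j n, n ≤ N j → 9 / 10 * (((7 / 8 : ℝ) ^ j) ^ 2 / 4) ≤
      S μ T (F (j + 1)) n - S μ T (F j) n := by
    intro j n hn
    have := p2 j (seq j).1 (seq j).2 n hn
    rwa [← hFs j] at this
  have q3 : ∀ j n, -(11 / 10) * (((7 / 8 : ℝ) ^ j) ^ 2 / 4) ≤
      S μ T (F (j + 1)) n - S μ T (F j) n := by
    intro j n
    have := p3 j (seq j).1 (seq j).2 n
    rwa [← hFs j] at this
  refine ⟨E', fun j => hE j _ _, fun n => ?_⟩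
  have hex : ∃ k, n ≤ N k := ⟨n, hNge n⟩
  set k := Nat.find hex with hk
  have hkn : n ≤ N k := Nat.find_spec hex
  have hge : ∀ j, k ≤ j → n ≤ N j := fun j hj => hkn.trans (hNmono hj)
  have hstep : ∀ j, k ≤ j → S μ T (F j) n ≤ S μ T (F (j + 1)) n := by
    intro j hj
    have := q2 j n (hge j hj)
    have h3 : (0 : ℝ) ≤ 9 / 10 * (((7 / 8 : ℝ) ^ j) ^ 2 / 4) := by positivity
    linarith
  have hup : ∀ j i, k ≤ j → S μ T (F j) n ≤ S μ T (F (j + i)) n := by
    intro j i hj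
    induction i with
    | zero => exact le_rfl
    | succ i ih => exact ih.trans (hstep (j + i) (by omega))
  have hbk : ∀ j, ((7 / 8 : ℝ) ^ (j + 1)) ^ 2 / 4 = 49 / 64 * (((7 / 8 : ℝ) ^ j) ^ 2 / 4) := by
    intro j
    rw [pow_succ]
    ring
  have hbound : ∃ δ : ℝ, 0 < δ ∧ δ ≤ S μ T (F (k + 3)) n := by
    have a0 := q2 k n (hge k le_rfl)
    have a1 := q2 (k + 1) n (hge (k + 1) (by omega))
    have a2 := q2 (k + 2) n (hge (k + 2) (by omega))
    rw [hbk] at a1
    rw [hbk, hbk] at a2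
    have hb : (0 : ℝ) < ((7 / 8 : ℝ) ^ k) ^ 2 / 4 := by positivity
    rcases Nat.eq_zero_or_pos k with h2 | h2
    · have h3 : S μ T (F k) n = 0 := by
        rw [h2, hF0]
        simp [S]
      refine ⟨9 / 10 * (((7 / 8 : ℝ) ^ k) ^ 2 / 4), by positivity, ?_⟩
      have e1 : F (k + 1 + 1) = F (k + 2) := rfl
      have e2 : F (k + 2 + 1) = F (k + 3) := rfl
      rw [e1] at a1
      rw [e2] at a2
      linarith
    · obtain ⟨k', hk'⟩ : ∃ k', k = k' + 1 := ⟨k - 1, by omega⟩
      have h3 : N k' < n := by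
        have := Nat.find_min hex (m := k') (by rw [← hk, hk']; exact Nat.lt_succ_self _)
        exact not_le.1 this
      have a3 := (abs_le.1 (q1 k' n h3)).1
      have a4 := q3 k' n
      rw [← hk'] at a4
      have e0 : ((7 / 8 : ℝ) ^ k) ^ 2 / 4 = 49 / 64 * (((7 / 8 : ℝ) ^ k') ^ 2 / 4) := by
        rw [hk']; exact hbk k'
      have e1 : F (k + 1 + 1) = F (k + 2) := rfl
      have e2 : F (k + 2 + 1) = F (k + 3) := rfl
      rw [e1] at a1
      rw [e2] at a2
      have hb' : (0 : ℝ) < ((7 / 8 : ℝ) ^ k') ^ 2 / 4 := by positivity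
      refine ⟨1 / 10 * (((7 / 8 : ℝ) ^ k') ^ 2 / 4), by positivity, ?_⟩
      rw [e0] at a0 a1 a2
      linarith
  obtain ⟨δ, hδ, hδ2⟩ := hbound
  refine ⟨δ, hδ, k + 3, fun J hJ => ?_⟩
  obtain ⟨i, rfl⟩ := Nat.exists_eq_add_of_le hJ
  have := hδ2.trans (hup (k + 3) i (by omega))
  have e : S μ T (F (k + 3 + i)) n = S μ T (fun x => ∑ j ∈ Finset.range (k + 3 + i),
      (7 / 8 : ℝ) ^ j * ind (E' j) x) n := by
    rw [← hFsum (k + 3 + i)]
  rw [← e]
  exact this

theorem exists_overRecurrent (hT : MeasurePreserving T μ μ) (hmix : Mix μ T) {A : Set X}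
    (hA : MeasurableSet A) (h0 : 0 < μ.real A) (h1 : μ.real A < 1) :
    ∃ f : X → ℝ, Measurable f ∧ (∀ x, |f x| ≤ 8) ∧ ∀ n : ℕ, 0 < S μ T f n := by
  obtain ⟨E, hE, hpos⟩ := construction hT hmix hA h0 h1
  have hTm := hT.measurable
  set F : ℕ → X → ℝ := fun J x => ∑ j ∈ Finset.range J, (7 / 8 : ℝ) ^ j * ind (E j) x with hF
  have hgeo : Summable fun j : ℕ => (7 / 8 : ℝ) ^ j :=
    summable_geometric_of_lt_one (by norm_num) (by norm_num)
  have hgeo8 : ∑' j : ℕ, (7 / 8 : ℝ) ^ j = 8 := by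
    rw [tsum_geometric_of_lt_one (by norm_num) (by norm_num)]; norm_num
  have hterm : ∀ x j, 0 ≤ (7 / 8 : ℝ) ^ j * ind (E j) x := fun x j =>
    mul_nonneg (by positivity) (ind_nonneg _ _)
  have hterm1 : ∀ x j, (7 / 8 : ℝ) ^ j * ind (E j) x ≤ (7 / 8 : ℝ) ^ j := fun x j =>
    mul_le_of_le_one_right (by positivity) (ind_le _ _)
  have hsum : ∀ x, Summable fun j => (7 / 8 : ℝ) ^ j * ind (E j) x := fun x =>
    Summable.of_nonneg_of_le (hterm x) (hterm1 x) hgeo
  set f : X → ℝ := fun x => ∑' j, (7 / 8 : ℝ) ^ j * ind (E j) x with hf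
  have hlim : ∀ x, Tendsto (fun J => F J x) atTop (𝓝 (f x)) := fun x =>
    (hsum x).hasSum.tendsto_sum_nat
  have hFm : ∀ J, Measurable (F J) := fun J =>
    Finset.measurable_sum _ fun j _ => (measurable_ind (hE j)).const_mul _
  have hfm : Measurable f := measurable_of_tendsto_metrizable hFm (tendsto_pi_nhds.2 hlim)
  have hF8 : ∀ J x, |F J x| ≤ 8 := by
    intro J x
    rw [abs_of_nonneg (Finset.sum_nonneg fun j _ => hterm x j)]
    refine (Finset.sum_le_sum fun j _ => hterm1 x j).trans ?_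
    refine (hgeo.sum_le_tsum (Finset.range J) fun j _ => by positivity).trans (le_of_eq hgeo8)
  have hf8 : ∀ x, |f x| ≤ 8 := fun x =>
    le_of_tendsto (hlim x).abs (Eventually.of_forall fun J => hF8 J x)
  refine ⟨f, hfm, hf8, fun n => ?_⟩
  obtain ⟨δ, hδ, J₀, hJ⟩ := hpos n
  have t1 : Tendsto (fun J => ∫ x, F J x ∂μ) atTop (𝓝 (∫ x, f x ∂μ)) :=
    tendsto_integral_of_dominated_convergence (fun _ => 8)
      (fun J => (hFm J).aestronglyMeasurable) (integrable_const _)
      (fun J => Eventually.of_forall fun x => hF8 J x) (Eventually.of_forall hlim)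
  have t2 : Tendsto (fun J => ∫ x, F J x * F J (T^[n] x) ∂μ) atTop
      (𝓝 (∫ x, f x * f (T^[n] x) ∂μ)) :=
    tendsto_integral_of_dominated_convergence (fun _ => 8 * 8)
      (fun J => ((hFm J).mul ((hFm J).comp (hTm.iterate n))).aestronglyMeasurable)
      (integrable_const _)
      (fun J => Eventually.of_forall fun x => by
        rw [Real.norm_eq_abs, abs_mul]
        exact mul_le_mul (hF8 J x) (hF8 J _) (abs_nonneg _) (by norm_num))
      (Eventually.of_forall fun x => (hlim x).mul (hlim (T^[n] x)))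
  have t3 : Tendsto (fun J => S μ T (F J) n) atTop (𝓝 (S μ T f n)) := t2.sub (t1.pow 2)
  exact hδ.trans_le (ge_of_tendsto t3 (eventually_atTop.2 ⟨J₀, hJ⟩))

/-- **Main theorem.** Every nontrivial mixing system has a bounded, non-constant, strictly
over-recurrent function. -/
theorem main (μ : Measure X) [IsProbabilityMeasure μ] (T : X → X) (hT : MeasurePreserving T μ μ)
    (hnt : ∃ A : Set X, MeasurableSet A ∧ 0 < μ A ∧ μ A < 1)
    (hmix : ∀ A B : Set X, MeasurableSet A → MeasurableSet B →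
        Tendsto (fun n : ℕ => μ (A ∩ T^[n] ⁻¹' B)) atTop (𝓝 (μ A * μ B))) :
    ∃ f : X → ℝ, MemLp f ⊤ μ ∧ (¬ ∃ c : ℝ, f =ᵐ[μ] fun _ => c) ∧
          ∀ n : ℕ, 1 ≤ n → (∫ x, f x ∂μ) ^ 2 < ∫ x, f x * f (T^[n] x) ∂μ := by
  obtain ⟨A, hA, hA0, hA1⟩ := hnt
  have h0 : 0 < μ.real A := ENNReal.toReal_pos hA0.ne' (measure_ne_top _ _)
  have h1 : μ.real A < 1 := by
    have := (ENNReal.toReal_lt_toReal (measure_ne_top μ A) ENNReal.one_ne_top).2 hA1
    rwa [ENNReal.toReal_one] at this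
  obtain ⟨f, hfm, hf8, hpos⟩ := exists_overRecurrent hT (mix_of hmix) hA h0 h1
  refine ⟨f, memLp_top_of_bound hfm.aestronglyMeasurable 8 (Eventually.of_forall hf8), ?_, ?_⟩
  · rintro ⟨c, hc⟩
    have h2 := hpos 0
    rw [S] at h2
    have h3 : ∫ x, f x ∂μ = c := by
      rw [integral_congr_ae hc]; simp
    have h4 : ∫ x, f x * f (T^[0] x) ∂μ = c * c := by
      have h5 : (fun x => f x * f (T^[0] x)) =ᵐ[μ] fun _ => c * c := by
        filter_upwards [hc] with x hx
        simp only [Function.iterate_zero, id_eq, hx]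
      rw [integral_congr_ae h5]; simp
    rw [h3, h4] at h2
    nlinarith
  · intro n _
    have := hpos n
    rw [S] at this
    linarith

end Run7.h491.OverRec
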