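import Mathlib

/-!
# Countable weak pi-bases of unit balls of spaces with a 1-unconditional basis

Given a weak neighbourhood `{x in B_X : |f_i (x - x0)| < eps}` let
`Phi a = sum_n (sum_i |f_i (e_n)|) |a_n|`.  If a finitely supported vector `a` of the neighbourhood
nearly maximises `Phi`, then all vectors of the ball whose first `N` coordinates are close to
those of `a` belong to the neighbourhood: otherwise there are such vectors with tails `T_N`,
`Phi (T_N)` not small, and `a + (T_N - T_M)/2` is nearly in the ball (change the signs of `T_M`),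
has nearly the same values `f_i` (for suitable `N < M`) and a larger `Phi`.
-/

set_option autoImplicit false

open Filter Topology

namespace Run7.h491.PiBase

variable {X : Type} [NormedAddCommGroup X] [NormedSpace ℝ X]

/-- finite linear combinations of the sequence `e` -/
noncomputable def L (e : ℕ → X) : (ℕ →₀ ℝ) →ₗ[ℝ] X := Finsupp.linearCombination ℝ e

lemma L_apply (e : ℕ → X) (a : ℕ →₀ ℝ) : L e a = ∑ n ∈ a.support, a n • e n := by
  rw [L, Finsupp.linearCombination_apply, Finsupp.sum]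

/-- the sign condition -/
def Unc (e : ℕ → X) : Prop :=
  ∀ (s : Finset ℕ) (a ε : ℕ → ℝ), (∀ n, ε n = 1 ∨ ε n = -1) →
          ‖∑ n ∈ s, (ε n * a n) • e n‖ ≤ ‖∑ n ∈ s, a n • e n‖

lemma L_abs {e : ℕ → X} (hu : Unc e) {a b : ℕ →₀ ℝ} (h : ∀ n, |b n| = |a n|) :
    ‖L e b‖ ≤ ‖L e a‖ := by
  classical
  have hs : b.support = a.support := by
    ext n
    rw [Finsupp.mem_support_iff, Finsupp.mem_support_iff, ← abs_pos, h n, abs_pos]
  rw [L_apply, L_apply, hs]
  refine le_trans (le_of_eq ?_) (hu a.support a (fun n => if b n = a n then 1 else -1) ?_)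
  · congr 1
    refine Finset.sum_congr rfl fun n _ => ?_
    by_cases h1 : b n = a n
    · simp [h1]
    · have h2 : b n = - a n := by
        rcases abs_eq_abs.1 (h n) with h3 | h3
        · exact absurd h3 h1
        · exact h3
      simp only [h1, if_false]
      rw [h2]
      ring_nf
  · intro n
    by_cases h1 : b n = a n
    · simp [h1]
    · simp [h1]

lemma L_filter {e : ℕ → X} (hu : Unc e) (a : ℕ →₀ ℝ) (p : ℕ → Prop) [DecidablePred p] :
    ‖L e (a.filter p)‖ ≤ ‖L e a‖ := by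
  have h1 : (2 : ℝ) • L e (a.filter p) = L e a + L e (a.filter p - a.filter (fun n => ¬ p n)) := by
    rw [← map_smul, ← map_add]
    congr 1
    ext n
    by_cases h : p n
    · simp [h]; ring
    · simp [h]
  have h2 : ‖L e (a.filter p - a.filter (fun n => ¬ p n))‖ ≤ ‖L e a‖ := by
    refine L_abs hu fun n => ?_
    by_cases h : p n
    · simp [h]
    · simp [h]
  have h3 : ‖(2 : ℝ) • L e (a.filter p)‖ ≤ ‖L e a‖ + ‖L e a‖ := by
    rw [h1]
    exact (norm_add_le _ _).trans (by linarith)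
  rw [norm_smul] at h3
  simp at h3
  linarith

section core

variable {ι : Type} [Fintype ι] (f : ι → X →L[ℝ] ℝ) (e : ℕ → X)

/-- the functional to be maximised -/
noncomputable def Phi (a : ℕ →₀ ℝ) : ℝ := a.sum (fun n r => (∑ i, |f i (e n)|) * |r|)

lemma Phi_nonneg (a : ℕ →₀ ℝ) : 0 ≤ Phi f e a :=
  Finset.sum_nonneg fun _ _ => mul_nonneg (Finset.sum_nonneg fun _ _ => abs_nonneg _) (abs_nonneg _)

lemma Phi_le {e : ℕ → X} (hu : Unc e) (a : ℕ →₀ ℝ) :
    Phi f e a ≤ (∑ i, ‖f i‖) * ‖L e a‖ := by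
  classical
  have h1 : Phi f e a = ∑ i, ∑ n ∈ a.support, |f i (e n)| * |a n| := by
    rw [Phi, Finsupp.sum, Finset.sum_comm]
    refine Finset.sum_congr rfl fun n _ => ?_
    rw [Finset.sum_mul]
  rw [h1, Finset.sum_mul]
  refine Finset.sum_le_sum fun i _ => ?_
  set ε : ℕ → ℝ := fun n => if 0 ≤ f i (e n) * a n then 1 else -1 with hε
  have h2 : ∑ n ∈ a.support, |f i (e n)| * |a n| = f i (∑ n ∈ a.support, (ε n * a n) • e n) := by
    rw [map_sum]
    refine Finset.sum_congr rfl fun n _ => ?_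
    rw [map_smul, smul_eq_mul, ← abs_mul]
    by_cases h : 0 ≤ f i (e n) * a n
    · rw [abs_of_nonneg h]
      simp only [hε, h, if_true]
      ring
    · rw [abs_of_neg (not_le.1 h)]
      simp only [hε, h, if_false]
      ring
  rw [h2]
  refine (le_abs_self _).trans ?_
  rw [← Real.norm_eq_abs]
  refine ((f i).le_opNorm _).trans ?_
  refine mul_le_mul_of_nonneg_left ?_ (norm_nonneg _)
  rw [L_apply]
  refine hu _ _ _ fun n => ?_
  simp only [hε]
  split_ifs <;> simp

lemma le_Phi (a : ℕ →₀ ℝ) (i : ι) : |f i (L e a)| ≤ Phi f e a := by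
  rw [L_apply, map_sum, Phi, Finsupp.sum]
  refine (Finset.abs_sum_le_sum_abs _ _).trans (Finset.sum_le_sum fun n _ => ?_)
  rw [map_smul, smul_eq_mul, abs_mul, mul_comm]
  refine mul_le_mul_of_nonneg_right ?_ (abs_nonneg _)
  exact Finset.single_le_sum (f := fun i => |f i (e n)|) (fun i _ => abs_nonneg _)
    (Finset.mem_univ i)

lemma Phi_add {a b : ℕ →₀ ℝ} (h : Disjoint a.support b.support) :
    Phi f e (a + b) = Phi f e a + Phi f e b :=
  Finsupp.sum_add_index_of_disjoint h _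

lemma Phi_smul (c : ℝ) (a : ℕ →₀ ℝ) : Phi f e (c • a) = |c| * Phi f e a := by
  rw [Phi, Finsupp.sum_smul_index' (by simp), Phi, Finsupp.mul_sum]
  refine Finset.sum_congr rfl fun n _ => ?_
  simp only [smul_eq_mul, abs_mul]
  ring

/-- one step of the improvement -/
lemma step {e : ℕ → X} (hu : Unc e) (x₀ : X) {ε : ℝ} (hε : 0 < ε) (a : ℕ →₀ ℝ)
    (ha : ‖L e a‖ ≤ 1) {t : ℝ} (ht : t ≤ ε / 2) (hat : ∀ i, |f i (L e a - x₀)| ≤ t)
    (hbad : ∀ N : ℕ, ∀ δ : ℝ, 0 < δ → ∃ b : ℕ →₀ ℝ, ‖L e b‖ ≤ 1 ∧ (∀ n < N, |b n - a n| < δ) ∧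
      ∃ i, ε < |f i (L e b - x₀)|) {τ : ℝ} (hτ : 0 < τ) :
    ∃ a' : ℕ →₀ ℝ, ‖L e a'‖ ≤ 1 ∧ (∀ i, |f i (L e a' - x₀)| ≤ t + τ) ∧
      Phi f e a + ε / 8 ≤ Phi f e a' := by
  classical
  set G : ℝ := ∑ i, ‖f i‖ with hG
  have hG0 : 0 ≤ G := Finset.sum_nonneg fun i _ => norm_nonneg _
  have hGi : ∀ i, ‖f i‖ ≤ G := fun i =>
    Finset.single_le_sum (f := fun i => ‖f i‖) (fun i _ => norm_nonneg _) (Finset.mem_univ i)
  obtain ⟨κ, hκ0, hκ1, hκ2⟩ : ∃ κ : ℝ, 0 < κ ∧ G * κ ≤ τ / 2 ∧ G * κ ≤ ε / 8 := by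
    refine ⟨min (τ / 2) (ε / 8) / (G + 1), by positivity, ?_, ?_⟩
    · have : G * (min (τ / 2) (ε / 8) / (G + 1)) ≤ min (τ / 2) (ε / 8) := by
        rw [← mul_div_assoc, div_le_iff₀ (by positivity)]
        nlinarith [le_min (half_pos hτ).le (show (0:ℝ) ≤ ε / 8 by positivity)]
      exact this.trans (min_le_left _ _)
    · have : G * (min (τ / 2) (ε / 8) / (G + 1)) ≤ min (τ / 2) (ε / 8) := by
        rw [← mul_div_assoc, div_le_iff₀ (by positivity)]
        nlinarith [le_min (half_pos hτ).le (show (0:ℝ) ≤ ε / 8 by positivity)]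
      exact this.trans (min_le_right _ _)
  -- bad vectors for every `N`
  have hbad' : ∀ N : ℕ, ∃ b : ℕ →₀ ℝ, ‖L e b‖ ≤ 1 ∧
      (∀ n < N, |b n - a n| < κ / (1 + ∑ n ∈ Finset.range N, ‖e n‖)) ∧
      ∃ i, ε < |f i (L e b - x₀)| := fun N => hbad N _ (by positivity)
  choose b hb1 hb2 hb3 using hbad'
  choose j hj using hb3
  -- a bound for the support of `a`
  obtain ⟨N₀, hN₀⟩ : ∃ N₀ : ℕ, ∀ n ∈ a.support, n < N₀ :=
    ⟨a.support.sup id + 1, fun n hn => Nat.lt_succ_of_le (Finset.le_sup (f := id) hn)⟩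
  -- heads and tails
  set T : ℕ → (ℕ →₀ ℝ) := fun N => (b N).filter (fun n => ¬ n < N) with hT
  have hTn : ∀ N n, T N n = if n < N then 0 else b N n := by
    intro N n
    simp only [hT, Finsupp.filter_apply]
    by_cases h : n < N <;> simp [h]
  have hhead : ∀ N, N₀ ≤ N → ‖L e (b N) - L e (T N) - L e a‖ ≤ κ := by
    intro N hN
    have h1 : L e (b N) - L e (T N) - L e a = ∑ n ∈ Finset.range N, (b N n - a n) • e n := by
      rw [← map_sub, ← map_sub, L_apply]
      rw [Finset.sum_subset (s₁ := (b N - T N - a).support) (s₂ := Finset.range N)]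
      · refine Finset.sum_congr rfl fun n hn => ?_
        rw [Finset.mem_range] at hn
        simp [hTn, hn]
      · intro n hn
        rw [Finsupp.mem_support_iff] at hn
        rw [Finset.mem_range]
        by_contra hc
        apply hn
        have h2 : a n = 0 := by
          by_contra h3
          exact hc ((hN₀ n (Finsupp.mem_support_iff.2 h3)).trans_le hN)
        simp [hTn, hc, h2]
      · intro n _ hn
        rw [Finsupp.notMem_support_iff.1 hn, zero_smul]
    rw [h1]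
    refine (norm_sum_le _ _).trans ?_
    have h2 : ∀ n ∈ Finset.range N, ‖(b N n - a n) • e n‖ ≤
        κ / (1 + ∑ n ∈ Finset.range N, ‖e n‖) * ‖e n‖ := by
      intro n hn
      rw [norm_smul, Real.norm_eq_abs]
      exact mul_le_mul_of_nonneg_right (hb2 N n (Finset.mem_range.1 hn)).le (norm_nonneg _)
    refine (Finset.sum_le_sum h2).trans ?_
    rw [← Finset.mul_sum, div_mul_eq_mul_div, div_le_iff₀ (by positivity)]
    nlinarith [Finset.sum_nonneg fun n (_ : n ∈ Finset.range N) => norm_nonneg (e n)]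
  have hTnorm : ∀ N, ‖L e (T N)‖ ≤ 1 := fun N => (L_filter hu _ _).trans (hb1 N)
  -- the tails are large
  have hTbig : ∀ N, N₀ ≤ N → ε / 2 - G * κ ≤ Phi f e (T N) := by
    intro N hN
    refine le_trans ?_ (le_Phi f e (T N) (j N))
    have h1 := hj N
    have h2 : f (j N) (L e (b N) - x₀) = f (j N) (L e (T N)) +
        f (j N) (L e (b N) - L e (T N) - L e a) + f (j N) (L e a - x₀) := by
      rw [← map_add, ← map_add]
      congr 1
      abel
    have h3 : |f (j N) (L e (b N) - L e (T N) - L e a)| ≤ G * κ := by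
      rw [← Real.norm_eq_abs]
      exact ((f (j N)).le_opNorm _).trans
        (mul_le_mul (hGi _) (hhead N hN) (norm_nonneg _) hG0)
    have h4 := hat (j N)
    rw [h2] at h1
    have h5 := abs_add_three (f (j N) (L e (T N))) (f (j N) (L e (b N) - L e (T N) - L e a))
      (f (j N) (L e a - x₀))
    linarith
  -- two tails with nearly the same values of the functionals
  obtain ⟨N, M, hN, hNM, hsupp, hclose⟩ : ∃ N M : ℕ, N₀ ≤ N ∧ N ≤ M ∧
      (∀ n ∈ (T N).support, n < M) ∧ ∀ i, |f i (L e (T N)) - f i (L e (T M))| ≤ τ := by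
    set v : ℕ → (ι → ℝ) := fun N i => f i (L e (T N)) with hv
    have hvb : ∀ N, v N ∈ Metric.closedBall (0 : ι → ℝ) G := by
      intro N
      rw [mem_closedBall_zero_iff, pi_norm_le_iff_of_nonneg hG0]
      intro i
      refine ((f i).le_opNorm _).trans ?_
      calc ‖f i‖ * ‖L e (T N)‖ ≤ G * 1 :=
            mul_le_mul (hGi i) (hTnorm N) (norm_nonneg _) hG0
        _ = G := mul_one G
    obtain ⟨c, -, φ, hφ, hc⟩ := tendsto_subseq_of_bounded (Metric.isBounded_closedBall) hvb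
    have hev : ∀ᶠ k in atTop, dist ((v ∘ φ) k) c < τ / 2 :=
      (Metric.tendsto_nhds.1 hc) _ (half_pos hτ)
    obtain ⟨k₀, hk₀⟩ := eventually_atTop.1 hev
    set k := max k₀ N₀ with hk
    have hkk : N₀ ≤ φ k := (le_max_right _ _).trans (hφ.id_le k)
    obtain ⟨S, hS⟩ : ∃ S : ℕ, ∀ n ∈ (T (φ k)).support, n < S :=
      ⟨(T (φ k)).support.sup id + 1, fun n hn => Nat.lt_succ_of_le (Finset.le_sup (f := id) hn)⟩
    set l := max k S with hl
    refine ⟨φ k, φ l, hkk, hφ.monotone (le_max_left _ _), fun n hn => ?_, fun i => ?_⟩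
    · exact (hS n hn).trans_le ((le_max_right _ _).trans (hφ.id_le l))
    · have h1 := hk₀ k (le_max_left _ _)
      have h2 := hk₀ l ((le_max_left _ _).trans (le_max_left _ _))
      have h3 : dist ((v ∘ φ) k) ((v ∘ φ) l) ≤ τ := by
        refine (dist_triangle_right _ _ c).trans ?_
        linarith
      have h4 := (dist_le_pi_dist ((v ∘ φ) k) ((v ∘ φ) l) i).trans h3
      rw [Real.dist_eq] at h4
      exact h4
  have hM : N₀ ≤ M := hN.trans hNM
  -- the new vector before normalisation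
  set z : ℕ →₀ ℝ := a + (1 / 2 : ℝ) • T N + (-(1 / 2) : ℝ) • T M with hz
  have hTN0 : ∀ n, n < N → T N n = 0 := fun n hn => by rw [hTn]; simp [hn]
  have hTM0 : ∀ n, n < M → T M n = 0 := fun n hn => by rw [hTn]; simp [hn]
  have hzn : ‖L e z‖ ≤ 1 + κ := by
    have h1 : L e z = (1 / 2 : ℝ) • (L e a + L e (T N)) + (1 / 2 : ℝ) • (L e (a - T M)) := by
      rw [hz, map_add, map_add, map_smul, map_smul, map_sub]
      module
    have h2 : ‖L e a + L e (T N)‖ ≤ 1 + κ := by
      have h3 : L e a + L e (T N) = L e (b N) - (L e (b N) - L e (T N) - L e a) := by abel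
      rw [h3]
      exact (norm_sub_le _ _).trans (add_le_add (hb1 N) (hhead N hN))
    have h4 : ‖L e (a - T M)‖ ≤ 1 + κ := by
      have h5 : ‖L e (a - T M)‖ ≤ ‖L e (a + T M)‖ := by
        refine L_abs hu fun n => ?_
        by_cases hn : n < M
        · simp [hTM0 n hn]
        · have : a n = 0 := by
            by_contra h3
            exact hn ((hN₀ n (Finsupp.mem_support_iff.2 h3)).trans_le hM)
          simp [this]
      refine h5.trans ?_
      have h3 : L e (a + T M) = L e (b M) - (L e (b M) - L e (T M) - L e a) := by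
        rw [map_add]; abel
      rw [h3]
      exact (norm_sub_le _ _).trans (add_le_add (hb1 M) (hhead M hM))
    rw [h1]
    refine (norm_add_le _ _).trans ?_
    rw [norm_smul, norm_smul, Real.norm_of_nonneg (by norm_num : (0:ℝ) ≤ 1 / 2)]
    linarith
  have hPz : Phi f e z = Phi f e a + (1 / 2) * Phi f e (T N) + (1 / 2) * Phi f e (T M) := by
    have d1 : Disjoint a.support ((1 / 2 : ℝ) • T N).support := by
      rw [Finset.disjoint_left]
      intro n hn hn'
      rw [Finsupp.mem_support_iff] at hn'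
      apply hn'
      rw [Finsupp.smul_apply, hTN0 n ((hN₀ n hn).trans_le hN), smul_zero]
    have d2 : Disjoint (a + (1 / 2 : ℝ) • T N).support ((-(1 / 2) : ℝ) • T M).support := by
      rw [Finset.disjoint_left]
      intro n hn hn'
      rw [Finsupp.mem_support_iff] at hn hn'
      apply hn'
      have hnM : n < M := by
        by_contra hc
        apply hn
        have h2 : a n = 0 := by
          by_contra h3
          exact hc ((hN₀ n (Finsupp.mem_support_iff.2 h3)).trans_le hM)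
        have h3 : T N n = 0 := by
          by_contra h3
          exact hc (hsupp n (Finsupp.mem_support_iff.2 h3))
        simp [h2, h3]
      rw [Finsupp.smul_apply, hTM0 n hnM, smul_zero]
    rw [hz, Phi_add f e d2, Phi_add f e d1, Phi_smul, Phi_smul]
    norm_num
  have hPz1 : Phi f e a + ε / 2 - G * κ ≤ Phi f e z := by
    rw [hPz]
    have := hTbig N hN
    have := hTbig M hM
    linarith
  have hPz2 : Phi f e z ≤ G * (1 + κ) :=
    (Phi_le f hu z).trans (mul_le_mul_of_nonneg_left hzn hG0)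
  have hk1 : 0 < 1 + κ := by positivity
  refine ⟨(1 + κ)⁻¹ • z, ?_, ?_, ?_⟩
  · rw [map_smul, norm_smul, Real.norm_eq_abs, abs_of_pos (inv_pos.2 hk1)]
    rw [inv_mul_le_iff₀ hk1]
    simpa using hzn
  · intro i
    have h1 : f i (L e ((1 + κ)⁻¹ • z) - x₀) = f i (L e a - x₀) +
        (1 / 2) * (f i (L e (T N)) - f i (L e (T M))) - (κ / (1 + κ)) * f i (L e z) := by
      have h2 : L e ((1 + κ)⁻¹ • z) = L e z - (κ / (1 + κ)) • L e z := by
        rw [map_smul]
        have : (1 + κ)⁻¹ = 1 - κ / (1 + κ) := by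
          field_simp
          ring
        rw [this, sub_smul, one_smul]
      have h3 : L e z = L e a + (1 / 2 : ℝ) • L e (T N) + (-(1 / 2) : ℝ) • L e (T M) := by
        rw [hz, map_add, map_add, map_smul, map_smul]
      rw [h2, map_sub, map_sub, map_smul, smul_eq_mul, map_sub]
      have h4 : f i (L e z) = f i (L e a) + (1 / 2) * (f i (L e (T N)) - f i (L e (T M))) := by
        rw [h3, map_add, map_add, map_smul, map_smul, smul_eq_mul, smul_eq_mul]
        ring
      rw [h4]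
      ring
    have h5 : |(κ / (1 + κ)) * f i (L e z)| ≤ G * κ := by
      rw [abs_mul, abs_of_pos (show (0:ℝ) < κ / (1 + κ) by positivity)]
      have h6 : |f i (L e z)| ≤ G * (1 + κ) := (le_Phi f e z i).trans hPz2
      calc κ / (1 + κ) * |f i (L e z)| ≤ κ / (1 + κ) * (G * (1 + κ)) :=
            mul_le_mul_of_nonneg_left h6 (by positivity)
        _ = G * κ := by field_simp
    have h7 : |(1 / 2) * (f i (L e (T N)) - f i (L e (T M)))| ≤ τ / 2 := by
      rw [abs_mul]
      have := hclose i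
      norm_num
      linarith
    rw [h1]
    have h8 := abs_sub (f i (L e a - x₀) + (1 / 2) * (f i (L e (T N)) - f i (L e (T M))))
      ((κ / (1 + κ)) * f i (L e z))
    have h9 := abs_add_le (f i (L e a - x₀)) ((1 / 2) * (f i (L e (T N)) - f i (L e (T M))))
    have h10 := hat i
    linarith
  · rw [Phi_smul, abs_of_pos (inv_pos.2 hk1)]
    have h1 : (1 + κ)⁻¹ * Phi f e z = Phi f e z - κ / (1 + κ) * Phi f e z := by
      field_simp
      ring
    have h2 : κ / (1 + κ) * Phi f e z ≤ G * κ := by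
      calc κ / (1 + κ) * Phi f e z ≤ κ / (1 + κ) * (G * (1 + κ)) :=
            mul_le_mul_of_nonneg_left hPz2 (by positivity)
        _ = G * κ := by field_simp
    rw [h1]
    linarith

/-- the key statement for finitely supported vectors -/
lemma core {e : ℕ → X} (hu : Unc e) (x₀ : X) {ε : ℝ} (hε : 0 < ε) (a₀ : ℕ →₀ ℝ)
    (ha₀ : ‖L e a₀‖ ≤ 1) (hat : ∀ i, |f i (L e a₀ - x₀)| ≤ ε / 4) :
    ∃ a : ℕ →₀ ℝ, ‖L e a‖ ≤ 1 ∧ ∃ N : ℕ, ∃ δ : ℝ, 0 < δ ∧ ∀ b : ℕ →₀ ℝ, ‖L e b‖ ≤ 1 →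
      (∀ n < N, |b n - a n| < δ) → ∀ i, |f i (L e b - x₀)| ≤ ε := by
  classical
  by_contra hcon
  push Not at hcon
  set G : ℝ := ∑ i, ‖f i‖ with hG
  have hG0 : 0 ≤ G := Finset.sum_nonneg fun i _ => norm_nonneg _
  obtain ⟨K, hK⟩ := exists_nat_gt (G / (ε / 8))
  have hK1 : G < K * (ε / 8) := by rwa [div_lt_iff₀ (by positivity)] at hK
  have hKpos : 0 < (K : ℝ) := by
    by_contra h
    have : (K : ℝ) ≤ 0 := not_lt.1 h
    nlinarith
  have key : ∀ k : ℕ, k ≤ K → ∃ a : ℕ →₀ ℝ, ‖L e a‖ ≤ 1 ∧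
      (∀ i, |f i (L e a - x₀)| ≤ ε / 4 + k * (ε / (4 * K))) ∧ k * (ε / 8) ≤ Phi f e a := by
    intro k
    induction k with
    | zero =>
      intro _
      exact ⟨a₀, ha₀, fun i => by simpa using hat i, by simpa using Phi_nonneg f e a₀⟩
    | succ k ih =>
      intro hk
      obtain ⟨a, ha1, ha2, ha3⟩ := ih (Nat.le_of_succ_le hk)
      have ht : ε / 4 + k * (ε / (4 * K)) ≤ ε / 2 := by
        have h1 : (k : ℝ) * (ε / (4 * K)) ≤ K * (ε / (4 * K)) := by
          refine mul_le_mul_of_nonneg_right ?_ (by positivity)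
          exact_mod_cast Nat.le_of_succ_le hk
        have h2 : (K : ℝ) * (ε / (4 * K)) = ε / 4 := by field_simp
        linarith
      obtain ⟨a', h1, h2, h3⟩ := step f hu x₀ hε a ha1 ht ha2
        (fun N δ hδ => hcon a ha1 N δ hδ) (τ := ε / (4 * K)) (by positivity)
      refine ⟨a', h1, fun i => (h2 i).trans (le_of_eq ?_), ?_⟩
      · push_cast
        ring
      · push_cast
        linarith
  obtain ⟨a, h1, _, h3⟩ := key K le_rfl
  have h4 := Phi_le f hu a
  have h5 : G * ‖L e a‖ ≤ G * 1 := mul_le_mul_of_nonneg_left h1 hG0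
  linarith

end core

section coord

variable {e : ℕ → X}

lemma sum_mono (hu : Unc e) (a : ℕ → ℝ) {A s : Finset ℕ} (hA : A ⊆ s) :
    ‖∑ n ∈ A, a n • e n‖ ≤ ‖∑ n ∈ s, a n • e n‖ := by
  classical
  have h1 := hu s a (fun n => if n ∈ A then 1 else -1) (fun n => by
    by_cases h : n ∈ A <;> simp [h])
  have h2 : (2 : ℝ) • ∑ n ∈ A, a n • e n = ∑ n ∈ s, a n • e n +
      ∑ n ∈ s, ((if n ∈ A then 1 else -1) * a n) • e n := by
    rw [← Finset.sum_add_distrib, Finset.smul_sum,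
      ← Finset.sum_subset hA (f := fun n => a n • e n + ((if n ∈ A then 1 else -1) * a n) • e n)]
    · refine Finset.sum_congr rfl fun n hn => ?_
      simp only [hn, if_true, one_mul]
      rw [two_smul]
    · intro n _ hn
      simp [hn]
  have h3 : ‖(2 : ℝ) • ∑ n ∈ A, a n • e n‖ ≤ 2 * ‖∑ n ∈ s, a n • e n‖ := by
    rw [h2]
    exact (norm_add_le _ _).trans (by linarith)
  rw [norm_smul, Real.norm_of_nonneg (by norm_num : (0:ℝ) ≤ 2)] at h3
  linarith

lemma partial_le (hu : Unc e) {a : ℕ → ℝ} {x : X} (h : HasSum (fun n => a n • e n) x)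
    (A : Finset ℕ) : ‖∑ n ∈ A, a n • e n‖ ≤ ‖x‖ := by
  have h1 : Tendsto (fun s : Finset ℕ => ‖∑ n ∈ s, a n • e n‖) atTop (𝓝 ‖x‖) := h.norm
  refine ge_of_tendsto h1 ?_
  filter_upwards [eventually_ge_atTop A] with s hs
  exact sum_mono hu a hs

lemma ne_zero (hb : ∀ x : X, ∃! a : ℕ → ℝ, HasSum (fun n => a n • e n) x) (n : ℕ) :
    e n ≠ 0 := by
  intro h0
  have h1 : HasSum (fun k => (0 : ℕ → ℝ) k • e k) (0 : X) := by
    simp
  have h2 : HasSum (fun k => (Pi.single n 1 : ℕ → ℝ) k • e k) (0 : X) := by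
    have : (fun k => (Pi.single n 1 : ℕ → ℝ) k • e k) = fun _ => (0 : X) := by
      funext k
      by_cases h : k = n
      · subst h; simp [h0]
      · simp [h]
    rw [this]
    exact hasSum_zero
  have h3 := (hb 0).unique h1 h2
  have h4 := congrFun h3 n
  simp at h4

/-- the coordinates of a vector -/
noncomputable def coo (hb : ∀ x : X, ∃! a : ℕ → ℝ, HasSum (fun n => a n • e n) x) (x : X) :
    ℕ → ℝ := (hb x).choose

lemma coo_spec (hb : ∀ x : X, ∃! a : ℕ → ℝ, HasSum (fun n => a n • e n) x) (x : X) :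
    HasSum (fun n => coo hb x n • e n) x := (hb x).choose_spec.1

lemma coo_eq (hb : ∀ x : X, ∃! a : ℕ → ℝ, HasSum (fun n => a n • e n) x) {x : X} {a : ℕ → ℝ}
    (h : HasSum (fun n => a n • e n) x) : coo hb x = a := (hb x).unique (coo_spec hb x) h

lemma coo_L (hb : ∀ x : X, ∃! a : ℕ → ℝ, HasSum (fun n => a n • e n) x) (a : ℕ →₀ ℝ) :
    coo hb (L e a) = a := by
  apply coo_eq
  rw [L_apply]
  refine hasSum_sum_of_ne_finset_zero fun n hn => ?_
  rw [Finsupp.notMem_support_iff.1 hn, zero_smul]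

/-- the coordinate functionals -/
noncomputable def phi (hb : ∀ x : X, ∃! a : ℕ → ℝ, HasSum (fun n => a n • e n) x)
    (hu : Unc e) (n : ℕ) : X →L[ℝ] ℝ :=
  LinearMap.mkContinuous
    { toFun := fun x => coo hb x n
      map_add' := fun x y => by
        have h : HasSum (fun n => (coo hb x + coo hb y) n • e n) (x + y) := by
          simpa [add_smul] using (coo_spec hb x).add (coo_spec hb y)
        rw [coo_eq hb h]
        rfl
      map_smul' := fun r x => by
        have h : HasSum (fun n => (r • coo hb x) n • e n) (r • x) := by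
          simpa [mul_smul] using (coo_spec hb x).const_smul r
        rw [coo_eq hb h]
        rfl } (‖e n‖⁻¹) (fun x => by
      have h := partial_le hu (coo_spec hb x) {n}
      rw [Finset.sum_singleton, norm_smul] at h
      have h0 : 0 < ‖e n‖ := norm_pos_iff.2 (ne_zero hb n)
      show ‖coo hb x n‖ ≤ _
      rw [inv_mul_eq_div, le_div_iff₀ h0]
      exact h)

lemma phi_apply (hb : ∀ x : X, ∃! a : ℕ → ℝ, HasSum (fun n => a n • e n) x)
    (hu : Unc e) (n : ℕ) (x : X) : phi hb hu n x = coo hb x n := rfl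

/-- truncation -/
noncomputable def trunc (hb : ∀ x : X, ∃! a : ℕ → ℝ, HasSum (fun n => a n • e n) x) (x : X)
    (N : ℕ) : ℕ →₀ ℝ :=
  Finsupp.onFinset (Finset.range N) (fun n => if n < N then coo hb x n else 0)
    (fun n hn => by
      rw [Finset.mem_range]
      by_contra h
      exact hn (if_neg h))

lemma trunc_apply (hb : ∀ x : X, ∃! a : ℕ → ℝ, HasSum (fun n => a n • e n) x) (x : X)
    (N n : ℕ) : trunc hb x N n = if n < N then coo hb x n else 0 := rfl

lemma L_trunc (hb : ∀ x : X, ∃! a : ℕ → ℝ, HasSum (fun n => a n • e n) x) (x : X)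
    (N : ℕ) : L e (trunc hb x N) = ∑ n ∈ Finset.range N, coo hb x n • e n := by
  rw [L_apply, Finset.sum_subset (s₁ := (trunc hb x N).support) (s₂ := Finset.range N)]
  · refine Finset.sum_congr rfl fun n hn => ?_
    rw [trunc_apply, if_pos (Finset.mem_range.1 hn)]
  · intro n hn
    rw [Finsupp.mem_support_iff, trunc_apply] at hn
    rw [Finset.mem_range]
    by_contra h
    exact hn (if_neg h)
  · intro n _ hn
    rw [Finsupp.notMem_support_iff.1 hn, zero_smul]

lemma norm_L_trunc (hb : ∀ x : X, ∃! a : ℕ → ℝ, HasSum (fun n => a n • e n) x) (hu : Unc e)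
    (x : X) (N : ℕ) : ‖L e (trunc hb x N)‖ ≤ ‖x‖ := by
  rw [L_trunc]
  exact partial_le hu (coo_spec hb x) _

lemma tendsto_trunc (hb : ∀ x : X, ∃! a : ℕ → ℝ, HasSum (fun n => a n • e n) x) (x : X) :
    Tendsto (fun N => L e (trunc hb x N)) atTop (𝓝 x) := by
  simp only [L_trunc]
  exact (coo_spec hb x).tendsto_sum_nat

/-- the coordinate boxes -/
def W (hb : ∀ x : X, ∃! a : ℕ → ℝ, HasSum (fun n => a n • e n) x) (hu : Unc e)
    (j : (Σ N : ℕ, (Fin N → ℚ)) × ℕ) : Set (WeakSpace ℝ X) :=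
  {y | ∀ n : Fin j.1.1, |phi hb hu n ((toWeakSpace ℝ X).symm y) - (j.1.2 n : ℝ)| < 1 / ((j.2 : ℝ) + 1)}

lemma isOpen_W (hb : ∀ x : X, ∃! a : ℕ → ℝ, HasSum (fun n => a n • e n) x) (hu : Unc e)
    (j : (Σ N : ℕ, (Fin N → ℚ)) × ℕ) : IsOpen (W hb hu j) := by
  have h1 : W hb hu j = ⋂ n : Fin j.1.1, {y : WeakSpace ℝ X |
      |phi hb hu n ((toWeakSpace ℝ X).symm y) - (j.1.2 n : ℝ)| < 1 / ((j.2 : ℝ) + 1)} := by
    ext y
    simp [W]
  rw [h1]
  refine isOpen_iInter_of_finite fun n => ?_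
  have h2 : Continuous (fun y : WeakSpace ℝ X => phi hb hu n ((toWeakSpace ℝ X).symm y)) :=
    WeakBilin.eval_continuous (topDualPairing ℝ X).flip (phi hb hu n)
  exact isOpen_lt (h2.sub continuous_const).abs continuous_const

/-- description of weak neighbourhoods by finitely many functionals -/
lemma weak_nbhd {V : Set (WeakSpace ℝ X)} (hV : IsOpen V) {x : X}
    (hx : toWeakSpace ℝ X x ∈ V) :
    ∃ (I : Finset (X →L[ℝ] ℝ)) (ε : ℝ), 0 < ε ∧
      ∀ y : X, (∀ f ∈ I, |f (y - x)| < ε) → toWeakSpace ℝ X y ∈ V := by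
  classical
  obtain ⟨t, ht, rfl⟩ := isOpen_induced_iff.1 hV
  have hx' : (fun f : X →L[ℝ] ℝ => f x) ∈ t := hx
  obtain ⟨I, u, hu, hI⟩ := isOpen_pi_iff.1 ht _ hx'
  have h1 : ∀ f : {f // f ∈ I}, ∃ r : ℝ, 0 < r ∧ Metric.ball (f.1 x) r ⊆ u f.1 := fun f =>
    Metric.isOpen_iff.1 (hu f.1 f.2).1 _ (hu f.1 f.2).2
  choose r hr0 hr using h1
  obtain ⟨ε, hε0, hε⟩ : ∃ ε : ℝ, 0 < ε ∧ ∀ f, ε < r f := by
    have h2 : ∀ᶠ ε in 𝓝[>] (0 : ℝ), ∀ f, ε < r f :=
      eventually_all.2 fun f => mem_nhdsWithin_of_mem_nhds (Iio_mem_nhds (hr0 f))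
    have h3 : ∀ᶠ ε in 𝓝[>] (0 : ℝ), 0 < ε := eventually_mem_nhdsWithin
    exact (h3.and h2).exists
  refine ⟨I, ε, hε0, fun y hy => ?_⟩
  show (fun f : X →L[ℝ] ℝ => f y) ∈ t
  apply hI
  intro f hf
  apply hr ⟨f, hf⟩
  rw [Metric.mem_ball, Real.dist_eq, ← map_sub]
  exact (hy f hf).trans (hε ⟨f, hf⟩)

/-- every weak neighbourhood of a point of the ball contains a coordinate box meeting the ball -/
lemma exists_W (hb : ∀ x : X, ∃! a : ℕ → ℝ, HasSum (fun n => a n • e n) x) (hu : Unc e)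
    {V : Set (WeakSpace ℝ X)} (hV : IsOpen V)
    (hne : (V ∩ (toWeakSpace ℝ X) '' Metric.closedBall (0 : X) 1).Nonempty) :
    ∃ j, (W hb hu j ∩ (toWeakSpace ℝ X) '' Metric.closedBall (0 : X) 1).Nonempty ∧
      W hb hu j ∩ (toWeakSpace ℝ X) '' Metric.closedBall (0 : X) 1 ⊆ V := by
  classical
  obtain ⟨_, hx₀V, x₀, hx₀, rfl⟩ := hne
  rw [mem_closedBall_zero_iff] at hx₀
  obtain ⟨I, ε, hε, hI⟩ := weak_nbhd hV hx₀V
  set f : {f // f ∈ I} → X →L[ℝ] ℝ := fun f => f.1 with hf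
  obtain ⟨M, hM⟩ : ∃ M : ℕ, ∀ i, |f i (L e (trunc hb x₀ M) - x₀)| ≤ (ε / 2) / 4 := by
    have h1 : ∀ᶠ M in atTop, ∀ i, |f i (L e (trunc hb x₀ M) - x₀)| ≤ (ε / 2) / 4 := by
      refine eventually_all.2 fun i => ?_
      have h2 : Tendsto (fun M => |f i (L e (trunc hb x₀ M) - x₀)|) atTop (𝓝 0) := by
        have h3 : Tendsto (fun M => L e (trunc hb x₀ M) - x₀) atTop (𝓝 0) := by
          simpa using (tendsto_trunc hb x₀).sub_const x₀
        have h4 := (((f i).continuous.tendsto 0).comp h3).abs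
        simpa using h4
      exact h2.eventually_le_const (by positivity)
    exact h1.exists
  obtain ⟨a, ha, N, δ, hδ, hcore⟩ := core f hu x₀ (half_pos hε) (trunc hb x₀ M)
    ((norm_L_trunc hb hu x₀ M).trans hx₀) hM
  obtain ⟨k, hk⟩ := exists_nat_one_div_lt (half_pos hδ)
  have hq : ∀ n : Fin N, ∃ q : ℚ, |a n - (q : ℝ)| < 1 / ((k : ℝ) + 1) := by
    intro n
    obtain ⟨q, hq1, hq2⟩ := exists_rat_btwn (show a n < a n + 1 / ((k : ℝ) + 1) by
      have : (0 : ℝ) < 1 / ((k : ℝ) + 1) := by positivity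
      linarith)
    refine ⟨q, ?_⟩
    rw [abs_lt]
    constructor <;> linarith
  choose q hq using hq
  refine ⟨(⟨N, q⟩, k), ⟨toWeakSpace ℝ X (L e a), ?_, L e a, ?_, rfl⟩, ?_⟩
  · intro n
    show |phi hb hu n (L e a) - (q n : ℝ)| < 1 / ((k : ℝ) + 1)
    rw [phi_apply, coo_L]
    exact hq n
  · rw [mem_closedBall_zero_iff]
    exact ha
  · rintro _ ⟨hyW, y, hy, rfl⟩
    rw [mem_closedBall_zero_iff] at hy
    have hyW' : ∀ n : Fin N, |phi hb hu n y - (q n : ℝ)| < 1 / ((k : ℝ) + 1) := hyW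
    apply hI
    intro g hg
    have h1 : ∀ᶠ M in atTop, |g (L e (trunc hb y M) - x₀)| ≤ ε / 2 := by
      filter_upwards [eventually_ge_atTop N] with M hM
      refine hcore (trunc hb y M) ((norm_L_trunc hb hu y M).trans hy) (fun n hn => ?_) ⟨g, hg⟩
      rw [trunc_apply, if_pos (hn.trans_le hM)]
      have h2 := hyW' ⟨n, hn⟩
      have h3 := hq ⟨n, hn⟩
      rw [phi_apply] at h2
      simp only at h2 h3
      have h4 : coo hb y n - a n = (coo hb y n - (q ⟨n, hn⟩ : ℝ)) - (a n - (q ⟨n, hn⟩ : ℝ)) := by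
        ring
      rw [h4]
      refine (abs_sub _ _).trans_lt ?_
      linarith
    have h2 : Tendsto (fun M => |g (L e (trunc hb y M) - x₀)|) atTop (𝓝 |g (y - x₀)|) :=
      ((g.continuous.tendsto _).comp ((tendsto_trunc hb y).sub_const x₀)).abs
    exact (le_of_tendsto h2 h1).trans_lt (half_lt_self hε)

theorem main (hb : ∀ x : X, ∃! a : ℕ → ℝ, HasSum (fun n => a n • e n) x) (hu : Unc e) :
    ∃ U : ℕ → Set (WeakSpace ℝ X),
        (∀ n, IsOpen (U n) ∧
            (U n ∩ (toWeakSpace ℝ X) '' Metric.closedBall (0 : X) 1).Nonempty) ∧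
        ∀ V : Set (WeakSpace ℝ X), IsOpen V →
          (V ∩ (toWeakSpace ℝ X) '' Metric.closedBall (0 : X) 1).Nonempty →
            ∃ n, U n ∩ (toWeakSpace ℝ X) '' Metric.closedBall (0 : X) 1 ⊆ V := by
  set J := {j : (Σ N : ℕ, (Fin N → ℚ)) × ℕ //
    (W hb hu j ∩ (toWeakSpace ℝ X) '' Metric.closedBall (0 : X) 1).Nonempty} with hJ
  have hne : Nonempty J := by
    obtain ⟨j, hj, -⟩ := exists_W hb hu isOpen_univ
      ⟨toWeakSpace ℝ X 0, Set.mem_univ _, 0, by simp, rfl⟩
    exact ⟨⟨j, hj⟩⟩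
  obtain ⟨s, hs⟩ := exists_surjective_nat J
  refine ⟨fun n => W hb hu (s n).1, fun n => ⟨isOpen_W hb hu _, (s n).2⟩, fun V hV hne => ?_⟩
  obtain ⟨j, hj1, hj2⟩ := exists_W hb hu hV hne
  obtain ⟨n, hn⟩ := hs ⟨j, hj1⟩
  refine ⟨n, ?_⟩
  simp only [hn]
  exact hj2

end coord

end Run7.h491.PiBase
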