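import Pool.Agent.Run7.h491.PiBase

/-!
# The stopping time space

A 1-unconditional sequence of nonzero vectors with dense span is a basis; the stopping time
space, its existence, and the application of `PiBase.main` to it.
-/

set_option autoImplicit false

open Filter Topology

namespace Run7.h491.PiBase

section dense

variable {X : Type} [NormedAddCommGroup X] [NormedSpace ℝ X]

lemma L_restrict {e : ℕ → X} (hu : Unc e) (c : ℕ →₀ ℝ) (s : Finset ℕ) :
    ‖∑ n ∈ s, c n • e n‖ ≤ ‖L e c‖ := by
  classical
  have h1 := L_filter hu c (fun n => n ∈ s)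
  have h2 : L e (c.filter (fun n => n ∈ s)) = ∑ n ∈ s, c n • e n := by
    rw [L_apply, Finset.sum_subset (s₂ := s)]
    · refine Finset.sum_congr rfl fun n hn => ?_
      rw [Finsupp.filter_apply_pos _ _ hn]
    · intro n hn
      rw [Finsupp.mem_support_iff] at hn
      by_contra h
      exact hn (Finsupp.filter_apply_neg _ _ h)
    · intro n _ hn
      rw [Finsupp.notMem_support_iff.1 hn, zero_smul]
  rwa [h2] at h1

lemma basis_of_dense {e : ℕ → X} (hu : Unc e) (h0 : ∀ n, e n ≠ 0)
    (hd : ∀ x : X, x ∈ closure (Set.range (L e))) :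
    ∀ x : X, ∃! a : ℕ → ℝ, HasSum (fun n => a n • e n) x := by
  classical
  intro x
  obtain ⟨y, hy, hyx⟩ := mem_closure_iff_seq_limit.1 (hd x)
  choose b hb using hy
  have hbx : Tendsto (fun k => L e (b k)) atTop (𝓝 x) := by
    simpa only [hb] using hyx
  have hcoord : ∀ (c : ℕ →₀ ℝ) (n : ℕ), |c n| * ‖e n‖ ≤ ‖L e c‖ := by
    intro c n
    have h := L_restrict hu c {n}
    rwa [Finset.sum_singleton, norm_smul, Real.norm_eq_abs] at h
  have hlim : ∀ n, ∃ r : ℝ, Tendsto (fun k => b k n) atTop (𝓝 r) := by
    intro n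
    apply cauchySeq_tendsto_of_complete
    have hc : CauchySeq (fun k => L e (b k)) := hbx.cauchySeq
    rw [Metric.cauchySeq_iff] at hc ⊢
    intro ε hε
    have hn : 0 < ‖e n‖ := norm_pos_iff.2 (h0 n)
    obtain ⟨N, hN⟩ := hc (ε * ‖e n‖) (by positivity)
    refine ⟨N, fun k hk l hl => ?_⟩
    have h1 := hcoord (b k - b l) n
    rw [map_sub, ← dist_eq_norm] at h1
    have h2 := h1.trans_lt (hN k hk l hl)
    have h3 := lt_of_mul_lt_mul_right h2 hn.le
    rwa [Finsupp.sub_apply, ← Real.dist_eq] at h3
  choose a ha using hlim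
  have key : ∀ (s : Finset ℕ) (k : ℕ), ‖∑ n ∈ s, (a n - b k n) • e n‖ ≤ ‖x - L e (b k)‖ := by
    intro s k
    have h1 : Tendsto (fun l => ‖∑ n ∈ s, (b l n - b k n) • e n‖) atTop
        (𝓝 ‖∑ n ∈ s, (a n - b k n) • e n‖) := by
      refine Tendsto.norm (tendsto_finsetSum _ fun n _ => ?_)
      exact ((ha n).sub_const _).smul_const _
    have h2 : Tendsto (fun l => ‖L e (b l) - L e (b k)‖) atTop (𝓝 ‖x - L e (b k)‖) :=
      (hbx.sub_const _).norm
    refine le_of_tendsto_of_tendsto' h1 h2 fun l => ?_
    have h3 := L_restrict hu (b l - b k) s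
    rwa [map_sub] at h3
  refine ⟨a, ?_, ?_⟩
  · show Tendsto (fun s : Finset ℕ => ∑ n ∈ s, a n • e n) atTop (𝓝 x)
    rw [Metric.tendsto_nhds]
    intro ε hε
    have h1 : Tendsto (fun k => ‖x - L e (b k)‖) atTop (𝓝 0) := by
      have := (tendsto_const_nhds (x := x)).sub hbx
      simpa using this.norm
    obtain ⟨k, hk⟩ := ((tendsto_order.1 h1).2 (ε / 2) (by linarith)).exists
    filter_upwards [eventually_ge_atTop (b k).support] with s hs
    rw [dist_eq_norm]
    have h2 : ∑ n ∈ s, b k n • e n = L e (b k) := by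
      rw [L_apply]
      symm
      refine Finset.sum_subset hs fun n _ hn => ?_
      rw [Finsupp.notMem_support_iff.1 hn, zero_smul]
    have h3 : ∑ n ∈ s, a n • e n - x = ∑ n ∈ s, (a n - b k n) • e n - (x - L e (b k)) := by
      simp only [sub_smul, Finset.sum_sub_distrib]
      rw [h2]
      abel
    rw [h3]
    calc _ ≤ ‖∑ n ∈ s, (a n - b k n) • e n‖ + ‖x - L e (b k)‖ := norm_sub_le _ _
      _ ≤ ‖x - L e (b k)‖ + ‖x - L e (b k)‖ := by gcongr; exact key s k
      _ < ε := by linarith
  · intro a' ha'
    have ha1 : HasSum (fun n => a n • e n) x := by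
      show Tendsto (fun s : Finset ℕ => ∑ n ∈ s, a n • e n) atTop (𝓝 x)
      rw [Metric.tendsto_nhds]
      intro ε hε
      have h1 : Tendsto (fun k => ‖x - L e (b k)‖) atTop (𝓝 0) := by
        have := (tendsto_const_nhds (x := x)).sub hbx
        simpa using this.norm
      obtain ⟨k, hk⟩ := ((tendsto_order.1 h1).2 (ε / 2) (by linarith)).exists
      filter_upwards [eventually_ge_atTop (b k).support] with s hs
      rw [dist_eq_norm]
      have h2 : ∑ n ∈ s, b k n • e n = L e (b k) := by
        rw [L_apply]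
        symm
        refine Finset.sum_subset hs fun n _ hn => ?_
        rw [Finsupp.notMem_support_iff.1 hn, zero_smul]
      have h3 : ∑ n ∈ s, a n • e n - x = ∑ n ∈ s, (a n - b k n) • e n - (x - L e (b k)) := by
        simp only [sub_smul, Finset.sum_sub_distrib]
        rw [h2]
        abel
      rw [h3]
      calc _ ≤ ‖∑ n ∈ s, (a n - b k n) • e n‖ + ‖x - L e (b k)‖ := norm_sub_le _ _
        _ ≤ ‖x - L e (b k)‖ + ‖x - L e (b k)‖ := by gcongr; exact key s k
        _ < ε := by linarith
    have h4 : HasSum (fun n => (a' - a) n • e n) (0 : X) := by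
      simpa [sub_smul] using ha'.sub ha1
    funext n
    have h5 := partial_le hu h4 {n}
    rw [Finset.sum_singleton, norm_zero, norm_smul] at h5
    have hn : 0 < ‖e n‖ := norm_pos_iff.2 (h0 n)
    have h6 : ‖(a' - a) n‖ = 0 := by
      have := norm_nonneg ((a' - a) n)
      nlinarith
    have h7 := norm_eq_zero.1 h6
    simpa [sub_eq_zero] using h7

end dense

end Run7.h491.PiBase

namespace Run7.h491.ST

open Run7.h491.PiBase

/-- The nodes of the infinite binary tree are the finite 0-1 sequences, ordered by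
by being an initial segment.  An antichain is a set of pairwise incomparable nodes. -/
def Antichain (A : Set (List Bool)) : Prop := ∀ s ∈ A, ∀ t ∈ A, s <+: t → s = t

open Classical in
/-- the sum of `|a_t|` over the nodes `t` of `A` -/
noncomputable def sumOn (a : List Bool →₀ ℝ) (A : Set (List Bool)) : ℝ :=
  a.sum fun t r => if t ∈ A then |r| else 0

/-- the stopping time norm of a finitely supported family -/
noncomputable def stNorm (a : List Bool →₀ ℝ) : ℝ :=
  ⨆ A : {A : Set (List Bool) // Antichain A}, sumOn a A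

/-- `X` with the vectors `e_t` is (a copy of) the stopping time space: the completion of the
finitely supported families under the stopping time norm, with its unit vectors. -/
structure IsStoppingTimeSpace (X : Type) [NormedAddCommGroup X] [NormedSpace ℝ X]
    (e : List Bool → X) : Prop where
  norm_eq : ∀ a : List Bool →₀ ℝ, ‖a.sum fun t r => r • e t‖ = stNorm a
  dense : (Submodule.span ℝ (Set.range e)).topologicalClosure = ⊤

lemma sumOn_nonneg (a : List Bool →₀ ℝ) (A : Set (List Bool)) : 0 ≤ sumOn a A := by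
  classical
  refine Finset.sum_nonneg fun t _ => ?_
  dsimp only
  split_ifs <;> positivity

lemma sumOn_le (a : List Bool →₀ ℝ) (A : Set (List Bool)) :
    sumOn a A ≤ a.sum fun _ r => |r| := by
  classical
  refine Finset.sum_le_sum fun t _ => ?_
  dsimp only
  split_ifs
  · exact le_rfl
  · positivity

lemma bdd (a : List Bool →₀ ℝ) :
    BddAbove (Set.range fun A : {A : Set (List Bool) // Antichain A} => sumOn a A) :=
  ⟨a.sum fun _ r => |r|, by rintro _ ⟨A, rfl⟩; exact sumOn_le a A⟩

instance : Nonempty {A : Set (List Bool) // Antichain A} :=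
  ⟨⟨∅, fun s hs => absurd hs (Set.notMem_empty s)⟩⟩

lemma stNorm_nonneg (a : List Bool →₀ ℝ) : 0 ≤ stNorm a :=
  Real.iSup_nonneg fun A => sumOn_nonneg a A

lemma sumOn_eq (a : List Bool →₀ ℝ) (A : Set (List Bool)) (s : Finset (List Bool))
    (hs : a.support ⊆ s) [DecidablePred (· ∈ A)] :
    sumOn a A = ∑ t ∈ s, if t ∈ A then |a t| else 0 := by
  classical
  unfold sumOn
  rw [Finsupp.sum_of_support_subset a hs _ (by intro i _; simp)]
  refine Finset.sum_congr rfl fun t _ => ?_
  split_ifs <;> rfl

lemma stNorm_add (a b : List Bool →₀ ℝ) : stNorm (a + b) ≤ stNorm a + stNorm b := by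
  classical
  refine ciSup_le fun A => ?_
  have h : sumOn (a + b) A ≤ sumOn a A + sumOn b A := by
    rw [sumOn_eq (a + b) A (a.support ∪ b.support) Finsupp.support_add,
      sumOn_eq a A (a.support ∪ b.support) Finset.subset_union_left,
      sumOn_eq b A (a.support ∪ b.support) Finset.subset_union_right, ← Finset.sum_add_distrib]
    refine Finset.sum_le_sum fun t _ => ?_
    split_ifs
    · exact abs_add_le _ _
    · simp
  exact h.trans (add_le_add (le_ciSup (bdd a) A) (le_ciSup (bdd b) A))

lemma stNorm_smul (c : ℝ) (a : List Bool →₀ ℝ) : stNorm (c • a) = |c| * stNorm a := by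
  classical
  have h : ∀ A : Set (List Bool), sumOn (c • a) A = |c| * sumOn a A := by
    intro A
    rw [sumOn_eq (c • a) A a.support (Finsupp.support_smul), sumOn_eq a A a.support subset_rfl,
      Finset.mul_sum]
    refine Finset.sum_congr rfl fun t _ => ?_
    split_ifs
    · rw [Finsupp.smul_apply, smul_eq_mul, abs_mul]
    · simp
  unfold stNorm
  simp only [h]
  rw [Real.mul_iSup_of_nonneg (abs_nonneg c)]

lemma le_stNorm (a : List Bool →₀ ℝ) (t : List Bool) : |a t| ≤ stNorm a := by
  classical
  have hA : Antichain {t} := by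
    intro s hs u hu _
    rw [Set.mem_singleton_iff] at hs hu
    rw [hs, hu]
  refine le_trans ?_ (le_ciSup (bdd a) ⟨{t}, hA⟩)
  show |a t| ≤ sumOn a {t}
  rw [sumOn_eq a {t} (insert t a.support) (Finset.subset_insert _ _)]
  refine le_trans ?_ (Finset.single_le_sum (f := fun u => if u ∈ ({t} : Set (List Bool)) then |a u| else 0)
    (fun u _ => by split_ifs <;> positivity) (Finset.mem_insert_self t a.support))
  simp

lemma stNorm_congr {a b : List Bool →₀ ℝ} (h : ∀ t, |a t| = |b t|) : stNorm a = stNorm b := by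
  classical
  have hs : a.support = b.support := by
    ext n
    rw [Finsupp.mem_support_iff, Finsupp.mem_support_iff, ← abs_pos, h n, abs_pos]
  unfold stNorm
  congr 1
  funext A
  rw [sumOn_eq a A a.support subset_rfl, sumOn_eq b A a.support (by rw [hs])]
  refine Finset.sum_congr rfl fun t _ => ?_
  rw [h t]

lemma stNorm_eq_zero {a : List Bool →₀ ℝ} (h : stNorm a = 0) : a = 0 := by
  ext t
  have := le_stNorm a t
  rw [h] at this
  simpa using this

/-! ## existence -/

/-- the finitely supported families -/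
def Pre : Type := List Bool →₀ ℝ

noncomputable instance : AddCommGroup Pre := inferInstanceAs (AddCommGroup (List Bool →₀ ℝ))
noncomputable instance : Module ℝ Pre := inferInstanceAs (Module ℝ (List Bool →₀ ℝ))
noncomputable instance : Norm Pre := ⟨fun a => stNorm (a : List Bool →₀ ℝ)⟩

lemma preCore : NormedSpace.Core ℝ Pre where
  norm_nonneg a := stNorm_nonneg a
  norm_smul c a := stNorm_smul c a
  norm_triangle a b := stNorm_add a b
  norm_eq_zero_iff a := ⟨fun h => stNorm_eq_zero h, fun h => by
    subst h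
    show stNorm (0 : List Bool →₀ ℝ) = 0
    have := stNorm_smul 0 0
    simpa using this⟩

noncomputable instance : NormedAddCommGroup Pre := NormedAddCommGroup.ofCore preCore
noncomputable instance : NormedSpace ℝ Pre := NormedSpace.ofCore preCore

/-- a finitely supported family as an element of `Pre` -/
def toPre (a : List Bool →₀ ℝ) : Pre := a

/-- the unit vectors -/
noncomputable def unitV (t : List Bool) : Pre := (Finsupp.single t (1 : ℝ) : List Bool →₀ ℝ)

lemma pre_sum (a : List Bool →₀ ℝ) : (a.sum fun t r => r • unitV t) = toPre a := by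
  show (a.sum fun t r => r • (Finsupp.single t (1 : ℝ) : List Bool →₀ ℝ)) = a
  simp

theorem exists_model : ∃ (X : Type) (_ : NormedAddCommGroup X) (_ : NormedSpace ℝ X)
    (_ : CompleteSpace X) (e : List Bool → X), IsStoppingTimeSpace X e := by
  refine ⟨UniformSpace.Completion Pre, inferInstance, inferInstance, inferInstance,
    fun t => (unitV t : UniformSpace.Completion Pre), ?_, ?_⟩
  · intro a
    have h : (a.sum fun t r => r • ((unitV t : Pre) : UniformSpace.Completion Pre)) =
        (toPre a : UniformSpace.Completion Pre) := by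
      have h1 := congrArg (UniformSpace.Completion.toComplₗᵢ (𝕜 := ℝ) (E := Pre)) (pre_sum a)
      rw [Finsupp.sum, map_sum] at h1
      simp only [map_smul] at h1
      exact h1
    rw [h, UniformSpace.Completion.norm_coe]
    rfl
  · rw [Submodule.eq_top_iff']
    intro x
    have hx : x ∈ closure (Set.range ((↑) : Pre → UniformSpace.Completion Pre)) :=
      UniformSpace.Completion.denseRange_coe x
    refine closure_mono ?_ hx
    rintro _ ⟨a, rfl⟩
    have h1 := congrArg (UniformSpace.Completion.toComplₗᵢ (𝕜 := ℝ) (E := Pre)) (pre_sum a)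
    rw [Finsupp.sum, map_sum] at h1
    simp only [map_smul] at h1
    have h2 : (a : UniformSpace.Completion Pre) =
      UniformSpace.Completion.toComplₗᵢ (𝕜 := ℝ) (E := Pre) (toPre a) := rfl
    show (a : UniformSpace.Completion Pre) ∈ Submodule.span ℝ _
    rw [h2, ← h1]
    refine Submodule.sum_mem _ fun t _ => Submodule.smul_mem _ _ (Submodule.subset_span ⟨t, rfl⟩)

/-! ## the basis -/

section basis

variable {X : Type} [NormedAddCommGroup X] [NormedSpace ℝ X] {e : List Bool → X}

/-- an enumeration of the nodes -/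
noncomputable def en : ℕ ≃ List Bool :=
  (@Denumerable.eqv _ (Denumerable.ofEncodableOfInfinite (List Bool))).symm

lemma norm_sum (h : IsStoppingTimeSpace X e) (s : Finset ℕ) (a : ℕ → ℝ) :
    ‖∑ n ∈ s, a n • e (en n)‖ = stNorm (∑ n ∈ s, Finsupp.single (en n) (a n)) := by
  classical
  rw [← h.norm_eq]
  congr 1
  rw [← Finsupp.sum_finsetSum_index (by intro t; simp) (by intro t r r'; rw [add_smul])]
  refine Finset.sum_congr rfl fun n _ => ?_
  rw [Finsupp.sum_single_index (by simp)]

lemma sum_apply_abs (s : Finset ℕ) (a ε : ℕ → ℝ) (hε : ∀ n, ε n = 1 ∨ ε n = -1)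
    (t : List Bool) : |(∑ n ∈ s, Finsupp.single (en n) (ε n * a n) : List Bool →₀ ℝ) t| =
      |(∑ n ∈ s, Finsupp.single (en n) (a n) : List Bool →₀ ℝ) t| := by
  classical
  have h : ∀ c : ℕ → ℝ, (∑ n ∈ s, Finsupp.single (en n) (c n) : List Bool →₀ ℝ) t =
      if en.symm t ∈ s then c (en.symm t) else 0 := by
    intro c
    rw [Finsupp.finsetSum_apply]
    have h1 : ∀ n ∈ s, (Finsupp.single (en n) (c n) : List Bool →₀ ℝ) t =
        if n = en.symm t then c (en.symm t) else 0 := by
      intro n _
      rw [Finsupp.single_apply]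
      by_cases h2 : en n = t
      · have h3 : n = en.symm t := by rw [← h2, Equiv.symm_apply_apply]
        rw [if_pos h2, if_pos h3, ← h3]
      · have h3 : n ≠ en.symm t := fun h3 => h2 (by rw [h3, Equiv.apply_symm_apply])
        rw [if_neg h2, if_neg h3]
    rw [Finset.sum_congr rfl h1, Finset.sum_ite_eq']
  rw [h, h]
  split_ifs
  · rcases hε (en.symm t) with h1 | h1 <;> rw [h1] <;> simp
  · rfl

lemma unc (h : IsStoppingTimeSpace X e) : Unc (fun n => e (en n)) := by
  intro s a ε hε
  show ‖∑ n ∈ s, (ε n * a n) • e (en n)‖ ≤ ‖∑ n ∈ s, a n • e (en n)‖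
  rw [norm_sum h, norm_sum h, stNorm_congr (sum_apply_abs s a ε hε)]

lemma ne_zero (h : IsStoppingTimeSpace X e) (n : ℕ) : e (en n) ≠ 0 := by
  intro h0
  have h1 := h.norm_eq (Finsupp.single (en n) 1)
  rw [Finsupp.sum_single_index (by simp), h0, smul_zero, norm_zero] at h1
  have h2 := stNorm_eq_zero h1.symm
  have h3 := Finsupp.single_eq_zero.1 h2
  norm_num at h3

lemma dense' (h : IsStoppingTimeSpace X e) (x : X) :
    x ∈ closure (Set.range (L fun n => e (en n))) := by
  have hx : x ∈ (Submodule.span ℝ (Set.range e)).topologicalClosure := by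
    rw [h.dense]; exact Submodule.mem_top
  have h1 : (Submodule.span ℝ (Set.range e) : Submodule ℝ X) ≤
      LinearMap.range (L fun n => e (en n)) := by
    rw [Submodule.span_le]
    rintro _ ⟨t, rfl⟩
    refine ⟨Finsupp.single (en.symm t) 1, ?_⟩
    rw [L, Finsupp.linearCombination_single, one_smul, Equiv.apply_symm_apply]
  exact closure_mono (fun y hy => h1 hy) hx

theorem main [CompleteSpace X] (h : IsStoppingTimeSpace X e) :
    ∃ U : ℕ → Set (WeakSpace ℝ X),
        (∀ n, IsOpen (U n) ∧
            (U n ∩ (toWeakSpace ℝ X) '' Metric.closedBall (0 : X) 1).Nonempty) ∧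
        ∀ V : Set (WeakSpace ℝ X), IsOpen V →
          (V ∩ (toWeakSpace ℝ X) '' Metric.closedBall (0 : X) 1).Nonempty →
            ∃ n, U n ∩ (toWeakSpace ℝ X) '' Metric.closedBall (0 : X) 1 ⊆ V :=
  Run7.h491.PiBase.main (basis_of_dense (unc h) (ne_zero h) (dense' h)) (unc h)

end basis

end Run7.h491.ST
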