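import Mathlib

/-!
Two consequences of uniform convexity: an upper estimate for basic sequences and asymptotic
uniform smoothness of the dual norm along weak-star null sequences.
-/

set_option autoImplicit false

namespace Run7.h491

theorem exists_split (A : Finset ℕ) (j : ℕ) (hj : j ≤ A.card) :
    ∃ n, (A.filter (· < n)).card = j := by
  classical
  have hex : ∃ n, j ≤ (A.filter (· < n)).card := by
    refine ⟨A.sup id + 1, ?_⟩
    have : A.filter (· < A.sup id + 1) = A := by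
      refine Finset.filter_true_of_mem fun x hx => ?_
      have : x ≤ A.sup id := Finset.le_sup (f := id) hx
      omega
    rw [this]
    exact hj
  obtain ⟨n, hn, hmin⟩ : ∃ n, j ≤ (A.filter (· < n)).card ∧
      ∀ m < n, ¬ j ≤ (A.filter (· < m)).card :=
    ⟨Nat.find hex, Nat.find_spec hex, fun m hm => Nat.find_min hex hm⟩
  refine ⟨n, le_antisymm ?_ hn⟩
  cases n with
  | zero => simp
  | succ n =>
    have h1 := hmin n (Nat.lt_succ_self n)
    have h2 : A.filter (· < n + 1) ⊆ insert n (A.filter (· < n)) := by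
      intro x hx
      rw [Finset.mem_filter] at hx
      rw [Finset.mem_insert, Finset.mem_filter]
      have := hx.2
      by_cases hxn : x = n
      · exact Or.inl hxn
      · exact Or.inr ⟨hx.1, by omega⟩
    have h3 := (Finset.card_le_card h2).trans (Finset.card_insert_le _ _)
    omega

section
variable {Z : Type*} [NormedAddCommGroup Z] [NormedSpace ℝ Z]

/-- `z` is a basic sequence with constant `K`. -/
def Basic (K : ℝ) (z : ℕ → Z) : Prop :=
  ∀ n, ∀ u ∈ Submodule.span ℝ (z '' {i | i < n}), ∀ w ∈ Submodule.span ℝ (z '' {i | n ≤ i}),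
    ‖u‖ ≤ K * ‖u + w‖

theorem sum_bound [UniformConvexSpace Z] (z : ℕ → Z) (hz : ∀ n, ‖z n‖ ≤ 1) (K : ℝ) (hK : 0 < K)
    (hb : Basic K z) :
    ∃ ρ : ℝ, 0 < ρ ∧ ρ < 2 ∧ ∀ k, ∀ A : Finset ℕ, A.card = 2 ^ k → ∀ c : ℕ → ℝ, (∀ i, |c i| ≤ 1) →
      ‖∑ i ∈ A, c i • z i‖ ≤ ρ ^ k := by
  classical
  obtain ⟨δ, hδ, H⟩ := exists_forall_closed_ball_dist_add_le_two_sub Z
    (show 0 < 1 / (2 * K) by positivity)
  refine ⟨max (2 - δ) (3 / 2), lt_max_of_lt_right (by norm_num), max_lt (by linarith) (by norm_num),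
    fun k => ?_⟩
  set ρ := max (2 - δ) (3 / 2) with hρ
  have hρ0 : 0 < ρ := lt_max_of_lt_right (by norm_num)
  induction k with
  | zero =>
    intro A hA c hc
    rw [pow_zero] at hA
    obtain ⟨a, rfl⟩ := Finset.card_eq_one.1 hA
    rw [Finset.sum_singleton, pow_zero, norm_smul, Real.norm_eq_abs]
    exact mul_le_one₀ (hc a) (norm_nonneg _) (hz a)
  | succ k ih =>
    intro A hA c hc
    obtain ⟨n, hn⟩ := exists_split A (2 ^ k) (by rw [hA, pow_succ]; omega)
    have hn' : (A.filter (fun i => ¬ i < n)).card = 2 ^ k := by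
      have := Finset.card_filter_add_card_filter_not (s := A) (fun i => i < n)
      rw [pow_succ] at hA
      omega
    have hu := ih _ hn c hc
    have hw := ih _ hn' c hc
    rw [← Finset.sum_filter_add_sum_filter_not A (fun i => i < n)]
    set u := ∑ i ∈ A.filter (fun i => i < n), c i • z i with hu'
    set w := ∑ i ∈ A.filter (fun i => ¬ i < n), c i • z i with hw'
    have humem : u ∈ Submodule.span ℝ (z '' {i | i < n}) := by
      refine Submodule.sum_mem _ fun i hi => Submodule.smul_mem _ _ (Submodule.subset_span ?_)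
      exact ⟨i, (Finset.mem_filter.1 hi).2, rfl⟩
    have hwmem : w ∈ Submodule.span ℝ (z '' {i | n ≤ i}) := by
      refine Submodule.sum_mem _ fun i hi => Submodule.smul_mem _ _ (Submodule.subset_span ?_)
      exact ⟨i, not_lt.1 (Finset.mem_filter.1 hi).2, rfl⟩
    have hsep : ‖u‖ ≤ K * ‖u - w‖ := by
      have := hb n u humem (-w) (Submodule.neg_mem _ hwmem)
      rwa [← sub_eq_add_neg] at this
    set R := ρ ^ k with hR
    have hR0 : 0 < R := pow_pos hρ0 k
    rw [pow_succ, ← hR]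
    by_cases hcase : ‖u‖ < R / 2
    · calc ‖u + w‖ ≤ ‖u‖ + ‖w‖ := norm_add_le _ _
        _ ≤ R / 2 + R := by linarith
        _ = R * (3 / 2) := by ring
        _ ≤ R * ρ := by
          refine mul_le_mul_of_nonneg_left ?_ hR0.le
          exact le_max_right _ _
    · push Not at hcase
      have hs : ∀ v : Z, ‖v‖ ≤ R → ‖R⁻¹ • v‖ ≤ 1 := by
        intro v hv
        rw [norm_smul, norm_inv, Real.norm_of_nonneg hR0.le, inv_mul_le_iff₀ hR0, mul_one]
        exact hv
      have h1 : 1 / (2 * K) ≤ ‖R⁻¹ • u - R⁻¹ • w‖ := by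
        rw [← smul_sub, norm_smul, norm_inv, Real.norm_of_nonneg hR0.le, le_inv_mul_iff₀ hR0,
          ← div_eq_mul_one_div, div_le_iff₀ (by positivity)]
        linarith
      have h2 := H (hs u hu) (hs w hw) h1
      rw [← smul_add, norm_smul, norm_inv, Real.norm_of_nonneg hR0.le, inv_mul_le_iff₀ hR0] at h2
      refine h2.trans (mul_le_mul_of_nonneg_left (le_max_left _ _) hR0.le)

theorem card_lt_of_gt {z : ℕ → Z} {ρ : ℝ}
    (H : ∀ k, ∀ A : Finset ℕ, A.card = 2 ^ k → ∀ c : ℕ → ℝ, (∀ i, |c i| ≤ 1) →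
      ‖∑ i ∈ A, c i • z i‖ ≤ ρ ^ k) (f : StrongDual ℝ Z) (hf : ‖f‖ ≤ 1) (k : ℕ) (A : Finset ℕ)
    (hA : ∀ i ∈ A, (ρ / 2) ^ k < |f (z i)|) : A.card < 2 ^ k := by
  by_contra hcon
  push Not at hcon
  obtain ⟨B, hBA, hB⟩ := Finset.exists_subset_card_eq hcon
  have h1 := H k B hB (fun i => SignType.sign (f (z i))) (fun i => by
    rcases lt_trichotomy (f (z i)) 0 with h | h | h
    · simp [h]
    · simp [h]
    · simp [h])
  have h2 : |f (∑ i ∈ B, ((SignType.sign (f (z i)) : SignType) : ℝ) • z i)| ≤ ρ ^ k := by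
    rw [← Real.norm_eq_abs]
    refine (f.le_opNorm _).trans ?_
    calc ‖f‖ * ‖∑ i ∈ B, ((SignType.sign (f (z i)) : SignType) : ℝ) • z i‖ ≤
        1 * ‖∑ i ∈ B, ((SignType.sign (f (z i)) : SignType) : ℝ) • z i‖ :=
          mul_le_mul_of_nonneg_right hf (norm_nonneg _)
      _ ≤ ρ ^ k := by rw [one_mul]; exact h1
  have h3 : f (∑ i ∈ B, ((SignType.sign (f (z i)) : SignType) : ℝ) • z i) =
      ∑ i ∈ B, |f (z i)| := by
    rw [map_sum]
    refine Finset.sum_congr rfl fun i _ => ?_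
    rw [map_smul, smul_eq_mul, sign_mul_self]
  rw [h3] at h2
  have hBne : B.Nonempty := by
    rw [← Finset.card_pos, hB]
    positivity
  have h4 : ∑ i ∈ B, (ρ / 2) ^ k < ∑ i ∈ B, |f (z i)| :=
    Finset.sum_lt_sum_of_nonempty hBne fun i hi => hA i (hBA hi)
  rw [Finset.sum_const, hB, nsmul_eq_mul, div_pow] at h4
  have h5 : ((2 ^ k : ℕ) : ℝ) * (ρ ^ k / 2 ^ k) = ρ ^ k := by
    push_cast
    field_simp
  rw [h5] at h4
  exact absurd ((le_abs_self _).trans h2) (not_le.2 h4)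

/-- Upper estimate: the values of a functional on a basic sequence are `q`-summable. -/
theorem exists_lq [UniformConvexSpace Z] (z : ℕ → Z) (hz : ∀ n, ‖z n‖ ≤ 1) (K : ℝ) (hK : 0 < K)
    (hb : Basic K z) :
    ∃ q : ℕ, q ≠ 0 ∧ ∀ f : StrongDual ℝ Z, ‖f‖ ≤ 1 → ∀ F : Finset ℕ,
      ∑ n ∈ F, |f (z n)| ^ q ≤ 4 := by
  classical
  obtain ⟨ρ, hρ0, hρ2, H⟩ := sum_bound z hz K hK hb
  have hr0 : 0 < ρ / 2 := by positivity
  have hr1 : ρ / 2 < 1 := by linarith
  obtain ⟨q, hq⟩ := exists_pow_lt_of_lt_one (show (0 : ℝ) < 1 / 4 by norm_num) hr1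
  have hq0 : q ≠ 0 := by
    rintro rfl
    norm_num at hq
  refine ⟨q, hq0, fun f hf F => ?_⟩
  have ha1 : ∀ n, |f (z n)| ≤ 1 := by
    intro n
    rw [← Real.norm_eq_abs]
    exact (f.le_opNorm _).trans (mul_le_one₀ hf (norm_nonneg _) (hz n))
  have hex : ∀ n, ∃ k : ℕ, 0 < |f (z n)| → (ρ / 2) ^ (k + 1) < |f (z n)| ∧
      |f (z n)| ≤ (ρ / 2) ^ k := by
    intro n
    by_cases h : 0 < |f (z n)|
    · obtain ⟨k, hk⟩ := exists_nat_pow_near_of_lt_one h (ha1 n) hr0 hr1
      exact ⟨k, fun _ => hk⟩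
    · exact ⟨0, fun h' => absurd h' h⟩
  choose κ hκ using hex
  have e1 : ∑ n ∈ F, |f (z n)| ^ q = ∑ n ∈ F.filter (fun n => 0 < |f (z n)|), |f (z n)| ^ q := by
    rw [Finset.sum_filter]
    refine Finset.sum_congr rfl fun n _ => ?_
    by_cases h : 0 < |f (z n)|
    · rw [if_pos h]
    · rw [if_neg h]
      have : |f (z n)| = 0 := le_antisymm (not_lt.1 h) (abs_nonneg _)
      rw [this, zero_pow hq0]
  rw [e1]
  set G := F.filter (fun n => 0 < |f (z n)|) with hG
  have hGpos : ∀ n ∈ G, 0 < |f (z n)| := fun n hn => (Finset.mem_filter.1 hn).2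
  set N := G.sup κ + 1 with hN
  have hmap : ∀ n ∈ G, κ n ∈ Finset.range N := by
    intro n hn
    rw [Finset.mem_range]
    have : κ n ≤ G.sup κ := Finset.le_sup hn
    omega
  rw [← Finset.sum_fiberwise_of_maps_to hmap]
  have hfib : ∀ k ∈ Finset.range N, ∑ n ∈ G.filter (fun n => κ n = k), |f (z n)| ^ q ≤
      2 * (1 / 2 : ℝ) ^ k := by
    intro k _
    have hcard : (G.filter (fun n => κ n = k)).card < 2 ^ (k + 1) := by
      refine card_lt_of_gt H f hf (k + 1) _ fun i hi => ?_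
      rw [Finset.mem_filter] at hi
      have := (hκ i (hGpos i hi.1)).1
      rwa [hi.2] at this
    have hterm : ∀ n ∈ G.filter (fun n => κ n = k), |f (z n)| ^ q ≤ (1 / 4 : ℝ) ^ k := by
      intro n hn
      rw [Finset.mem_filter] at hn
      have h1 := (hκ n (hGpos n hn.1)).2
      rw [hn.2] at h1
      calc |f (z n)| ^ q ≤ ((ρ / 2) ^ k) ^ q := pow_le_pow_left₀ (abs_nonneg _) h1 q
        _ = ((ρ / 2) ^ q) ^ k := by rw [← pow_mul, ← pow_mul, mul_comm]
        _ ≤ (1 / 4 : ℝ) ^ k := pow_le_pow_left₀ (by positivity) hq.le k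
    calc ∑ n ∈ G.filter (fun n => κ n = k), |f (z n)| ^ q ≤
        ∑ n ∈ G.filter (fun n => κ n = k), (1 / 4 : ℝ) ^ k := Finset.sum_le_sum hterm
      _ = ((G.filter (fun n => κ n = k)).card : ℝ) * (1 / 4 : ℝ) ^ k := by
        rw [Finset.sum_const, nsmul_eq_mul]
      _ ≤ (2 : ℝ) ^ (k + 1) * (1 / 4 : ℝ) ^ k := by
        refine mul_le_mul_of_nonneg_right ?_ (by positivity)
        exact_mod_cast hcard.le
      _ = 2 * (1 / 2 : ℝ) ^ k := by
        rw [pow_succ, mul_comm ((2 : ℝ) ^ k) 2, mul_assoc, ← mul_pow]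
        norm_num
  calc ∑ k ∈ Finset.range N, ∑ n ∈ G.filter (fun n => κ n = k), |f (z n)| ^ q ≤
      ∑ k ∈ Finset.range N, 2 * (1 / 2 : ℝ) ^ k := Finset.sum_le_sum hfib
    _ = 2 * ∑ k ∈ Finset.range N, (1 / 2 : ℝ) ^ k := by rw [Finset.mul_sum]
    _ ≤ 2 * 2 := by
      refine mul_le_mul_of_nonneg_left (sum_geometric_two_le N) (by norm_num)
    _ = 4 := by norm_num

/-- Asymptotic uniform smoothness of the dual norm along weak-star null sequences. -/
theorem exists_aus [UniformConvexSpace Z] (g : ℕ → StrongDual ℝ Z) (D : ℝ)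
    (hg : ∀ n, ‖g n‖ ≤ D) (hg0 : ∀ y, Filter.Tendsto (fun n => g n y) Filter.atTop (nhds 0))
    (η : ℝ) (hη : 0 < η) :
    ∃ R : ℝ, 0 < R ∧ ∀ u : StrongDual ℝ Z, ∃ n₀, ∀ n ≥ n₀,
      ‖u + g n‖ ≤ max ‖u‖ R + η ∧ ‖u - g n‖ ≤ max ‖u‖ R + η := by
  have hD0 : 0 ≤ D := (norm_nonneg _).trans (hg 0)
  obtain ⟨δ, hδ, H⟩ := exists_forall_closed_ball_dist_add_le_two_sub Z
    (show 0 < η / (2 * (D + 1)) by positivity)
  set ε := η / (2 * (D + 1)) with hε
  have hε0 : 0 < ε := by positivity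
  have hDε : D * ε ≤ η / 2 := by
    have : (D + 1) * ε = η / 2 := by
      rw [hε]
      field_simp
    nlinarith
  set δ' := min δ 1 with hδ'
  have hδ'0 : 0 < δ' := lt_min hδ one_pos
  have hδ'1 : δ' ≤ 1 := min_le_right _ _
  set R₀ := 2 * D / δ' + 1 with hR₀
  have hR₀0 : 0 < R₀ := by positivity
  -- the main estimate
  have main : ∀ u : StrongDual ℝ Z, R₀ ≤ ‖u‖ → ∃ x : Z, ‖x‖ ≤ 1 ∧
      ∀ h : StrongDual ℝ Z, ‖h‖ ≤ D → |h x| ≤ η / 2 → ‖u + h‖ ≤ ‖u‖ + η := by
    intro u hu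
    have hu0 : 0 < ‖u‖ := hR₀0.trans_le hu
    -- a nearly norming vector
    obtain ⟨x, hx1, hx2⟩ : ∃ x : Z, ‖x‖ ≤ 1 ∧ ‖u‖ * (1 - δ' / 4) < u x := by
      have hlt : ‖u‖ * (1 - δ' / 4) < ‖u‖ := by
        have : ‖u‖ * (δ' / 4) > 0 := by positivity
        linarith
      obtain ⟨x, hx1, hx2⟩ := ContinuousLinearMap.exists_lt_apply_of_lt_opNorm u hlt
      rcases abs_cases (u x) with ⟨h, _⟩ | ⟨h, _⟩
      · exact ⟨x, hx1.le, by rwa [Real.norm_eq_abs, h] at hx2⟩
      · exact ⟨-x, by rw [norm_neg]; exact hx1.le, by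
          rw [Real.norm_eq_abs, h] at hx2
          rwa [map_neg]⟩
    refine ⟨x, hx1, fun h hh hhx => ?_⟩
    have hb : ∀ y : Z, ‖y‖ ≤ 1 → u y + h y ≤ ‖u‖ + η := by
      intro y hy
      have hhy : h y ≤ D := by
        refine (le_abs_self _).trans ?_
        rw [← Real.norm_eq_abs]
        refine (h.le_opNorm y).trans ?_
        calc ‖h‖ * ‖y‖ ≤ D * 1 := mul_le_mul hh hy (norm_nonneg _) hD0
          _ = D := mul_one _
      have huy : u y ≤ ‖u‖ := by
        refine (le_abs_self _).trans ?_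
        rw [← Real.norm_eq_abs]
        refine (u.le_opNorm y).trans ?_
        calc ‖u‖ * ‖y‖ ≤ ‖u‖ * 1 := mul_le_mul_of_nonneg_left hy (norm_nonneg _)
          _ = ‖u‖ := mul_one _
      by_cases hcase : u y ≤ ‖u‖ * (1 - δ' / 2)
      · have h1 : 2 * D / δ' ≤ ‖u‖ := by linarith
        rw [div_le_iff₀ hδ'0] at h1
        nlinarith
      · push Not at hcase
        have hclose : ‖x - y‖ < ε := by
          by_contra hcon
          push Not at hcon
          have h1 := H hx1 hy hcon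
          have h2 : u (x + y) ≤ ‖u‖ * (2 - δ) := by
            refine (le_abs_self _).trans ?_
            rw [← Real.norm_eq_abs]
            exact (u.le_opNorm _).trans (mul_le_mul_of_nonneg_left h1 hu0.le)
          rw [map_add] at h2
          have h3 : ‖u‖ * (2 - δ) ≤ ‖u‖ * (2 - δ') :=
            mul_le_mul_of_nonneg_left (by linarith [min_le_left δ 1]) hu0.le
          have h4 : 0 < ‖u‖ * δ' := by positivity
          nlinarith
        have h1 : h (y - x) ≤ D * ε := by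
          refine (le_abs_self _).trans ?_
          rw [← Real.norm_eq_abs]
          refine (h.le_opNorm _).trans ?_
          rw [norm_sub_rev]
          exact mul_le_mul hh hclose.le (norm_nonneg _) hD0
        have h2 : h y = h x + h (y - x) := by rw [← map_add]; congr 1; abel
        have h3 := (abs_le.1 hhx).2
        linarith
    refine ContinuousLinearMap.opNorm_le_of_unit_norm (by positivity) fun y hy => ?_
    rw [Real.norm_eq_abs, abs_le]
    constructor
    · have := hb (-y) (by rw [norm_neg, hy])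
      rw [map_neg, map_neg] at this
      rw [ContinuousLinearMap.add_apply]
      linarith
    · rw [ContinuousLinearMap.add_apply]
      exact hb y hy.le
  refine ⟨R₀ + D, by positivity, fun u => ?_⟩
  by_cases hu : R₀ ≤ ‖u‖
  · obtain ⟨x, hx, hx'⟩ := main u hu
    have h0 := hg0 x
    rw [Metric.tendsto_atTop] at h0
    obtain ⟨n₀, hn₀⟩ := h0 (η / 2) (by positivity)
    refine ⟨n₀, fun n hn => ?_⟩
    have h1 : |g n x| ≤ η / 2 := by
      have := (hn₀ n hn).le
      rwa [Real.dist_eq, sub_zero] at this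
    constructor
    · refine (hx' (g n) (hg n) h1).trans ?_
      linarith [le_max_left ‖u‖ (R₀ + D)]
    · have := hx' (-(g n)) (by rw [norm_neg]; exact hg n) (by
        rw [ContinuousLinearMap.neg_apply, abs_neg]; exact h1)
      rw [← sub_eq_add_neg] at this
      refine this.trans ?_
      linarith [le_max_left ‖u‖ (R₀ + D)]
  · push Not at hu
    refine ⟨0, fun n _ => ⟨?_, ?_⟩⟩
    · refine (norm_add_le _ _).trans ?_
      have := hg n
      linarith [le_max_right ‖u‖ (R₀ + D)]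
    · refine (norm_sub_le _ _).trans ?_
      have := hg n
      linarith [le_max_right ‖u‖ (R₀ + D)]

end

end Run7.h491
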